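import Pool.Agent.Y101.Th.Add

/-!
# Averages of traces of Frobenius
-/

set_option autoImplicit false

open CategoryTheory AlgebraicGeometry NumberField IsDedekindDomain Filter Topology

namespace Pool.Agent.Y101.Th

open Pool.Agent.Y116.UV Pool.Agent.Z125.UN

section avg

variable {k : Type} [Field k] [NumberField k]

lemma fin_norm (x : ℝ) :
    {v : HeightOneSpectrum (𝓞 k) | (Ideal.absNorm v.asIdeal : ℝ) ≤ x}.Finite := by
  have h := Ideal.finite_setOfPred_absNorm_le (S := 𝓞 k) ⌊x⌋₊
  refine (h.preimage (f := fun v : HeightOneSpectrum (𝓞 k) => v.asIdeal) ?_).subset ?_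
  · intro v _ w _ hvw
    exact HeightOneSpectrum.ext hvw
  · intro v hv
    exact Nat.le_floor hv

lemma avg_add (f g : HeightOneSpectrum (𝓞 k) → ℝ) (x : ℝ) :
    avg (f + g) x = avg f x + avg g x := by
  unfold avg
  rw [← mul_add, ← finsum_mem_add_distrib (fin_norm x)]
  congr 1
  apply finsum_mem_congr rfl
  intro v _
  rw [Pi.add_apply]
  ring

lemma avg_smul (c : ℝ) (f : HeightOneSpectrum (𝓞 k) → ℝ) (x : ℝ) :
    avg (c • f) x = c * avg f x := by
  unfold avg
  rw [mul_left_comm c]
  congr 1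
  rw [mul_finsum_mem' _ _ (fin_norm x)]
  apply finsum_mem_congr rfl
  intro v _
  rw [Pi.smul_apply, smul_eq_mul]
  ring

lemma avg_null (f : HeightOneSpectrum (𝓞 k) → ℝ) (h : f =ᶠ[cofinite] 0) :
    Tendsto (avg f) atTop (𝓝 0) := by
  classical
  have hF : {v | f v ≠ 0}.Finite := h
  obtain ⟨B, hB⟩ : ∃ B : ℝ, ∀ v ∈ {v | f v ≠ 0}, (Ideal.absNorm v.asIdeal : ℝ) ≤ B := by
    obtain ⟨B, hB⟩ := (hF.image fun v => (Ideal.absNorm v.asIdeal : ℝ)).bddAbove
    exact ⟨B, fun v hv => hB ⟨v, hv, rfl⟩⟩
  have h1 : avg f =ᶠ[atTop] fun x => x⁻¹ *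
      ∑ᶠ v ∈ {v : HeightOneSpectrum (𝓞 k) | f v ≠ 0}, f v * Real.log (Ideal.absNorm v.asIdeal) := by
    filter_upwards [eventually_ge_atTop B] with x hx
    unfold avg
    congr 1
    apply finsum_mem_inter_support_eq'
    intro v hv
    have hv' : f v ≠ 0 := left_ne_zero_of_mul hv
    exact ⟨fun _ => hv', fun _ => (hB v hv').trans hx⟩
  rw [tendsto_congr' h1]
  have h2 := tendsto_inv_atTop_zero (𝕜 := ℝ)
  have h3 := h2.mul_const (∑ᶠ v ∈ {v : HeightOneSpectrum (𝓞 k) | f v ≠ 0},
    f v * Real.log (Ideal.absNorm v.asIdeal))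
  rw [zero_mul] at h3
  exact h3

lemma avg_neg (f : HeightOneSpectrum (𝓞 k) → ℝ) (x : ℝ) : avg (-f) x = -avg f x := by
  have h := avg_smul (-1) f x
  rw [neg_one_smul, neg_one_mul] at h
  exact h

variable (k) in
/-- The functions with average zero. -/
def nullGroup : AddSubgroup (HeightOneSpectrum (𝓞 k) → ℝ) where
  carrier := {f | Tendsto (avg f) atTop (𝓝 0)}
  zero_mem' := avg_null 0 (Filter.EventuallyEq.refl _ _)
  add_mem' {f g} hf hg := by
    have h := Tendsto.add hf hg
    rw [add_zero] at h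
    exact h.congr fun x => (avg_add f g x).symm
  neg_mem' {f} hf := by
    have h := Tendsto.neg hf
    rw [neg_zero] at h
    exact h.congr fun x => (avg_neg f x).symm

lemma mk_eq {f g : HeightOneSpectrum (𝓞 k) → ℝ} (h : f =ᶠ[cofinite] g) :
    (QuotientAddGroup.mk f : (HeightOneSpectrum (𝓞 k) → ℝ) ⧸ nullGroup k) =
      QuotientAddGroup.mk g := by
  rw [QuotientAddGroup.eq]
  refine avg_null _ ?_
  filter_upwards [h] with v hv
  rw [Pi.add_apply, Pi.neg_apply, hv, Pi.zero_apply, neg_add_cancel]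

end avg

section main

variable {k : Type} [Field k] [NumberField k] {T : TraceData k}

/-- The defect. -/
noncomputable def defect (T : TraceData k) (X : Sch k) (j : ℤ) :
    (HeightOneSpectrum (𝓞 k) → ℝ) ⧸ nullGroup k :=
  QuotientAddGroup.mk (T.b X j - (T.rk X j : ℝ) • 1)

lemma defect_eq_zero (hT : IsTraceData T) (X : Sch k) (j : ℤ) :
    defect T X j = 0 ↔ Tauberian T X j := by
  rw [defect, QuotientAddGroup.eq_zero_iff]
  change Tendsto (avg (T.b X j - (T.rk X j : ℝ) • 1)) atTop (𝓝 0) ↔ _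
  have h1 : ∀ x, avg (T.b X j - (T.rk X j : ℝ) • 1) x =
      avg (T.b X j) x - (T.rk X j : ℝ) * avg (k := k) 1 x := by
    intro x
    rw [sub_eq_add_neg, avg_add, avg_neg, avg_smul, ← sub_eq_add_neg]
  have h2 : Tendsto (fun x => (T.rk X j : ℝ) * avg (k := k) 1 x) atTop (𝓝 (T.rk X j)) := by
    have h := hT.prime.const_mul (T.rk X j : ℝ)
    rw [mul_one] at h
    exact h
  unfold Tauberian
  constructor
  · intro h
    have h3 := (h.congr h1).add h2
    rw [zero_add] at h3
    exact h3.congr fun x => sub_add_cancel _ _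
  · intro h
    have h3 := h.sub h2
    rw [sub_self] at h3
    exact h3.congr fun x => (h1 x).symm

lemma isAdd_defect (hT : IsTraceData T) : IsAdd (defect T) where
  iso hX hi j := by
    unfold defect
    rw [hT.iso_rk hX hi j]
    apply mk_eq
    filter_upwards [hT.iso_b hX hi j] with v hv
    rw [Pi.sub_apply, Pi.sub_apply, hv]
  additive {Z X U} f g hX ht j := by
    unfold defect
    rw [hT.additive_rk f g hX ht j, ← QuotientAddGroup.mk_add]
    apply mk_eq
    filter_upwards [hT.additive_b f g hX ht j] with v hv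
    rw [Pi.add_apply] at hv
    rw [Pi.add_apply, Pi.sub_apply, Pi.sub_apply, Pi.sub_apply, hv, Pi.smul_apply, Pi.smul_apply,
      Pi.smul_apply, Pi.one_apply]
    push_cast
    simp only [smul_eq_mul, mul_one]
    ring
  bundle A _ _ _ m f U g hg hr j := by
    unfold defect
    rw [hT.bundle_rk A m f U g hg hr j]
    apply mk_eq
    filter_upwards [hT.bundle_b A m f U g hg hr j] with v hv
    rw [Pi.sub_apply, Pi.sub_apply, hv]
  point j := by
    unfold defect
    rw [QuotientAddGroup.eq_zero_iff]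
    apply avg_null
    by_cases hj : j = 0
    · subst hj
      rw [hT.point_rk.1]
      filter_upwards [hT.point_b.1] with v hv
      rw [Pi.sub_apply, hv]
      simp
    · rw [hT.point_rk.2 j hj]
      filter_upwards [hT.point_b.2 j hj] with v hv
      rw [Pi.sub_apply, hv]
      simp
  neg X hX j hj := by
    unfold defect
    rw [QuotientAddGroup.eq_zero_iff]
    apply avg_null
    rw [hT.neg_rk X hX j hj]
    filter_upwards [hT.neg_b X hX j hj] with v hv
    rw [Pi.sub_apply, hv]
    simp

/-- The Tauberian conjecture is a property to which the method applies. -/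
theorem bnd_taub (hT : IsTraceData T) : Bnd True (fun X : Sch k => ∀ j, Tauberian T X j) := by
  have h := bnd_add (isAdd_defect hT)
  have h1 : (fun X : Sch k => ∀ j, Tauberian T X j) = fun X => ∀ j, defect T X j = 0 := by
    funext X
    exact propext (forall_congr' fun j => (defect_eq_zero hT X j).symm)
  rw [h1]
  exact h

end main

end Pool.Agent.Y101.Th
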