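import Pool.Agent.Y116.UV.Defs

/-!
# Motivic homology, motivic cohomology with compact supports and their pairing: definitions
-/

set_option autoImplicit false

open CategoryTheory AlgebraicGeometry

namespace Pool.Agent.Y101.Th

open Pool.Agent.Y116.UV

attribute [local instance] MvPolynomial.gradedAlgebra

/-- The structure morphism of the projective space `ℙ^N` over `k`. -/
noncomputable def prS (k : Type) [Field k] (N : ℕ) :
    Proj (MvPolynomial.homogeneousSubmodule (Fin (N + 1)) k) ⟶ Spec (CommRingCat.of k) :=
  Proj.toSpecZero (MvPolynomial.homogeneousSubmodule (Fin (N + 1)) k) ≫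
    Spec.map (CommRingCat.ofHom
      (algebraMap k (MvPolynomial.homogeneousSubmodule (Fin (N + 1)) k 0)))

/-- `X` is smooth and projective over `k`: smooth and isomorphic to a closed subscheme of a projective
space (hence separated and of finite type, `ft`). -/
structure SmProj {k : Type} [Field k] (X : Sch k) : Prop where
  ft : FT True X
  smooth : Smooth X.hom
  projective : ∃ (N : ℕ) (i : X.left ⟶ Proj (MvPolynomial.homogeneousSubmodule (Fin (N + 1)) k)),
    IsClosedImmersion i ∧ i ≫ prS k N = X.hom

/-- Data: the rational motivic homology `H X i n = H_i^c(X, ℚ(n))` (higher Chow groups), the rational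
motivic cohomology with compact supports `C X i n = H^i_c(X, ℚ(n))`, and their pairing with values
in `ℚ`, for the schemes `X` over the field `k`. For `X` smooth and projective of dimension `d`,
`H_i^c(X, ℚ(n)) = H^(2d-i)(X, ℚ(d-n))`, `H^i_c(X, ℚ(n)) = H^i(X, ℚ(n))` and the pairing is the cup
product followed by the degree. -/
structure Motivic (k : Type) [Field k] where
  H : Sch k → ℤ → ℤ → Type
  [hgrp : ∀ X i n, AddCommGroup (H X i n)]
  [hmod : ∀ X i n, Module ℚ (H X i n)]
  C : Sch k → ℤ → ℤ → Type
  [cgrp : ∀ X i n, AddCommGroup (C X i n)]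
  [cmod : ∀ X i n, Module ℚ (C X i n)]
  pair : ∀ X i n, H X i n →ₗ[ℚ] C X i n →ₗ[ℚ] ℚ

attribute [instance] Motivic.hgrp Motivic.hmod Motivic.cgrp Motivic.cmod

variable {k : Type} [Field k]

/-- The pairing of `X` is perfect for all `i` and `n`: both induced maps into the dual spaces are
isomorphisms. -/
def Perfect (T : Motivic k) (X : Sch k) : Prop :=
  ∀ i n : ℤ, Function.Bijective (T.pair X i n) ∧ Function.Bijective (T.pair X i n).flip

/-- A homomorphism `f` of motivic homology groups together with an adjoint homomorphism `g` of the
motivic cohomology groups with compact supports. -/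
structure PHom (T : Motivic k) (X : Sch k) (i n : ℤ) (Y : Sch k) (i' n' : ℤ) where
  f : T.H X i n →ₗ[ℚ] T.H Y i' n'
  g : T.C Y i' n' →ₗ[ℚ] T.C X i n
  adj : ∀ x y, T.pair Y i' n' (f x) y = T.pair X i n x (g y)

/-- Exactness for both theories. -/
def PExact {T : Motivic k} {X Y W : Sch k} {i n i' n' i'' n'' : ℤ}
    (a : PHom T X i n Y i' n') (b : PHom T Y i' n' W i'' n'') : Prop :=
  Function.Exact a.f b.f ∧ Function.Exact b.g a.g

/-- The long exact localisation sequences for a closed subscheme `Z` of `X` and its complement
`U`. -/
def HasPSequence (T : Motivic k) (Z X U : Sch k) : Prop :=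
  ∀ n : ℤ, ∃ (a : ∀ i, PHom T Z i n X i n) (b : ∀ i, PHom T X i n U i n)
    (d : ∀ i, PHom T U (i + 1) n Z i n),
    ∀ i, PExact (a i) (b i) ∧ PExact (b (i + 1)) (d i) ∧ PExact (d i) (a i)

/-- The groups of `X` are isomorphic to those of `Y` in the degrees `i + 2 r` with the twists
`n + r`. -/
def HasPIso (T : Motivic k) (X Y : Sch k) (r : ℤ) : Prop :=
  ∀ i n : ℤ, ∃ s : PHom T X i n Y (i + 2 * r) (n + r), Function.Bijective s.f ∧
    Function.Bijective s.g

/-- The groups of `X` are direct summands of those of `Y` in the degrees `i + 2 r` with the twists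
`n + r`. -/
def HasPRetraction (T : Motivic k) (X Y : Sch k) (r : ℤ) : Prop :=
  ∀ i n : ℤ, ∃ (s : PHom T X i n Y (i + 2 * r) (n + r)) (t : PHom T Y (i + 2 * r) (n + r) X i n),
    (∀ x, t.f (s.f x) = x) ∧ ∀ y, s.g (t.g y) = y

/-- Known properties of motivic homology and motivic cohomology with compact supports (with rational
coefficients) of the separated schemes of finite type over a finite field `k`: isomorphic schemes
have isomorphic groups (`iso`), the localisation sequences are exact and adjoint to each other
(`localization`), the groups are invariant under the affine bundle `Spec A[w] / (∑ f_l w_l - 1) → U`,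
where `U` is the complement of the closed subscheme `f = 0` of `Spec A` (`bundle`), the groups of `X`
are direct summands of those of `X × 𝔾_m` (`torus`), the pairing is perfect for the schemes of
dimension at most one (`curves`, known: curves over finite fields), and if the pairing is perfect
for all smooth projective schemes of dimension at most `d` then it is perfect for all separated
schemes of finite type of dimension at most `d` (`alterations`, known: de Jong's theorem). -/
structure IsMotivic (T : Motivic k) : Prop where
  iso : ∀ {X Y : Sch k}, FT True X → Nonempty (X ≅ Y) → HasPIso T X Y 0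
  localization : ∀ {Z X U : Sch k} (a : Z ⟶ X) (b : U ⟶ X), FT True X → IsTriple a b →
    HasPSequence T Z X U
  bundle : ∀ (A : Type) [CommRing A] [Algebra k A] [Algebra.FiniteType k A] (m : ℕ)
    (f : Fin m → A) (U : Sch k) (b : U ⟶ aff k A), IsOpenImmersion b.left →
    Set.range b.left = {x : PrimeSpectrum A | ∃ l, f l ∉ x.asIdeal} →
    HasPIso T U (aff k (Jou f)) (m - 1)
  torus : ∀ (A : Type) [CommRing A] [Algebra k A] [Algebra.FiniteType k A],
    HasPRetraction T (aff k A) (aff k (LaurentPolynomial A)) 1
  curves : ∀ X : Sch k, FT True X → topologicalKrullDim X.left ≤ 1 → Perfect T X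
  alterations : ∀ d : ℕ, (∀ X : Sch k, SmProj X → topologicalKrullDim X.left ≤ d → Perfect T X) →
    ∀ X : Sch k, FT True X → topologicalKrullDim X.left ≤ d → Perfect T X

end Pool.Agent.Y101.Th
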