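import Pool.Agent.Y101.Th.Cyc

/-!
# Cycle class maps over finite fields and systems of bilinear equations
-/

set_option autoImplicit false

open CategoryTheory AlgebraicGeometry MvPolynomial

namespace Pool.Agent.Y101.Th

open Pool.Agent.Y116.UV Pool.Agent.Z125.UN
open Pool.Agent.W495.FM (Node Arrow five good_retract)

lemma ft_clo {R : Type} [CommRing R] {sep : Prop} {Z X : Sch R} (f : Z ⟶ X)
    (hf : IsClosedImmersion f.left) (hX : FT sep X) : FT sep Z where
  locallyOfFiniteType := by
    have h := hX.locallyOfFiniteType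
    rw [← Over.w f]
    infer_instance
  quasiCompact := by
    have h := hX.quasiCompact
    rw [← Over.w f]
    infer_instance
  separated hs := by
    have h := hX.separated hs
    rw [← Over.w f]
    infer_instance

variable {k Ω : Type} [Field k] [Field Ω] [CharZero Ω] {T : Homology k Ω}

lemma full_of_good {A : Node Ω} (h : A.Good) : FullN A := h.2

lemma jj_iso (hT : IsHomology T) {X Y : Sch k} {r : ℤ} (h : HasIso T X Y r) (hX : JJ hT X) :
    JJ hT Y := by
  intro i j hij
  obtain ⟨i, rfl⟩ : ∃ l, i = l + 2 * r := ⟨i - 2 * r, by ring⟩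
  obtain ⟨j, rfl⟩ : ∃ l, j = l + r := ⟨j - r, by ring⟩
  obtain ⟨s, hf, hg⟩ := h i j
  refine good_retract (ar hT (hinv s hf hg)) (ar hT s) ?_ ?_ (hX i j (by linarith))
  · intro x
    exact (AddEquiv.ofBijective s.f hf).apply_symm_apply x
  · intro x
    exact (LinearEquiv.ofBijective s.g hg).apply_symm_apply x

lemma jj_ret (hT : IsHomology T) {X Y : Sch k} {r : ℤ} (h : HasRetraction T X Y r)
    (hY : JJ hT Y) : JJ hT X := by
  intro i j hij
  obtain ⟨s, t, h1, h2⟩ := h i j
  exact good_retract (ar hT s) (ar hT t) h1 h2 (hY _ _ (by linarith))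

/-- The bijectivity of the cycle class maps together with semisimplicity passes to open subschemes and
from `X × 𝔾_m` to `X`. -/
theorem dn_cyc (hT : IsHomology T) (hK : CycKnown T) : Dn True (JJ hT) where
  iso h e hX := jj_iso hT (hT.iso h e) hX
  opened f g hX ht hZ hX' := by
    intro i j hij
    obtain ⟨a, b, h⟩ := right_triple hT hK f g hX (ft_clo f ht.closed hX) ht i j hij
    exact right_good hT a b h (hZ i j hij).2 (hX' i j hij)
  torus A _ _ _ h := jj_ret hT (hT.torus A) h

/-- all affine schemes are sufficient -/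
lemma jj_of_affine (hT : IsHomology T) (hK : CycKnown T)
    (h : ∀ (A : Type) [CommRing A] [Algebra k A] [Algebra.FiniteType k A], JJ hT (aff k A))
    (X : Sch k) (hX : FT True X) : JJ hT X := by
  obtain ⟨A, B, _, _, _, _, _, _, r, s, h1⟩ := hK.presentation X hX
  intro i j hij
  obtain ⟨a, b, hab⟩ := h1 i j hij
  exact right_good hT a b hab (h B _ _ (by linarith)).2 (h A _ _ (by linarith))

/-- all bilinear systems are sufficient -/
theorem jj_all (hT : IsHomology T) (hK : CycKnown T) {S : Set k} (h0 : (0 : k) ∈ S)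
    (h1 : (1 : k) ∈ S) (hHas : ∀ (n : ℕ) (p : MvPolynomial (Fin n) k), Has S p)
    (hB : ∀ (a b c : ℕ) (t : Fin a → Fin b → Fin c → k), (∀ i j l, t i j l ∈ S) → JJ hT (bilS t))
    (X : Sch k) (hX : FT True X) : JJ hT X := by
  refine jj_of_affine hT hK (fun A _ _ _ => ?_) X hX
  obtain ⟨n, φ, hs⟩ := Algebra.FiniteType.iff_quotient_mvPolynomial''.mp
    (inferInstance : Algebra.FiniteType k A)
  exact dn_alg (dn_cyc hT hK) (Ideal.quotientKerAlgEquivOfSurjective (f := φ) hs)
    (closed_of_bil (dn_cyc hT hK) h0 h1 (hHas n) (fun a b t => hB a b (n + 1) t) (RingHom.ker φ))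

lemma exists_span (A : Node Ω) (e : A.E) (he : e ∈ Submodule.span Ω (Set.range A.ρ)) :
    ∃ (r : ℕ) (z : Fin r → A.M), e ∈ Submodule.span Ω (Set.range fun l => A.ρ (z l)) := by
  classical
  obtain ⟨c, hc⟩ := (Finsupp.mem_span_range_iff_exists_finsupp).mp he
  refine ⟨c.support.card, fun l => (c.support.equivFin.symm l : A.M), ?_⟩
  rw [← hc]
  refine Submodule.sum_mem _ fun x hx => Submodule.smul_mem _ _ (Submodule.subset_span ?_)
  exact ⟨c.support.equivFin ⟨x, hx⟩, by simp⟩

/-- Semisimplicity follows from the surjectivity for all schemes. -/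
theorem semisimple_of_all (hT : IsHomology T) (hK : CycKnown T)
    (h : ∀ X : Sch k, FT True X → CycIso T X) (X : Sch k) (hX : FT True X) : Semisimple T X := by
  intro i j hij e he
  have h1 : T.frob X i j e - e ∈ Submodule.span Ω (Set.range (T.reg X i j)) :=
    (h X hX i j hij).1 _ he
  obtain ⟨r, z, hz⟩ := exists_span (nd hT X i j) _ h1
  obtain ⟨Z, U, a, b, hU, hab, hbz, hZ⟩ := hK.support X i j hX hij r z
  have h2 : b.g (T.frob X i j e - e) = 0 := by
    have h3 : Submodule.span Ω (Set.range fun l => (nd hT X i j).ρ (z l)) ≤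
        LinearMap.ker b.g := by
      rw [Submodule.span_le]
      rintro _ ⟨l, rfl⟩
      change b.g (T.reg X i j (z l)) = 0
      rw [← b.reg, hbz, map_zero]
    exact h3 hz
  have h3 : T.frob U i j (b.g e) = b.g e := by
    rw [b.frob]
    rw [map_sub] at h2
    exact sub_eq_zero.mp h2
  obtain ⟨u, hu⟩ := (mem_span_lam (nd hT U i j) (b.g e)).mp ((h U hU i j hij).1 _ h3)
  obtain ⟨v, rfl⟩ := (LinearMap.lTensor_surjective Ω hab.2.1 : Function.Surjective
    (ar hT b).ten) u
  obtain ⟨L, hL⟩ : ∃ L : T.E X i j, L = (nd hT X i j).lam v := ⟨_, rfl⟩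
  have h4 : b.g (e + -L) = 0 := by
    have h5 : b.g L = b.g e := by
      rw [← hu, hL]
      exact ((ar hT b).lam_ten v).symm
    rw [map_add, map_neg, h5, add_neg_cancel]
  have h5 : (nd hT X i j).InG e := by
    refine ⟨2, ?_⟩
    rw [pow_two, Module.End.mul_apply]
    change (T.frob X i j (T.frob X i j e - e) - (T.frob X i j e - e)) = 0
    rw [he, sub_self]
  have h8 : (nd hT X i j).InG L := by
    rw [hL]
    exact (nd hT X i j).inG_lam v
  obtain ⟨y, hy, hy'⟩ := hab.2.2.1 _ (h5.add h8.neg) h4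
  obtain ⟨w, rfl⟩ := (mem_span_lam (nd hT Z i j) y).mp (hZ y hy)
  have h6 : (nd hT X i j).lam ((ar hT a).ten w + v) = e := by
    rw [map_add, (ar hT a).lam_ten, ← hL]
    have h7 : (ar hT a).g ((nd hT Z i j).lam w) = e + -L := hy'
    rw [h7]
    exact neg_add_cancel_right e L
  rw [← h6]
  exact (nd hT X i j).φ_lam _

lemma jj_of_tb (hT : IsHomology T) {X : Sch k} (h : TB T X) : JJ hT X := fun i j _ =>
  (tb_iff_good hT X).mp h i j

end Pool.Agent.Y101.Th
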