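import Pool.Agent.Y101.Th.Sys

/-!
# The open part `y_0 z_0 ≠ 0` of a system of bilinear equations
-/

set_option autoImplicit false

open MvPolynomial

namespace Pool.Agent.Y101.Th

open Pool.Agent.Y116.UV

variable {R : Type} [CommRing R] {S : Set R} {n : ℕ}

lemma aff1_value {B : Type} [CommRing B] [Algebra R B] (φ : MvPolynomial (Fin n) R →ₐ[R] B)
    (v : Option (Fin n) → R) : φ (aff1 v) = algebraMap R B (v none) +
      ∑ i, algebraMap R B (v (some i)) * φ (X i) := by
  rw [aff1, map_add, map_sum, hom_C]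
  congr 1
  apply Finset.sum_congr rfl
  intro i _
  rw [map_mul, hom_C]

lemma bil_aff {β κ B : Type} [Fintype β] [CommRing B] [Algebra R B]
    (T : κ → β → Option (Fin n) → R) (φ : MvPolynomial (β ⊕ Option (Fin n)) R →ₐ[R] B)
    (ψ : MvPolynomial (Fin n) R →ₐ[R] B)
    (h : ∀ i, φ (X (Sum.inr (some i))) = φ (X (Sum.inr none)) * ψ (X i)) (k : κ) :
    φ (bil β (Option (Fin n)) (T k)) =
      φ (X (Sum.inr none)) * ∑ j, ψ (aff1 (T k j)) * φ (X (Sum.inl j)) := by
  rw [bil_value, Finset.mul_sum]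
  apply Finset.sum_congr rfl
  intro j _
  rw [aff1_value]
  have h2 : ∑ i, algebraMap R B (T k j (some i)) * φ (X (Sum.inr (some i))) =
      φ (X (Sum.inr none)) * ∑ i, algebraMap R B (T k j (some i)) * ψ (X i) := by
    rw [Finset.mul_sum]
    apply Finset.sum_congr rfl
    intro i _
    rw [h]
    ring
  rw [h2]
  ring

variable (s : Sy S n) (G : Finset (MvPolynomial (Fin n) R)) (e : G → s.β)

open Classical in
/-- the coefficients of the equations of the system and of `y_e z_0 = 0` -/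
noncomputable def cT : s.κ ⊕ G → Option s.β → Option (Fin n) → R :=
  Sum.elim s.T fun g j o => if j = some (e g) ∧ o = none then 1 else 0

lemma cT_mem (h0 : (0 : R) ∈ S) (h1 : (1 : R) ∈ S) (k : s.κ ⊕ G) (j : Option s.β)
    (o : Option (Fin n)) : cT s G e k j o ∈ S := by
  classical
  rcases k with k | g
  · exact s.mem k j o
  · unfold cT
    rw [Sum.elim_inr]
    split_ifs
    · exact h1
    · exact h0

lemma cT_inl (k : s.κ) : cT s G e (Sum.inl k) = s.T k := rfl

lemma cT_inr {B : Type} [CommRing B] [Algebra R B] (φ : MvPolynomial (Fin n) R →ₐ[R] B)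
    (y : Option s.β → B) (g : G) :
    ∑ j, φ (aff1 (cT s G e (Sum.inr g) j)) * y j = y (some (e g)) := by
  classical
  rw [Finset.sum_eq_single (some (e g))]
  · have h2 : aff1 (cT s G e (Sum.inr g) (some (e g))) = 1 := by
      unfold cT
      simp [aff1]
    rw [h2, map_one, one_mul]
  · intro j _ hj
    have h2 : aff1 (cT s G e (Sum.inr g) j) = 0 := by
      unfold cT
      simp [aff1, hj]
    rw [h2, map_zero, zero_mul]
  · intro h
    exact absurd (Finset.mem_univ _) h

/-- the inclusion of `A` in `A[s, 1/s][t, 1/t]` -/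
noncomputable def iaR (R A : Type) [CommRing R] [CommRing A] [Algebra R A] : A →ₐ[R] Tor A :=
  { ia A with commutes' := fun _ => rfl }

lemma iaR_apply (A : Type) [CommRing A] [Algebra R A] (a : A) : iaR R A a = ia A a := rfl

/-- the ideal of the equations -/
noncomputable abbrev cI : Ideal (MvPolynomial (Option s.β ⊕ Option (Fin n)) R) :=
  Ideal.span (Set.range fun k => bil (Option s.β) (Option (Fin n)) (cT s G e k))

/-- the ring of the system of bilinear equations -/
abbrev CR : Type := MvPolynomial (Option s.β ⊕ Option (Fin n)) R ⧸ cI s G e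

/-- the function `y_0 z_0` -/
noncomputable def cw0 : MvPolynomial (Option s.β ⊕ Option (Fin n)) R :=
  X (Sum.inl none) * X (Sum.inr none)

/-- the function `y_0 z_0` -/
noncomputable def cwe : CR s G e := Ideal.Quotient.mk (cI s G e) (cw0 s)

section

variable {A : Type} [CommRing A] [Algebra R A] (π : MvPolynomial (Fin n) R →ₐ[R] A)

/-- the values of the coordinates -/
noncomputable def cv : Option s.β ⊕ Option (Fin n) → Tor A :=
  Sum.elim (fun j => ts A * iaR R A (π (s.Fo j)))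
    (fun o => o.elim (tt A) fun i => tt A * iaR R A (π (X i)))

/-- the forward homomorphism -/
noncomputable def cF : MvPolynomial (Option s.β ⊕ Option (Fin n)) R →ₐ[R] Tor A :=
  aeval (cv s π)

lemma cF_y (j : Option s.β) : cF s π (X (Sum.inl j)) = ts A * iaR R A (π (s.Fo j)) := by
  rw [cF, aeval_X, cv, Sum.elim_inl]

lemma cF_y0 : cF s π (X (Sum.inl none)) = ts A := by
  have h : s.Fo none = 1 := rfl
  rw [cF_y, h, map_one, map_one, mul_one]

lemma cF_0 : cF s π (X (Sum.inr none)) = tt A := by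
  rw [cF, aeval_X, cv, Sum.elim_inr, Option.elim_none]

lemma cF_z (i : Fin n) : cF s π (X (Sum.inr (some i))) = tt A * iaR R A (π (X i)) := by
  rw [cF, aeval_X, cv, Sum.elim_inr, Option.elim_some]

lemma cF_bil (hG : ∀ g : G, π g.1 = 0) (he : ∀ g : G, s.F (e g) = g.1) (k : s.κ ⊕ G) :
    cF s π (bil (Option s.β) (Option (Fin n)) (cT s G e k)) = 0 := by
  rw [bil_aff (cT s G e) (cF s π) ((iaR R A).comp π) (fun i => by
    rw [cF_z, cF_0, AlgHom.comp_apply]) k]
  rcases k with k | g
  · have h := (s.sol (Tor A) ((iaR R A).comp π) (fun j => cF s π (X (Sum.inl j)))).mpr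
      (fun j => by
        rw [cF_y, cF_y0, AlgHom.comp_apply]
        exact mul_comm _ _) k
    rw [cT_inl, h, mul_zero]
  · rw [cT_inr s G e ((iaR R A).comp π) (fun j => cF s π (X (Sum.inl j))) g, cF_y]
    have h : s.Fo (some (e g)) = g.1 := he g
    rw [h, hG, map_zero, mul_zero, mul_zero]

theorem cone_aux (hs0 : Function.Surjective π) (hG : ∀ g : G, π g.1 = 0)
    (hlift : ∀ (B : Type) [CommRing B] [Algebra R B] (φ : MvPolynomial (Fin n) R →ₐ[R] B),
      (∀ g : G, φ g.1 = 0) → ∃ ψ : A →ₐ[R] B, ∀ p, ψ (π p) = φ p)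
    (he : ∀ g : G, s.F (e g) = g.1)
    {W : Type} [CommRing W] [Algebra R W]
    (q0 : MvPolynomial (Option s.β ⊕ Option (Fin n)) R →ₐ[R] W)
    (hs : Function.Surjective q0)
    (hk : ∀ k, q0 (bil (Option s.β) (Option (Fin n)) (cT s G e k)) = 0)
    (hW : ∀ (B : Type) [CommRing B] [Algebra R B]
      (φ : MvPolynomial (Option s.β ⊕ Option (Fin n)) R →ₐ[R] B),
      (∀ k, φ (bil (Option s.β) (Option (Fin n)) (cT s G e k)) = 0) →
      ∃ g : W →ₐ[R] B, ∀ x, g (q0 x) = φ x) :
    Nonempty (Localization.Away (q0 (cw0 s)) ≃ₐ[R] Tor A) := by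
  obtain ⟨F1, hF1⟩ := hW (Tor A) (cF s π) (cF_bil s G e π hG he)
  obtain ⟨F, hF⟩ := exists_loc (q0 (cw0 s)) F1 (by
    rw [hF1, cw0, map_mul, cF_y0, cF_0]
    exact isUnit_ts.mul isUnit_tt)
  obtain ⟨q, hq⟩ : ∃ q : MvPolynomial (Option s.β ⊕ Option (Fin n)) R →ₐ[R]
      Localization.Away (q0 (cw0 s)), ∀ x, q x = algebraMap W _ (q0 x) :=
    ⟨(IsScalarTower.toAlgHom R W _).comp q0, fun x => rfl⟩
  have hqk : ∀ k, q (bil (Option s.β) (Option (Fin n)) (cT s G e k)) = 0 := by
    intro k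
    rw [hq, hk, map_zero]
  have hu : IsUnit (q (cw0 s)) := by
    rw [hq]
    exact isUnit_away _
  have hu2 : IsUnit (q (X (Sum.inl none)) * q (X (Sum.inr none))) := by
    rw [← map_mul]
    exact hu
  obtain ⟨u, hu'⟩ := isUnit_of_mul_isUnit_left hu2
  obtain ⟨v, hv'⟩ := isUnit_of_mul_isUnit_right hu2
  have huu : (u : Localization.Away (q0 (cw0 s))) * ↑u⁻¹ = 1 := Units.mul_inv u
  have hvv : (v : Localization.Away (q0 (cw0 s))) * ↑v⁻¹ = 1 := Units.mul_inv v
  obtain ⟨G1, hG1⟩ : ∃ G1 : MvPolynomial (Fin n) R →ₐ[R] Localization.Away (q0 (cw0 s)),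
      ∀ i, G1 (X i) = q (X (Sum.inr (some i))) * ↑v⁻¹ :=
    ⟨aeval fun i => q (X (Sum.inr (some i))) * ↑v⁻¹, fun g => aeval_X _ _⟩
  have hrel : ∀ k, ∑ j, G1 (aff1 (cT s G e k j)) * q (X (Sum.inl j)) = 0 := by
    intro k
    have h := hqk k
    rw [bil_aff (cT s G e) q G1 (fun i => by
      rw [hG1, ← hv']
      linear_combination (-(q (X (Sum.inr (some i))))) * hvv) k, ← hv'] at h
    have h2 : (↑v⁻¹ : Localization.Away (q0 (cw0 s))) * (↑v *
        ∑ j, G1 (aff1 (cT s G e k j)) * q (X (Sum.inl j))) = 0 := by rw [h, mul_zero]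
    linear_combination h2 - (∑ j, G1 (aff1 (cT s G e k j)) * q (X (Sum.inl j))) * hvv
  have hy : ∀ j, q (X (Sum.inl (some j))) = G1 (s.F j) * q (X (Sum.inl none)) :=
    (s.sol _ G1 fun j => q (X (Sum.inl j))).mp fun k => hrel (Sum.inl k)
  have hFo : ∀ j, q (X (Sum.inl j)) = G1 (s.Fo j) * q (X (Sum.inl none)) := by
    rintro (_ | j)
    · have h : s.Fo none = 1 := rfl
      rw [h, map_one, one_mul]
    · exact hy j
  have hG1g : ∀ g : G, G1 g.1 = 0 := by
    intro g
    have h1 := hrel (Sum.inr g)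
    rw [cT_inr s G e G1 (fun j => q (X (Sum.inl j))) g, hy, he, ← hu'] at h1
    have h2 : G1 g.1 * ↑u * (↑u⁻¹ : Localization.Away (q0 (cw0 s))) = 0 := by
      rw [h1, zero_mul]
    linear_combination h2 - G1 g.1 * huu
  obtain ⟨G0, hG0⟩ := hlift _ G1 hG1g
  obtain ⟨H, hHa, hHs, hHt⟩ : ∃ H : Tor A →+* Localization.Away (q0 (cw0 s)),
      (∀ a, H (iaR R A a) = G0 a) ∧ H (ts A) = u ∧ H (tt A) = v := by
    refine ⟨LaurentPolynomial.eval₂ (LaurentPolynomial.eval₂ G0.toRingHom u) v,
      fun a => ?_, ?_, ?_⟩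
    · rw [iaR_apply, ia, RingHom.comp_apply, LaurentPolynomial.eval₂_C,
        LaurentPolynomial.eval₂_C]
      rfl
    · rw [ts, LaurentPolynomial.eval₂_C, LaurentPolynomial.eval₂_T, zpow_one]
    · rw [tt, LaurentPolynomial.eval₂_T, zpow_one]
  have hFq : ∀ x, F (q x) = cF s π x := fun x => by rw [hq, hF, hF1]
  have hFv : F (v : Localization.Away (q0 (cw0 s))) = tt A := by rw [hv', hFq, cF_0]
  have hFu : F (u : Localization.Away (q0 (cw0 s))) = ts A := by rw [hu', hFq, cF_y0]
  have hFv' : F (↑v⁻¹ : Localization.Away (q0 (cw0 s))) * tt A = 1 := by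
    rw [← hFv, ← map_mul, Units.inv_mul, map_one]
  have h1 : F.comp G1 = (iaR R A).comp π := by
    apply MvPolynomial.algHom_ext
    intro i
    rw [AlgHom.comp_apply, hG1, map_mul, hFq, cF_z, AlgHom.comp_apply]
    linear_combination (iaR R A (π (X i))) * hFv'
  have e1 : F.toRingHom.comp H = RingHom.id (Tor A) := by
    apply tor_hom_ext
    · intro a
      obtain ⟨p, rfl⟩ := hs0 a
      change F (H (iaR R A (π p))) = iaR R A (π p)
      rw [hHa, hG0]
      exact congrArg (fun k => k p) h1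
    · change F (H (ts A)) = ts A
      rw [hHs, hFu]
    · change F (H (tt A)) = tt A
      rw [hHt, hFv]
  have e2 : H.comp F.toRingHom = RingHom.id _ := by
    apply IsLocalization.ringHom_ext (Submonoid.powers (q0 (cw0 s)))
    have h3 : ∀ x, H (F (q x)) = q x := by
      have h4 : (H.comp F.toRingHom).comp q.toRingHom = q.toRingHom := by
        apply MvPolynomial.ringHom_ext
        · intro r
          change H (F (q (C r))) = q (C r)
          rw [hFq, hom_C, hom_C, ← (iaR R A).commutes r, hHa, AlgHom.commutes]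
        · rintro (j | _ | i)
          · change H (F (q (X (Sum.inl j)))) = q (X (Sum.inl j))
            rw [hFq, cF_y, map_mul, hHs, hHa, hG0, hFo j, ← hu', mul_comm]
          · change H (F (q (X (Sum.inr none)))) = q (X (Sum.inr none))
            rw [hFq, cF_0, hHt, hv']
          · change H (F (q (X (Sum.inr (some i))))) = q (X (Sum.inr (some i)))
            rw [hFq, cF_z, map_mul, hHt, hHa, hG0, hG1]
            linear_combination (q (X (Sum.inr (some i)))) * hvv
      exact fun x => congrArg (fun k => k x) h4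
    ext x
    obtain ⟨x, rfl⟩ := hs x
    change H (F (algebraMap W _ (q0 x))) = algebraMap W _ (q0 x)
    rw [← hq, h3]
  exact ⟨AlgEquiv.ofRingEquiv (f := RingEquiv.ofRingHom F.toRingHom H e1 e2)
    (fun r => F.commutes r)⟩

end

/-- The open part `y_0 z_0 ≠ 0` is the product of `V(G) ⊆ 𝔸^n` with `𝔾_m × 𝔾_m`. -/
theorem cone_iso (he : ∀ g : G, s.F (e g) = g.1) : Nonempty (Localization.Away (cwe s G e) ≃ₐ[R]
    Tor (MvPolynomial (Fin n) R ⧸ Ideal.span (G : Set (MvPolynomial (Fin n) R)))) := by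
  refine cone_aux s G e (Ideal.Quotient.mkₐ R _) (Ideal.Quotient.mkₐ_surjective R _) ?_ ?_ he
    (Ideal.Quotient.mkₐ R _) (Ideal.Quotient.mkₐ_surjective R _) ?_ ?_
  · intro g
    exact Ideal.Quotient.eq_zero_iff_mem.mpr (Ideal.subset_span g.2)
  · intro B _ _ φ h
    refine ⟨Ideal.Quotient.liftₐ _ φ (fun x hx => ?_), fun _ => rfl⟩
    have h1 : Ideal.span (G : Set (MvPolynomial (Fin n) R)) ≤ RingHom.ker φ := by
      rw [Ideal.span_le]
      intro g hg
      exact h ⟨g, hg⟩
    exact h1 hx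
  · intro k
    exact Ideal.Quotient.eq_zero_iff_mem.mpr (Ideal.subset_span ⟨k, rfl⟩)
  · intro B _ _ φ h
    exact bring_lift (cT s G e) B φ h

end Pool.Agent.Y101.Th
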