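import Pool.Agent.Y101.Th.UpMain
import Pool.Agent.Y101.Th.Down
import Pool.Agent.Y116.UV.Graph

/-!
# The number of variables of one block of a trilinear form decides the dimension
-/

set_option autoImplicit false

open CategoryTheory AlgebraicGeometry MvPolynomial TopologicalSpace

namespace Pool.Agent.Y101.Th

open Pool.Agent.Y116.UV

variable {R : Type} [CommRing R] {sep : Prop} {P : Sch R → Prop} {S : Set R}

lemma of_bil' (hP : Uni sep P) {c : ℕ}
    (hH : ∀ (a b : ℕ) (T : Fin a → Fin b → Fin c → R), (∀ i j k, T i j k ∈ S) →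
      P (aff R (Hyp T))) {β γ κ : Type} [Fintype β] [Fintype γ] [Fintype κ]
    (hγ : Fintype.card γ = c) (f : κ → MvPolynomial (β ⊕ γ) R)
    (hf : ∀ k, f k ∈ bilIn S β γ) :
    P (aff R (MvPolynomial (β ⊕ γ) R ⧸ Ideal.span (Set.range f))) := by
  let e := (Fintype.equivFin κ).symm
  have h1 : Set.range f = Set.range (f ∘ e) := by
    rw [Set.range_comp, e.range_eq_univ, Set.image_univ]
  rw [h1]
  choose T hTS hT using hf
  refine of_jou hP (f ∘ e) (space' hP _) ?_
  have h2 : f ∘ e = fun i => bil β γ (T (e i)) := by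
    funext i
    exact (hT (e i)).symm
  rw [h2]
  refine iso_alg hP (hypEquiv fun i => T (e i)) ?_
  exact iso_alg hP (hypRename (Equiv.refl _) (Fintype.equivFin β).symm
    (Fintype.equivFinOfCardEq hγ).symm (fun i => T (e i))) (hH _ _ _ fun _ _ _ => hTS _ _ _)

/-- If `P` is true for all hypersurfaces `t(x, y, z) = 1` over the noetherian ring `R`, where `t`
has coefficients in `S` and `z` consists of `n + 1` variables, then it is true for all closed
subschemes of `𝔸^n`. -/
theorem closed_of_hyp [IsNoetherianRing R] (hP : Uni sep P) (h0 : (0 : R) ∈ S)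
    (h1 : (1 : R) ∈ S) {n : ℕ} (hHas : ∀ p : MvPolynomial (Fin n) R, Has S p)
    (hH : ∀ (a b : ℕ) (T : Fin a → Fin b → Fin (n + 1) → R), (∀ i j k, T i j k ∈ S) →
      P (aff R (Hyp T))) (I : Ideal (MvPolynomial (Fin n) R)) :
    P (aff R (MvPolynomial (Fin n) R ⧸ I)) := by
  classical
  obtain ⟨G, rfl⟩ := (isNoetherianRing_iff_ideal_fg _).mp
    (inferInstance : IsNoetherianRing (MvPolynomial (Fin n) R)) I
  obtain ⟨s, hs⟩ := exists_sys h0 hHas G
  have hs' : ∀ g : G, ∃ e, s.F e = g.1 := fun g => hs g.1 g.2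
  choose e he using hs'
  have hcard : Fintype.card (Option (Fin n)) = n + 1 := by simp
  have hmem : ∀ k, bil (Option s.β) (Option (Fin n)) (cT s G e k) ∈
      bilIn S (Option s.β) (Option (Fin n)) := fun k => ⟨_, fun j o => cT_mem s G e h0 h1 k j o, rfl⟩
  have hA : P (aff R (CR s G e)) := of_bil' hP hH hcard _ hmem
  let f' : Option (s.κ ⊕ G) → MvPolynomial (Option s.β ⊕ Option (Fin n)) R := fun k =>
    k.elim (cw0 s) fun k => bil (Option s.β) (Option (Fin n)) (cT s G e k)
  have h2 : P (aff R (MvPolynomial (Option s.β ⊕ Option (Fin n)) R ⧸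
      Ideal.span (Set.range f'))) := by
    apply of_bil' hP hH hcard f'
    rintro (_ | k)
    · exact single_mem h0 h1 _ _
    · exact hmem k
  have h3 : Ideal.span (Set.range f') = cI s G e ⊔ Ideal.span {cw0 s} := by
    rw [cI, ← Ideal.span_union]
    congr 1
    ext x
    constructor
    · rintro ⟨_ | k, rfl⟩
      · exact Or.inr rfl
      · exact Or.inl ⟨k, rfl⟩
    · rintro (⟨k, rfl⟩ | rfl)
      · exact ⟨some k, rfl⟩
      · exact ⟨none, rfl⟩
  rw [h3] at h2
  have h4 : P (aff R (CR s G e ⧸ Ideal.span {cwe s G e})) := by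
    have E := (DoubleQuot.quotQuotEquivQuotSupₐ R (cI s G e) (Ideal.span {cw0 s})).symm
    have h5 := iso_alg (B := CR s G e ⧸ Ideal.map (Ideal.Quotient.mkₐ R (cI s G e))
      (Ideal.span {cw0 s})) hP E h2
    have h6 : Ideal.map (Ideal.Quotient.mkₐ R (cI s G e)) (Ideal.span {cw0 s}) =
        Ideal.span {cwe s G e} := by
      rw [Ideal.map_span, Set.image_singleton]
      rfl
    rw [← h6]
    exact h5
  have h5 := away_of_quot hP (cwe s G e) hA h4
  obtain ⟨E⟩ := cone_iso s G e he
  have h6 : Algebra.FiniteType R (Localization.Away (cwe s G e)) := ft_away _ _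
  have h7 := ft_laurent (R := R) (MvPolynomial (Fin n) R ⧸
    Ideal.span (G : Set (MvPolynomial (Fin n) R)))
  exact hP.torus _ (hP.torus _ (iso_alg hP E h5))

/-- **The threshold.** Let `R` be noetherian. The property `P` is true for all closed subschemes of
`𝔸^n` if and only if it is true for all hypersurfaces `t(x, y, z) = 1`, `t` a trilinear form over
`R`, where `x` and `y` are arbitrary and `z` consists of `n + 1` variables. -/
theorem threshold [IsNoetherianRing R] (hP : UniB sep P) (n : ℕ) : List.TFAE [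
    ∀ I : Ideal (MvPolynomial (Fin n) R), P (aff R (MvPolynomial (Fin n) R ⧸ I)),
    ∀ (a b : ℕ) (T : Fin a → Fin b → Fin (n + 1) → R), P (hypS T),
    ∀ (a b c : ℕ), c ≤ n + 1 → ∀ T : Fin a → Fin b → Fin c → R, P (hypS T)] := by
  tfae_have 1 → 3 := fun h a b c hc T => hyp_of_closed hP h hc T
  tfae_have 3 → 2 := fun h a b T => h a b (n + 1) le_rfl T
  tfae_have 2 → 1 := fun h I => closed_of_hyp hP.toUni (S := Set.univ) trivial trivial
    (has_all trivial trivial has_const) (fun a b T _ => h a b T) I
  tfae_finish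

/-- The threshold over the quotients of `ℤ`: it is enough to consider the forms with coefficients
`0` and `1`, that is tripartite hypergraphs one of whose parts has `n + 1` vertices. -/
theorem threshold_int [IsNoetherianRing R] (hR : Function.Surjective (Int.cast : ℤ → R))
    (hP : UniB sep P) (n : ℕ) : List.TFAE [
    ∀ I : Ideal (MvPolynomial (Fin n) R), P (aff R (MvPolynomial (Fin n) R ⧸ I)),
    ∀ (a b : ℕ) (H : Finset (Fin a × Fin b × Fin (n + 1))), P (tripS R H),
    ∀ (a b c : ℕ), c ≤ n + 1 → ∀ T : Fin a → Fin b → Fin c → R, P (hypS T)] := by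
  classical
  tfae_have 1 → 3 := fun h a b c hc T => hyp_of_closed hP h hc T
  tfae_have 3 → 2 := by
    intro h a b H
    have h1 := h a b (n + 1) le_rfl fun i j k => if (i, j, k) ∈ H then 1 else 0
    unfold hypS at h1
    unfold tripS Trip
    rw [← tri_ind]
    exact h1
  tfae_have 2 → 1 := by
    intro h I
    refine closed_of_hyp hP.toUni (S := {0, 1}) (Or.inl rfl) (Or.inr rfl)
      (has_all (Or.inl rfl) (Or.inr rfl) (has_int (Or.inl rfl) (Or.inr rfl) hR)) ?_ I
    intro a b T hT
    let H : Finset (Fin a × Fin b × Fin (n + 1)) :=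
      Finset.univ.filter fun h => T h.1 h.2.1 h.2.2 = 1
    have h1 : T = fun i j k => if (i, j, k) ∈ H then (1 : R) else 0 := by
      funext i j k
      have hm : (i, j, k) ∈ H ↔ T i j k = 1 := by
        rw [Finset.mem_filter]
        exact ⟨fun h => h.2, fun h => ⟨Finset.mem_univ _, h⟩⟩
      by_cases h : T i j k = 1
      · rw [if_pos (hm.mpr h), h]
      · rw [if_neg fun h2 => h (hm.mp h2)]
        rcases hT i j k with h2 | h2
        · exact h2
        · exact absurd h2 h
    have h2 := h a b H
    unfold tripS Trip at h2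
    rw [← tri_ind, ← h1] at h2
    exact h2
  tfae_finish

/-- All closed subschemes of all affine spaces: all schemes. -/
theorem all_of_closed (hP : Uni sep P)
    (h : ∀ (n : ℕ) (I : Ideal (MvPolynomial (Fin n) R)), P (aff R (MvPolynomial (Fin n) R ⧸ I)))
    (X : Sch R) (hX : FT sep X) : P X := by
  refine of_affine hP (fun A _ _ _ => ?_) X hX
  obtain ⟨n, φ, hs⟩ := Algebra.FiniteType.iff_quotient_mvPolynomial''.mp
    (inferInstance : Algebra.FiniteType R A)
  exact iso_alg hP (Ideal.quotientKerAlgEquivOfSurjective (f := φ) hs) (h n (RingHom.ker φ))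

end Pool.Agent.Y101.Th
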