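import Pool.Agent.Z125.UN.Dim2
import Pool.Agent.Z125.UN.Sym
import Pool.Agent.Y101.Th.Main
import Pool.Agent.Y116.UV.Graph

/-!
# Dimension and blocks of variables
-/

set_option autoImplicit false

open CategoryTheory AlgebraicGeometry MvPolynomial

namespace Pool.Agent.Y101.Th

open Pool.Agent.Y116.UV Pool.Agent.Z125.UN

lemma uniB_of_bnd {R : Type} [CommRing R] {sep : Prop} {P : Sch R → Prop} (hP : Bnd sep P) :
    UniB sep P where
  toUni := hP.toUni
  bundle := hP.bundle

variable {k : Type} [Field k] {P : Sch k → Prop}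

/-- All schemes of dimension at most `n` if and only if all forms with a block of at most `n + 2`
variables. -/
theorem gen_dim [PerfectField k] (hP : Bnd True P) (n : ℕ) :
    (∀ X : Sch k, FT True X → topologicalKrullDim X.left ≤ n → P X) ↔
      ∀ (a b c : ℕ) (t : Fin a → Fin b → Fin c → k), (a ≤ n + 2 ∨ b ≤ n + 2 ∨ c ≤ n + 2) →
        P (hypS t) := by
  constructor
  · intro h a b c t hm
    have h2 : ∀ I : Ideal (MvPolynomial (Fin (n + 1)) k),
        P (aff k (MvPolynomial (Fin (n + 1)) k ⧸ I)) :=
      dim_to_closed hP fun A _ _ _ hA => h _ (ft_aff True) (by rw [topDim_aff]; exact hA)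
    exact of_block hP (fun a b c' hc' t => to_tri hP h2 a b c' hc' t) t hm
  · intro h
    exact (dim_tri hP n).mpr fun a b t => h a b (n + 2) t (Or.inr (Or.inr le_rfl))

/-- All schemes of dimension at most `n` if and only if all tripartite hypergraphs whose third part
has `n + 2` vertices, over a prime field. -/
theorem gen_prime [PerfectField k] (hk : Function.Surjective (Int.cast : ℤ → k))
    (hP : Bnd True P) (n : ℕ) :
    (∀ X : Sch k, FT True X → topologicalKrullDim X.left ≤ n → P X) ↔
      ∀ (a b : ℕ) (H : Finset (Fin a × Fin b × Fin (n + 2))), P (tripS k H) := by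
  have h1 := dim_tri hP n
  have h2 := (threshold (uniB_of_bnd hP) (n + 1)).out 0 1
  have h3 := (threshold_int hk (uniB_of_bnd hP) (n + 1)).out 0 1
  rw [h1]
  exact h2.symm.trans h3

/-- All schemes if and only if all forms. -/
theorem gen_all (hP : Uni True P) : (∀ X : Sch k, FT True X → P X) ↔
    ∀ (a b c : ℕ) (t : Fin a → Fin b → Fin c → k), P (hypS t) := by
  constructor
  · intro h a b c t
    exact h _ (ft_aff True)
  · intro h X hX
    exact universal hP (S := Set.univ) trivial trivial (fun a b c t _ => h a b c t)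
      presents_univ X hX

/-- Curves. -/
theorem gen_curves [PerfectField k] (hP : Bnd True P)
    (h : ∀ X : Sch k, FT True X → topologicalKrullDim X.left ≤ 1 → P X)
    (a b c : ℕ) (t : Fin a → Fin b → Fin c → k) (hm : a ≤ 3 ∨ b ≤ 3 ∨ c ≤ 3) : P (hypS t) :=
  (gen_dim hP 1).mp (fun X hX hd => h X hX (by exact_mod_cast hd)) a b c t hm

end Pool.Agent.Y101.Th
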