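import Pool.Agent.Y101.Th.RBase
import Pool.Agent.Z125.UN.Prime

/-!
# Bilinear equations with coefficients zero and one over rings of fractions
-/

set_option autoImplicit false

open CategoryTheory AlgebraicGeometry MvPolynomial

namespace Pool.Agent.Y101.Th.RX

open Pool.Agent.Y116.UV Pool.Agent.Y101.Th Pool.Agent.Z125.UN

variable {R : Type} [CommRing R] {sep : Prop} {P : Sch R → Prop} {S : Set R}

/-- a system in which the elements of a finite set of polynomials occur -/
theorem exists_sys' {n : ℕ} (h0 : (0 : R) ∈ S) (G : Finset (MvPolynomial (Fin n) R))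
    (h : ∀ p ∈ G, Has S p) : ∃ s : Sy S n, ∀ g ∈ G, ∃ e, s.F e = g := by
  classical
  induction G using Finset.induction_on with
  | empty => exact ⟨Sy.empty S n, fun g hg => absurd hg (Finset.notMem_empty g)⟩
  | insert p G _ ih =>
    obtain ⟨s, hs⟩ := ih fun q hq => h q (Finset.mem_insert_of_mem hq)
    obtain ⟨t, e, he⟩ := h p (Finset.mem_insert_self _ _)
    refine ⟨Sy.union h0 s t, fun g hg => ?_⟩
    rcases Finset.mem_insert.mp hg with rfl | hg
    · exact ⟨Sum.inr e, he⟩
    · obtain ⟨e', he'⟩ := hs g hg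
      exact ⟨Sum.inl e', he'⟩

/-- If `P` is true for all systems of bilinear equations in variables `y` and `z` with coefficients in
`S`, where `z` consists of `n + 1` variables, then it is true for the closed subschemes of `𝔸^n` defined
by the polynomials `G`. -/
theorem closed_of_bil_span (hP : Dn sep P) (h0 : (0 : R) ∈ S)
    (h1 : (1 : R) ∈ S) {n : ℕ} (G : Finset (MvPolynomial (Fin n) R)) (hHas : ∀ p ∈ G, Has S p)
    (hB : ∀ (a b : ℕ) (t : Fin a → Fin b → Fin (n + 1) → R), (∀ i j l, t i j l ∈ S) → P (bilS t)) :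
    P (aff R (MvPolynomial (Fin n) R ⧸ Ideal.span (G : Set (MvPolynomial (Fin n) R)))) := by
  classical
  obtain ⟨s, hs⟩ := exists_sys' h0 G hHas
  have hs' : ∀ g : G, ∃ e, s.F e = g.1 := fun g => hs g.1 g.2
  choose e he using hs'
  have hcard : Fintype.card (Option (Fin n)) = n + 1 := by simp
  have hmem : ∀ k, bil (Option s.β) (Option (Fin n)) (cT s G e k) ∈
      bilIn S (Option s.β) (Option (Fin n)) := fun k => ⟨_, fun j o => cT_mem s G e h0 h1 k j o, rfl⟩
  have hA : P (aff R (CR s G e)) := of_bilS hP hB hcard _ hmem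
  let f' : Option (s.κ ⊕ G) → MvPolynomial (Option s.β ⊕ Option (Fin n)) R := fun k =>
    k.elim (cw0 s) fun k => bil (Option s.β) (Option (Fin n)) (cT s G e k)
  have h2 : P (aff R (MvPolynomial (Option s.β ⊕ Option (Fin n)) R ⧸
      Ideal.span (Set.range f'))) := by
    apply of_bilS hP hB hcard f'
    rintro (_ | k)
    · exact single_mem h0 h1 _ _
    · exact hmem k
  have h3 : Ideal.span (Set.range f') = cI s G e ⊔ Ideal.span {cw0 s} := by
    rw [cI, ← Ideal.span_union]
    congr 1
    ext x
    constructor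
    · rintro ⟨_ | k, rfl⟩
      · exact Or.inr rfl
      · exact Or.inl ⟨k, rfl⟩
    · rintro (⟨k, rfl⟩ | rfl)
      · exact ⟨some k, rfl⟩
      · exact ⟨none, rfl⟩
  rw [h3] at h2
  have h4 : P (aff R (CR s G e ⧸ Ideal.span {cwe s G e})) := by
    have E := (DoubleQuot.quotQuotEquivQuotSupₐ R (cI s G e) (Ideal.span {cw0 s})).symm
    have h5 := dn_alg (B := CR s G e ⧸ Ideal.map (Ideal.Quotient.mkₐ R (cI s G e))
      (Ideal.span {cw0 s})) hP E h2
    have h6 : Ideal.map (Ideal.Quotient.mkₐ R (cI s G e)) (Ideal.span {cw0 s}) =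
        Ideal.span {cwe s G e} := by
      rw [Ideal.map_span, Set.image_singleton]
      rfl
    rw [← h6]
    exact h5
  have h5 : P (aff R (Localization.Away (cwe s G e))) :=
    hP.opened _ _ (ft_aff sep) (triple_away (cwe s G e)) h4 hA
  obtain ⟨E⟩ := cone_iso s G e he
  have h6 : Algebra.FiniteType R (Localization.Away (cwe s G e)) := ft_away _ _
  have h7 := ft_laurent (R := R) (MvPolynomial (Fin n) R ⧸
    Ideal.span (G : Set (MvPolynomial (Fin n) R)))
  exact hP.torus _ (hP.torus _ (dn_alg hP E h5))

section frac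

variable {n : ℕ} (h0 : (0 : R) ∈ S) (h1 : (1 : R) ∈ S)

include h0 h1

lemma has_intc (m : ℤ) : Has S (C (m : R) : MvPolynomial (Fin n) R) := by
  have hz : Has S (0 : MvPolynomial (Fin n) R) := by
    have h := has_add h0 h1 (has_one (n := n) h0 h1) (has_neg h0 h1 (has_one h0 h1))
    rw [add_neg_cancel] at h
    exact h
  induction m using Int.induction_on with
  | zero =>
    rw [Int.cast_zero, map_zero]
    exact hz
  | succ m ih =>
    have h := has_add h0 h1 ih (has_one h0 h1)
    push_cast at h ⊢
    rw [map_add, map_one]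
    exact h
  | pred m ih =>
    have h := has_add h0 h1 ih (has_neg h0 h1 (has_one h0 h1))
    have e : (C (((-(m : ℤ) - 1 : ℤ)) : R) : MvPolynomial (Fin n) R) =
        C (((-(m : ℤ) : ℤ)) : R) + -1 := by
      rw [Int.cast_sub, Int.cast_one, map_sub, map_one, sub_eq_add_neg]
    rw [e]
    exact h

/-- polynomials with integral coefficients -/
theorem has_coeff (p : MvPolynomial (Fin n) R) (h : ∀ m, ∃ w : ℤ, (w : R) = coeff m p) :
    Has S p := by
  classical
  have hmon : ∀ (s : Fin n →₀ ℕ) (a : R), (∃ w : ℤ, (w : R) = a) →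
      Has S (monomial s a : MvPolynomial (Fin n) R) := by
    intro s a
    rintro ⟨w, rfl⟩
    induction s using Finsupp.induction with
    | zero => exact has_intc h0 h1 w
    | single_add i b s _ _ ih =>
      have key : ∀ b : ℕ, Has S (monomial (Finsupp.single i b + s) (w : R) :
          MvPolynomial (Fin n) R) := by
        intro b
        induction b with
        | zero =>
          rw [Finsupp.single_zero, zero_add]
          exact ih
        | succ b ihb =>
          have h2 : (monomial (Finsupp.single i (b + 1) + s) (w : R) : MvPolynomial (Fin n) R) =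
              monomial (Finsupp.single i b + s) (w : R) * X i := by
            rw [X, monomial_mul, mul_one, Finsupp.single_add, add_right_comm]
          rw [h2]
          exact has_X h0 h1 ihb i
      exact key b
  rw [p.as_sum]
  refine Finset.sum_induction _ (fun q => Has S q) (fun _ _ => has_add h0 h1) ?_ fun m _ => ?_
  · have h2 := has_intc (n := n) h0 h1 0
    rw [Int.cast_zero, map_zero] at h2
    exact h2
  · exact hmon m _ (h m)

/-- Over a noetherian ring of fractions of integers: coefficients zero and one are sufficient. -/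
theorem closed_of_bil_frac [IsNoetherianRing R] (hR : IsFrac R) (hP : Dn sep P)
    (hB : ∀ (a b : ℕ) (t : Fin a → Fin b → Fin (n + 1) → R), (∀ i j l, t i j l ∈ S) → P (bilS t))
    (I : Ideal (MvPolynomial (Fin n) R)) : P (aff R (MvPolynomial (Fin n) R ⧸ I)) := by
  classical
  obtain ⟨G0, rfl⟩ := (isNoetherianRing_iff_ideal_fg _).mp
    (inferInstance : IsNoetherianRing (MvPolynomial (Fin n) R)) I
  choose u hu w0 hw0 using fun g : MvPolynomial (Fin n) R => frac_scale hR g
  let G : Finset (MvPolynomial (Fin n) R) := G0.image fun g => C (u g) * g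
  have hK : Ideal.span (G0 : Set (MvPolynomial (Fin n) R)) =
      Ideal.span (G : Set (MvPolynomial (Fin n) R)) := by
    apply le_antisymm
    · rw [Ideal.span_le]
      intro g hg
      obtain ⟨v, hv⟩ := (hu g).exists_left_inv
      have h1 : g = C v * (C (u g) * g) := by
        rw [← mul_assoc, ← C_mul, hv, C_1, one_mul]
      have h2 : C (u g) * g ∈ Ideal.span (G : Set (MvPolynomial (Fin n) R)) :=
        Ideal.subset_span (Finset.mem_coe.mpr (Finset.mem_image_of_mem _ hg))
      have h3 := Ideal.mul_mem_left _ (C v) h2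
      rw [← h1] at h3
      exact h3
    · rw [Ideal.span_le]
      intro g hg
      obtain ⟨g', hg', rfl⟩ := Finset.mem_image.mp (Finset.mem_coe.mp hg)
      exact Ideal.mul_mem_left _ _ (Ideal.subset_span hg')
  rw [hK]
  refine closed_of_bil_span hP h0 h1 G (fun p hp => has_coeff h0 h1 p fun m => ?_) hB
  obtain ⟨g', hg', rfl⟩ := Finset.mem_image.mp hp
  exact ⟨w0 g' m, hw0 g' m⟩

end frac

/-- a ring whose elements are integers -/
lemma isFrac_of_surj (hR : Function.Surjective (Int.cast : ℤ → R)) : IsFrac R := by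
  intro x
  obtain ⟨n, rfl⟩ := hR x
  exact ⟨1, n, by rw [Int.cast_one]; exact isUnit_one, by rw [Int.cast_one, one_mul]⟩

lemma isFrac_rat : IsFrac ℚ := by
  intro x
  refine ⟨x.den, x.num, ?_, ?_⟩
  · rw [isUnit_iff_ne_zero]
    exact_mod_cast x.den_ne_zero
  · rw [mul_comm]
    exact_mod_cast Rat.mul_den_eq_num x

/-- From closed subschemes of `𝔸^n` to bilinear equations. -/
theorem bil_of_closed (hP : RU sep P) {n : ℕ}
    (h : ∀ I : Ideal (MvPolynomial (Fin n) R), P (aff R (MvPolynomial (Fin n) R ⧸ I)))
    {a b c : ℕ} (hc : c ≤ n + 1) (t : Fin a → Fin b → Fin c → R) : P (bilS t) :=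
  r_bilinear hP (r_good hP h) c hc (Fin b) (Fin c) (Fin a) (Fintype.card_fin c) t

/-- **The threshold for bilinear equations.** -/
theorem r_threshold [IsNoetherianRing R] (hP : RU sep P) (n : ℕ) : List.TFAE [
    ∀ I : Ideal (MvPolynomial (Fin n) R), P (aff R (MvPolynomial (Fin n) R ⧸ I)),
    ∀ (a b : ℕ) (t : Fin a → Fin b → Fin (n + 1) → R), P (bilS t),
    ∀ (a b c : ℕ), c ≤ n + 1 → ∀ t : Fin a → Fin b → Fin c → R, P (bilS t)] := by
  tfae_have 1 → 3 := fun h a b c hc t => bil_of_closed hP h hc t
  tfae_have 3 → 2 := fun h a b t => h a b (n + 1) le_rfl t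
  tfae_have 2 → 1 := fun h I => closed_of_bil hP.dn (S := Set.univ) trivial trivial
    (has_all trivial trivial has_const) (fun a b t _ => h a b t) I
  tfae_finish

/-- The threshold with coefficients zero and one. -/
theorem r_threshold_frac [IsNoetherianRing R] (hR : IsFrac R) (hP : RU sep P) (n : ℕ) :
    (∀ I : Ideal (MvPolynomial (Fin n) R), P (aff R (MvPolynomial (Fin n) R ⧸ I))) ↔
    ∀ (a b : ℕ) (t : Fin a → Fin b → Fin (n + 1) → R), (∀ i j l, t i j l = 0 ∨ t i j l = 1) →
      P (bilS t) :=
  ⟨fun h a b t _ => bil_of_closed hP h le_rfl t, fun h I =>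
    closed_of_bil_frac (S := {0, 1}) (Or.inl rfl) (Or.inr rfl) hR hP.dn (fun a b t ht => h a b t ht) I⟩

section field

variable {k : Type} [Field k] {Q : Sch k → Prop}

/-- All schemes of dimension at most `n` if and only if all systems of bilinear equations with
`n + 2` variables `z`. -/
theorem r_dim [PerfectField k] (hQ : RU sep Q) (n : ℕ) :
    (∀ X : Sch k, FT sep X → topologicalKrullDim X.left ≤ n → Q X) ↔
      ∀ (a b c : ℕ) (t : Fin a → Fin b → Fin c → k), c ≤ n + 2 → Q (bilS t) := by
  constructor
  · intro h a b c t hc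
    refine bil_of_closed hQ (n := n + 1) (r_dim_to_closed hQ fun A _ _ _ hA => ?_) hc t
    exact h _ (ft_aff sep) (by rw [topDim_aff]; exact hA)
  · intro h X hX hd
    refine r_of_affine_dim hQ (r_closed_to_dim hQ ?_) X hX hd
    exact ((r_threshold hQ (n + 1)).out 0 1).mpr fun a b t => h a b (n + 2) t le_rfl

/-- The same with coefficients zero and one. -/
theorem r_dim_frac [PerfectField k] (hk : IsFrac k) (hQ : RU sep Q) (n : ℕ) :
    (∀ X : Sch k, FT sep X → topologicalKrullDim X.left ≤ n → Q X) ↔
      ∀ (a b : ℕ) (t : Fin a → Fin b → Fin (n + 2) → k), (∀ i j l, t i j l = 0 ∨ t i j l = 1) →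
        Q (bilS t) := by
  constructor
  · intro h a b t _
    refine bil_of_closed hQ (n := n + 1) (r_dim_to_closed hQ fun A _ _ _ hA => ?_) le_rfl t
    exact h _ (ft_aff sep) (by rw [topDim_aff]; exact hA)
  · intro h X hX hd
    refine r_of_affine_dim hQ (r_closed_to_dim hQ ?_) X hX hd
    exact (r_threshold_frac hk hQ (n + 1)).mpr h

end field

/-- All affine schemes are sufficient. -/
theorem r_of_affine (hP : RU sep P)
    (h : ∀ (A : Type) [CommRing A] [Algebra R A] [Algebra.FiniteType R A], P (aff R A))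
    (X : Sch R) (hX : FT sep X) : P X :=
  of_affine' (P := P) (sep := sep) (fun hX e h => hP.iso hX e h)
    (fun i j hX ht hZ hU => hP.total i j hX ht hZ hU) h X hX

/-- All schemes if and only if all bilinear equations. -/
theorem r_all [IsNoetherianRing R] (hP : RU sep P) : (∀ X : Sch R, FT sep X → P X) ↔
    ∀ (a b c : ℕ) (t : Fin a → Fin b → Fin c → R), P (bilS t) := by
  constructor
  · intro h a b c t
    exact h _ (ft_aff sep)
  · intro h X hX
    refine r_of_affine hP (fun A _ _ _ => ?_) X hX
    obtain ⟨n, φ, hs⟩ := Algebra.FiniteType.iff_quotient_mvPolynomial''.mp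
      (inferInstance : Algebra.FiniteType R A)
    have h1 : ∀ I : Ideal (MvPolynomial (Fin n) R), P (aff R (MvPolynomial (Fin n) R ⧸ I)) :=
      ((r_threshold hP n).out 0 1).mpr (fun a b t => h a b (n + 1) t)
    exact r_iso hP (Ideal.quotientKerAlgEquivOfSurjective (f := φ) hs) (h1 (RingHom.ker φ))

/-- All schemes if and only if all bilinear equations with coefficients zero and one. -/
theorem r_all_frac [IsNoetherianRing R] (hR : IsFrac R) (hP : RU sep P) :
    (∀ X : Sch R, FT sep X → P X) ↔
    ∀ (a b c : ℕ) (t : Fin a → Fin b → Fin c → R), (∀ i j l, t i j l = 0 ∨ t i j l = 1) →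
      P (bilS t) := by
  constructor
  · intro h a b c t _
    exact h _ (ft_aff sep)
  · intro h X hX
    refine r_of_affine hP (fun A _ _ _ => ?_) X hX
    obtain ⟨n, φ, hs⟩ := Algebra.FiniteType.iff_quotient_mvPolynomial''.mp
      (inferInstance : Algebra.FiniteType R A)
    exact r_iso hP (Ideal.quotientKerAlgEquivOfSurjective (f := φ) hs)
      ((r_threshold_frac hR hP n).mpr (fun a b t => h a b (n + 1) t) (RingHom.ker φ))

end Pool.Agent.Y101.Th.RX
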