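import Pool.Agent.Y101.Th.AddDefs
import Pool.Agent.Y691.TU.Main

/-!
# Additive invariants
-/

set_option autoImplicit false

open CategoryTheory AlgebraicGeometry MvPolynomial

namespace Pool.Agent.Y101.Th

open Pool.Agent.Y116.UV Pool.Agent.Z125.UN

/-- Additive invariants with values in a group. -/
structure IsAdd {k : Type} [Field k] {M : Type} [AddCommGroup M] (e : Sch k → ℤ → M) : Prop where
  iso : ∀ {X Y : Sch k}, FT True X → Nonempty (X ≅ Y) → ∀ j, e X j = e Y j
  additive : ∀ {Z X U : Sch k} (f : Z ⟶ X) (g : U ⟶ X), FT True X → IsTriple f g → ∀ j,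
    e X j = e Z j + e U j
  bundle : ∀ (A : Type) [CommRing A] [Algebra k A] [Algebra.FiniteType k A] (m : ℕ)
    (f : Fin m → A) (U : Sch k) (g : U ⟶ aff k A), IsOpenImmersion g.left →
    Set.range g.left = {x : PrimeSpectrum A | ∃ l, f l ∉ x.asIdeal} → ∀ j,
    e (aff k (Jou f)) (j + (m - 1 : ℕ)) = e U j
  point : ∀ j, e (aff k k) j = 0
  neg : ∀ X, FT True X → ∀ j < 0, e X j = 0

variable {k : Type} [Field k] {M : Type} [AddCommGroup M] {e : Sch k → ℤ → M}

lemma IsAdd.alg (h : IsAdd e) {A B : Type} [CommRing A] [CommRing B] [Algebra k A] [Algebra k B]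
    [Algebra.FiniteType k A] (i : A ≃ₐ[k] B) (j : ℤ) : e (aff k A) j = e (aff k B) j :=
  h.iso (ft_aff True) ⟨affIso i.symm⟩ j

lemma IsAdd.mv (h : IsAdd e) (A : Type) [CommRing A] [Algebra k A] [Algebra.FiniteType k A]
    (n : ℕ) (j : ℤ) : e (aff k (MvPolynomial (Fin n) A)) (j + n) = e (aff k A) j := by
  have h1 := h.bundle A (n + 1) (f1 A n) (aff k A) (𝟙 _) (isOpen_id A) (range_id_alg A n) j
  have h2 : ((n + 1 - 1 : ℕ) : ℤ) = n := by simp
  rw [h2] at h1
  rw [← h1]
  have : Algebra.FiniteType k (MvPolynomial (Fin n) A) := ft_mv (R := k) A (Fin n)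
  exact h.alg ((jouOne A n).symm.restrictScalars k) _

lemma IsAdd.poly (h : IsAdd e) (A : Type) [CommRing A] [Algebra k A] [Algebra.FiniteType k A]
    (j : ℤ) : e (aff k (Polynomial A)) (j + 1) = e (aff k A) j := by
  rw [← h.mv A 1 j]
  have : Algebra.FiniteType k (MvPolynomial (Fin 1) A) := ft_mv (R := k) A (Fin 1)
  have : Algebra.FiniteType k (MvPolynomial PUnit A) :=
    Algebra.FiniteType.trans (S := A) inferInstance inferInstance
  have h1 := h.alg ((MvPolynomial.uniqueAlgEquiv A PUnit).restrictScalars k) (j + 1)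
  rw [← h1]
  exact h.alg ((renameEquiv A (Equiv.equivPUnit (Fin 1)).symm).restrictScalars k) (j + 1)

lemma IsAdd.laurent (h : IsAdd e) (A : Type) [CommRing A] [Algebra k A] [Algebra.FiniteType k A]
    (j : ℤ) : e (aff k A) j = e (aff k A) (j + 1) + e (aff k (LaurentPolynomial A)) (j + 1) := by
  have : Algebra.FiniteType k (Localization.Away (Polynomial.X : Polynomial A)) :=
    Algebra.FiniteType.trans (S := Polynomial A) inferInstance inferInstance
  have h1 := h.additive _ _ (ft_aff True) (triple_away (Polynomial.X : Polynomial A)) (j + 1)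
  rw [h.poly A j] at h1
  rw [h1]
  congr 1
  · have e1 : (Polynomial A ⧸ Ideal.span {(Polynomial.X : Polynomial A)}) ≃ₐ[A] A := by
      have e1 := Polynomial.quotientSpanXSubCAlgEquiv (0 : A)
      rw [map_zero, sub_zero] at e1
      exact e1
    exact h.alg (e1.restrictScalars k) _
  · have e1 := IsLocalization.algEquiv (Submonoid.powers (Polynomial.X : Polynomial A))
      (Localization.Away (Polynomial.X : Polynomial A)) (LaurentPolynomial A)
    exact h.alg (e1.restrictScalars k) _

lemma IsAdd.space (h : IsAdd e) (n : ℕ) (j : ℤ) : e (aff k (MvPolynomial (Fin n) k)) j = 0 := by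
  have h1 := h.mv k n (j - n)
  rw [sub_add_cancel] at h1
  rw [h1]
  exact h.point _

/-- The vanishing of an additive invariant. -/
theorem bnd_add (h : IsAdd e) : Bnd True (fun X : Sch k => ∀ j, e X j = 0) where
  iso hX hi hP j := by rw [← h.iso hX hi j]; exact hP j
  total f g hX ht hZ hU j := by rw [h.additive f g hX ht j, hZ j, hU j, add_zero]
  opened f g hX ht hZ hX' j := by
    have := h.additive f g hX ht j
    rw [hZ j, hX' j, zero_add] at this
    exact this.symm
  closed f g hX ht hX' hU j := by
    have := h.additive f g hX ht j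
    rw [hU j, hX' j, add_zero] at this
    exact this.symm
  space n j := h.space n j
  jouanolou A _ _ _ m f U g hg hr hP j := by
    rw [← h.bundle A m f U g hg hr j]
    exact hP _
  torus A _ _ _ hP j := by
    have h1 : ∀ j, e (aff k A) (j + 1) = e (aff k A) j := by
      intro j
      rw [h.laurent A j, hP, add_zero]
    have h2 : ∀ n : ℕ, e (aff k A) (-1 + n) = 0 := by
      intro n
      induction n with
      | zero => exact h.neg _ (ft_aff True) _ (by simp)
      | succ n ih =>
        have := h1 (-1 + n)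
        rw [ih] at this
        rw [← this]
        congr 1
        push_cast
        ring
    rcases lt_or_ge j 0 with hj | hj
    · exact h.neg _ (ft_aff True) _ hj
    · obtain ⟨n, hn⟩ := Int.eq_ofNat_of_zero_le (show 0 ≤ j + 1 by omega)
      have h3 := h2 n
      rw [show (-1 + (n : ℤ)) = j by omega] at h3
      exact h3
  bundle A _ _ _ m f U g hg hr hP j := by
    have h1 := h.bundle A m f U g hg hr (j - (m - 1 : ℕ))
    rw [sub_add_cancel] at h1
    rw [h1]
    exact hP _

end Pool.Agent.Y101.Th
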