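import Pool.Agent.Y691.TU.Defs

/-!
# Averages of traces of Frobenius: definitions
-/

set_option autoImplicit false

open CategoryTheory AlgebraicGeometry NumberField IsDedekindDomain Filter Topology

namespace Pool.Agent.Y101.Th

open Pool.Agent.Y116.UV

/-- `x⁻¹ ∑ f(v) log N(v)`, the sum over the primes `v` of the number field `k` with `N(v) ≤ x`. -/
noncomputable def avg {k : Type} [Field k] [NumberField k] (f : HeightOneSpectrum (𝓞 k) → ℝ)
    (x : ℝ) : ℝ :=
  x⁻¹ * ∑ᶠ v ∈ {v : HeightOneSpectrum (𝓞 k) | (Ideal.absNorm v.asIdeal : ℝ) ≤ x},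
    f v * Real.log (Ideal.absNorm v.asIdeal)

/-- Data for the schemes `X` over the number field `k`: for a prime `v`, the number
`b X j v = q^(-j) ∑_i (-1)^i Tr(Frob_v | (gr^W_{2 j} H^i_c(X, ℚ_ℓ))^I)`, where `q` is the norm of `v`
and `I` an inertia group (for `X` smooth and projective the trace on `H^(2 j)(X, ℚ_ℓ)^I`, divided by
`q^j`); and the integer `rk X j`, the multiplicity of the motive `ℚ(-j)` in the class
of `X` in the Grothendieck group of numerical motives (for `X` smooth and projective the rank of the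
group of cycles of codimension `j` modulo numerical equivalence). -/
structure TraceData (k : Type) [Field k] [NumberField k] where
  b : Sch k → ℤ → HeightOneSpectrum (𝓞 k) → ℝ
  rk : Sch k → ℤ → ℤ

variable {k : Type} [Field k] [NumberField k]

/-- The averages of the traces in weight `2 j` are the rank: for `X` smooth and projective this is
Tate's conjecture in Tauberian form for the cycles of codimension `j`, and the original form for
`j = 1`. -/
def Tauberian (T : TraceData k) (X : Sch k) (j : ℤ) : Prop :=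
  Tendsto (avg (T.b X j)) atTop (𝓝 (T.rk X j))

/-- Known properties, where `=ᶠ[cofinite]` is equality for all but finitely many primes: isomorphic
schemes have the same numbers; they are additive for a closed subscheme and its complement
(`additive`); those of the affine bundle `Spec A[w_1, …, w_m] / (∑ f_l w_l - 1) → U` with fibre
`𝔸^(m-1)`, where `U` is the complement of `f = 0` in `Spec A`, are those of `U` with `j` shifted by
`m - 1` (`bundle`); a point (`point_b`, `point_rk`); there is nothing for `j < 0` (`neg_b`, `neg_rk`);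
the prime ideal theorem (`prime`). -/
structure IsTraceData (T : TraceData k) : Prop where
  iso_b : ∀ {X Y : Sch k}, FT True X → Nonempty (X ≅ Y) → ∀ j, T.b X j =ᶠ[cofinite] T.b Y j
  iso_rk : ∀ {X Y : Sch k}, FT True X → Nonempty (X ≅ Y) → ∀ j, T.rk X j = T.rk Y j
  additive_b : ∀ {Z X U : Sch k} (f : Z ⟶ X) (g : U ⟶ X), FT True X → IsTriple f g → ∀ j,
    T.b X j =ᶠ[cofinite] T.b Z j + T.b U j
  additive_rk : ∀ {Z X U : Sch k} (f : Z ⟶ X) (g : U ⟶ X), FT True X → IsTriple f g → ∀ j,
    T.rk X j = T.rk Z j + T.rk U j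
  bundle_b : ∀ (A : Type) [CommRing A] [Algebra k A] [Algebra.FiniteType k A] (m : ℕ)
    (f : Fin m → A) (U : Sch k) (g : U ⟶ aff k A), IsOpenImmersion g.left →
    Set.range g.left = {x : PrimeSpectrum A | ∃ l, f l ∉ x.asIdeal} → ∀ j,
    T.b (aff k (Jou f)) (j + (m - 1 : ℕ)) =ᶠ[cofinite] T.b U j
  bundle_rk : ∀ (A : Type) [CommRing A] [Algebra k A] [Algebra.FiniteType k A] (m : ℕ)
    (f : Fin m → A) (U : Sch k) (g : U ⟶ aff k A), IsOpenImmersion g.left →
    Set.range g.left = {x : PrimeSpectrum A | ∃ l, f l ∉ x.asIdeal} → ∀ j,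
    T.rk (aff k (Jou f)) (j + (m - 1 : ℕ)) = T.rk U j
  point_b : T.b (aff k k) 0 =ᶠ[cofinite] 1 ∧ ∀ j ≠ 0, T.b (aff k k) j =ᶠ[cofinite] 0
  point_rk : T.rk (aff k k) 0 = 1 ∧ ∀ j ≠ 0, T.rk (aff k k) j = 0
  neg_b : ∀ X, FT True X → ∀ j < 0, T.b X j =ᶠ[cofinite] 0
  neg_rk : ∀ X, FT True X → ∀ j < 0, T.rk X j = 0
  prime : Tendsto (avg (k := k) 1) atTop (𝓝 1)

end Pool.Agent.Y101.Th
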