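import Pool.Agent.Y116.UV.Main
import Pool.Agent.Y116.UV.Space

/-!
# Properties that are also invariant under affine bundles: polynomial and Laurent polynomial rings
-/

set_option autoImplicit false

open CategoryTheory AlgebraicGeometry MvPolynomial

namespace Pool.Agent.Y101.Th

open Pool.Agent.Y116.UV

/-- The property `P` satisfies the conditions of `Uni` and it is true for the affine bundles
`Spec A[w] / (∑ f_l w_l - 1)` over the open complement `U` of `f = 0` if it is true for `U`. -/
structure UniB {R : Type} [CommRing R] (sep : Prop) (P : Sch R → Prop) : Prop extends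
    Uni sep P where
  bundle : ∀ (A : Type) [CommRing A] [Algebra R A] [Algebra.FiniteType R A] (m : ℕ)
    (f : Fin m → A) (U : Sch R) (j : U ⟶ aff R A), IsOpenImmersion j.left →
    Set.range j.left = {x : PrimeSpectrum A | ∃ l, f l ∉ x.asIdeal} → P U → P (aff R (Jou f))

variable {R : Type} [CommRing R] {sep : Prop} {P : Sch R → Prop}

lemma range_id_alg (A : Type) [CommRing A] [Algebra R A] (n : ℕ) :
    Set.range (𝟙 (aff R A) : aff R A ⟶ aff R A).left =
    {x : PrimeSpectrum A | ∃ l, f1 A n l ∉ x.asIdeal} := by
  have h1 : Set.range (𝟙 (aff R A) : aff R A ⟶ aff R A).left = Set.univ := Set.range_id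
  have h2 : {x : PrimeSpectrum A | ∃ l, f1 A n l ∉ x.asIdeal} = Set.univ := by
    rw [Set.eq_univ_iff_forall]
    intro x
    exact ⟨0, fun h => x.isPrime.ne_top ((Ideal.eq_top_iff_one _).mpr h)⟩
  exact h1.trans h2.symm

lemma isOpen_id (A : Type) [CommRing A] [Algebra R A] :
    IsOpenImmersion (𝟙 (aff R A) : aff R A ⟶ aff R A).left :=
  inferInstanceAs (IsOpenImmersion (𝟙 (aff R A).left))

/-- Polynomial rings. -/
theorem poly (hP : UniB sep P) (A : Type) [CommRing A] [Algebra R A] [Algebra.FiniteType R A]
    (n : ℕ) (h : P (aff R A)) : P (aff R (MvPolynomial (Fin n) A)) := by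
  have h1 := hP.bundle A (n + 1) (f1 A n) (aff R A) (𝟙 _) (isOpen_id A) (range_id_alg A n) h
  exact iso_alg hP.toUni ((jouOne A n).restrictScalars R) h1

/-- Polynomial rings, the converse. -/
theorem poly_down (hP : UniB sep P) (A : Type) [CommRing A] [Algebra R A]
    [Algebra.FiniteType R A] (n : ℕ) (h : P (aff R (MvPolynomial (Fin n) A))) :
    P (aff R A) := by
  refine hP.jouanolou A (n + 1) (f1 A n) (aff R A) (𝟙 _) (isOpen_id A) (range_id_alg A n) ?_
  exact iso_alg hP.toUni ((jouOne A n).symm.restrictScalars R) h

/-- Polynomial rings in any finite set of variables. -/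
theorem poly' (hP : UniB sep P) (A : Type) [CommRing A] [Algebra R A] [Algebra.FiniteType R A]
    (β : Type) [Fintype β] (h : P (aff R A)) : P (aff R (MvPolynomial β A)) :=
  iso_alg hP.toUni ((renameEquiv A (Fintype.equivFin β).symm).restrictScalars R)
    (poly hP A (Fintype.card β) h)

lemma of_triple_away (hP : Uni sep P) {A : Type} [CommRing A] [Algebra R A]
    [Algebra.FiniteType R A] (w : A) (hZ : P (aff R (A ⧸ Ideal.span {w})))
    (hU : P (aff R (Localization.Away w))) : P (aff R A) :=
  hP.total _ _ (ft_aff sep) (triple_away w) hZ hU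

lemma away_of_quot (hP : Uni sep P) {A : Type} [CommRing A] [Algebra R A]
    [Algebra.FiniteType R A] (w : A) (hA : P (aff R A)) (hZ : P (aff R (A ⧸ Ideal.span {w}))) :
    P (aff R (Localization.Away w)) :=
  hP.opened _ _ (ft_aff sep) (triple_away w) hZ hA

instance tower_laurent (A : Type) [CommRing A] [Algebra R A] :
    IsScalarTower R (Polynomial A) (LaurentPolynomial A) := by
  apply IsScalarTower.of_algebraMap_eq
  intro r
  change algebraMap R (LaurentPolynomial A) r =
    Polynomial.toLaurent (Polynomial.C (algebraMap R A r))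
  rw [Polynomial.toLaurent_C]
  rfl

/-- Laurent polynomial rings. -/
theorem laurent (hP : UniB sep P) (A : Type) [CommRing A] [Algebra R A]
    [Algebra.FiniteType R A] (h : P (aff R A)) : P (aff R (LaurentPolynomial A)) := by
  have h0 : P (aff R (Polynomial A)) :=
    iso_alg hP.toUni ((MvPolynomial.uniqueAlgEquiv A PUnit).restrictScalars R) (poly' hP A PUnit h)
  have h1 : P (aff R (Polynomial A ⧸ Ideal.span {(Polynomial.X : Polynomial A)})) := by
    refine iso_alg hP.toUni ?_ h
    have e : (Polynomial A ⧸ Ideal.span {(Polynomial.X : Polynomial A)}) ≃ₐ[A] A := by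
      have e1 := Polynomial.quotientSpanXSubCAlgEquiv (0 : A)
      rw [map_zero, sub_zero] at e1
      exact e1
    exact (e.restrictScalars R).symm
  have h2 := away_of_quot hP.toUni (Polynomial.X : Polynomial A) h0 h1
  have : Algebra.FiniteType R (Localization.Away (Polynomial.X : Polynomial A)) :=
    Algebra.FiniteType.trans (S := Polynomial A) inferInstance inferInstance
  refine iso_alg hP.toUni ?_ h2
  have e := IsLocalization.algEquiv (Submonoid.powers (Polynomial.X : Polynomial A))
    (Localization.Away (Polynomial.X : Polynomial A)) (LaurentPolynomial A)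
  exact e.restrictScalars R

end Pool.Agent.Y101.Th
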