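import Pool.Agent.Y116.UV.TBDefs

/-!
# Cycle classes over finite fields and systems of bilinear equations: definitions
-/

set_option autoImplicit false

open CategoryTheory AlgebraicGeometry

namespace Pool.Agent.Y101.Th

open Pool.Agent.Y116.UV

open MvPolynomial in
/-- The affine scheme of the solutions `(y, z)` of the bilinear equations `∑_{j, l} t i j l y_j z_l = 0`,
`i = 1, ..., a`, in the variables `y_1, ..., y_b` and `z_1, ..., z_c`. -/
noncomputable def bilS {R : Type} [CommRing R] {a b c : ℕ} (t : Fin a → Fin b → Fin c → R) : Sch R :=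
  aff R (MvPolynomial (Fin b ⊕ Fin c) R ⧸ Ideal.span (Set.range fun i =>
    ∑ j, ∑ l, C (t i j l) * X (Sum.inl j) * X (Sum.inr l)))

variable {k Ω : Type} [Field k] [Field Ω]

/-- The cycle class maps of `X` are bijective: for all `j`, the cycle class map from
`CH_j(X) = M X (2 j) j` (rational coefficients) to the invariants of the Frobenius in
`E X (2 j) j = H_{2 j}(X, ℚ_ℓ(j))` is, after extension of scalars, surjective and injective. -/
def CycIso (T : Homology k Ω) (X : Sch k) : Prop :=
  ∀ i j : ℤ, i = 2 * j →
    (∀ e : T.E X i j, T.frob X i j e = e → e ∈ Submodule.span Ω (Set.range (T.reg X i j))) ∧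
    ∀ (r : ℕ) (x : Fin r → T.M X i j), LinearIndependent ℚ x →
      LinearIndependent Ω fun l => T.reg X i j (x l)

/-- The eigenvalue one of the Frobenius on `H_{2 j}(X, ℚ_ℓ(j))` is semisimple, for all `j`. -/
def Semisimple (T : Homology k Ω) (X : Sch k) : Prop :=
  ∀ i j : ℤ, i = 2 * j → ∀ e : T.E X i j,
    T.frob X i j (T.frob X i j e - e) = T.frob X i j e - e → T.frob X i j e = e

/-- `e` belongs to the generalised eigenspace of the Frobenius for the eigenvalue one. -/
def IsGen (T : Homology k Ω) (X : Sch k) (i j : ℤ) (e : T.E X i j) : Prop :=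
  ∃ m : ℕ, ((T.frob X i j - 1) ^ m) e = 0

/-- The sequence `Z → X → U → 0` is exact for the groups `M` and for the generalised eigenspaces for
the eigenvalue one of the Frobenius. -/
def IsRightExact {T : Homology k Ω} {Z X U : Sch k} {i j i' j' i'' j'' : ℤ}
    (a : HHom T Z i j X i' j') (b : HHom T X i' j' U i'' j'') : Prop :=
  Function.Exact a.f b.f ∧ Function.Surjective b.f ∧
    (∀ e, IsGen T X i' j' e → b.g e = 0 → ∃ e', IsGen T Z i j e' ∧ a.g e' = e) ∧
    ∀ e, IsGen T U i'' j'' e → ∃ e', IsGen T X i' j' e' ∧ b.g e' = e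

/-- Known facts over a finite field: `CH_j(X, -1) = 0` (`motivic`); the Frobenius has no eigenvalue
one on `H_{2 j - 1}(X, ℚ_ℓ(j))` (`weights`: Deligne); each separated scheme of finite type has a
presentation by affine ones (`presentation`: take a proper surjective morphism from a quasi-projective
`X'` to `X` by Chow's lemma, and affine bundles over `X'` and `X' ×_X X'` by Jouanolou's trick; the
sequences of Kimura, and Deligne's weights with cohomological descent, are right exact); finitely many
`j`-cycles are supported on a closed subscheme `Z` of dimension at most `j`, and the generalised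
eigenspace in `H_{2 j}(Z, ℚ_ℓ(j))` is spanned by the classes of the irreducible components
(`support`). -/
structure CycKnown (T : Homology k Ω) : Prop where
  motivic : ∀ (X : Sch k) (i j : ℤ), FT True X → i = 2 * j - 1 → ∀ x : T.M X i j, x = 0
  weights : ∀ (X : Sch k) (i j : ℤ), FT True X → i = 2 * j - 1 → ∀ e : T.E X i j,
    T.frob X i j e = e → e = 0
  presentation : ∀ X : Sch k, FT True X → ∃ (A B : Type) (_ : CommRing A) (_ : CommRing B)
    (_ : Algebra k A) (_ : Algebra k B) (_ : Algebra.FiniteType k A)
    (_ : Algebra.FiniteType k B) (r s : ℤ), ∀ i j : ℤ, i = 2 * j →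
    ∃ (a : HHom T (aff k B) (i + 2 * s) (j + s) (aff k A) (i + 2 * r) (j + r))
      (b : HHom T (aff k A) (i + 2 * r) (j + r) X i j), IsRightExact a b
  support : ∀ (X : Sch k) (i j : ℤ), FT True X → i = 2 * j → ∀ (r : ℕ) (z : Fin r → T.M X i j),
    ∃ (Z U : Sch k) (a : HHom T Z i j X i j) (b : HHom T X i j U i j), FT True U ∧
      IsRightExact a b ∧ (∀ l, b.f (z l) = 0) ∧
      ∀ e, IsGen T Z i j e → e ∈ Submodule.span Ω (Set.range (T.reg Z i j))

end Pool.Agent.Y101.Th
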