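import Pool.Agent.Y101.Th.RMain

/-!
# Exchanging the variables `y` and `z`
-/

set_option autoImplicit false

open CategoryTheory AlgebraicGeometry MvPolynomial

namespace Pool.Agent.Y101.Th.RX

open Pool.Agent.Y116.UV Pool.Agent.Y101.Th

variable {R : Type} [CommRing R] {sep : Prop} {P : Sch R → Prop}

lemma bil_swap (hP : Dn sep P) {a b c : ℕ} (t : Fin a → Fin b → Fin c → R)
    (h : P (bilS fun i l j => t i j l)) : P (bilS t) := by
  unfold bilS at h
  refine dn_alg hP (Ideal.quotientEquivAlg _ _ (renameEquiv R (Equiv.sumComm _ _)) ?_) h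
  rw [Ideal.map_span]
  congr 1
  have h1 : ∀ i, renameEquiv R (Equiv.sumComm (Fin c) (Fin b))
      (∑ l, ∑ j, C (t i j l) * X (Sum.inl l) * X (Sum.inr j)) =
      ∑ j, ∑ l, C (t i j l) * X (Sum.inl j) * X (Sum.inr l) := by
    intro i
    change rename _ _ = _
    simp only [map_sum, map_mul, rename_C, rename_X, Equiv.sumComm_apply, Sum.swap_inl,
      Sum.swap_inr]
    rw [Finset.sum_comm]
    refine Finset.sum_congr rfl fun j _ => Finset.sum_congr rfl fun l _ => ?_
    ring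
  ext x
  constructor
  · rintro ⟨i, rfl⟩
    exact ⟨_, ⟨i, rfl⟩, h1 i⟩
  · rintro ⟨_, ⟨i, rfl⟩, rfl⟩
    exact ⟨i, (h1 i).symm⟩

/-- one short block of variables, of either kind -/
lemma bil_either (hP : Dn sep P) {n : ℕ}
    (h : ∀ (a b c : ℕ) (t : Fin a → Fin b → Fin c → R), c ≤ n → P (bilS t))
    {a b c : ℕ} (t : Fin a → Fin b → Fin c → R) (hm : b ≤ n ∨ c ≤ n) : P (bilS t) := by
  rcases hm with hm | hm
  · exact bil_swap hP t (h _ _ _ _ hm)
  · exact h _ _ _ _ hm

end Pool.Agent.Y101.Th.RX
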