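import Pool.Agent.Y101.Th.TateDefs
import Pool.Agent.Y101.Th.RMain

/-!
# The Tate conjecture and systems of bilinear equations
-/

set_option autoImplicit false

open CategoryTheory AlgebraicGeometry

namespace Pool.Agent.Y101.Th

open Pool.Agent.Y116.UV RX

variable {k G Ω : Type} [Field k] [Group G] [Field Ω] {T : PureHomology k G Ω}

lemma no_of_surj {X Y : Sch k} {i j : ℤ} (b : CHom T X i Y j) (hs : Function.Surjective b.h)
    (h : NoTrivial T X i (Alg T X i)) : NoTrivial T Y j (Alg T Y j) := by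
  intro A B hA hW hAB hB y hy
  obtain ⟨x, rfl⟩ := hs y
  have h1 : B.comap b.h ≤ A.comap b.h := by
    refine h _ _ ?_ ?_ ?_ ?_
    · intro g x hx
      change b.h _ ∈ A
      rw [← b.act]
      exact hA g _ hx
    · unfold Alg
      rw [Submodule.span_le]
      rintro _ ⟨z, rfl⟩
      change b.h _ ∈ A
      rw [← b.cl]
      exact hW (Submodule.subset_span ⟨_, rfl⟩)
    · exact Submodule.comap_mono hAB
    · intro g x hx
      change b.h _ ∈ A
      rw [map_sub, ← b.act]
      exact hB g _ hx
  exact h1 hy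

lemma no_ext {Z X U : Sch k} {i j l : ℤ} (a : CHom T Z i X j) (b : CHom T X j U l)
    (he : Function.Exact a.h b.h) (hs : Function.Surjective b.f)
    (hZ : NoTrivial T Z i (Alg T Z i)) (hU : NoTrivial T U l (Alg T U l)) :
    NoTrivial T X j (Alg T X j) := by
  intro A B hA hW hAB hB v hv
  have h1 : B.comap a.h ≤ A.comap a.h := by
    refine hZ _ _ ?_ ?_ (Submodule.comap_mono hAB) ?_
    · intro g x hx
      change a.h _ ∈ A
      rw [← a.act]
      exact hA g _ hx
    · unfold Alg
      rw [Submodule.span_le]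
      rintro _ ⟨z, rfl⟩
      change a.h _ ∈ A
      rw [← a.cl]
      exact hW (Submodule.subset_span ⟨_, rfl⟩)
    · intro g x hx
      change a.h _ ∈ A
      rw [map_sub, ← a.act]
      exact hB g _ hx
  have h2 : B.map b.h ≤ A.map b.h := by
    refine hU _ _ ?_ ?_ (Submodule.map_mono hAB) ?_
    · rintro g _ ⟨x, hx, rfl⟩
      exact ⟨_, hA g x hx, (b.act g x).symm⟩
    · unfold Alg
      rw [Submodule.span_le]
      rintro _ ⟨z, rfl⟩
      obtain ⟨z, rfl⟩ := hs z
      exact ⟨_, hW (Submodule.subset_span ⟨z, rfl⟩), (b.cl z).symm⟩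
    · rintro g _ ⟨x, hx, rfl⟩
      refine ⟨_, hB g x hx, ?_⟩
      rw [map_sub, b.act]
  obtain ⟨α, hα, h3⟩ := h2 ⟨v, hv, rfl⟩
  obtain ⟨w, hw⟩ := (he (v - α)).mp (by rw [map_sub, h3, sub_self])
  have h4 : w ∈ B.comap a.h := by
    change a.h w ∈ B
    rw [hw]
    exact B.sub_mem hv (hAB hα)
  have h5 : a.h w ∈ A := h1 h4
  rw [hw] at h5
  have h6 := A.add_mem h5 hα
  rwa [sub_add_cancel] at h6

/-- The axioms. -/
theorem ru_tate (hT : IsPureHomology T) : RU True (StrongTate T) where
  iso h e hX i := by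
    obtain ⟨b, hb⟩ := hT.iso h e i
    exact no_of_surj b hb.2 (hX i)
  total f g h ht hZ hU i := by
    obtain ⟨a, b, -, h1, h2, -⟩ := hT.localization f g h ht i
    exact no_ext a b h2 h1 (hZ i) (hU i)
  opened f g h ht _ hX i := by
    obtain ⟨a, b, -, -, -, h1⟩ := hT.localization f g h ht i
    exact no_of_surj b h1 (hX i)
  space n j := by
    have h1 : NoTrivial T (aff k k) (j - n) (Alg T (aff k k) (j - n)) := by
      intro A B _ hW _ _
      rw [hT.point, top_le_iff] at hW
      rw [hW]
      exact le_top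
    obtain ⟨b, hb⟩ := hT.bundle k n (j - n)
    have h2 := no_of_surj b hb.2 h1
    rwa [sub_add_cancel] at h2
  poly A _ _ _ n h j := by
    obtain ⟨b, hb⟩ := hT.bundle A n (j - n)
    have h2 := no_of_surj b hb.2 (h (j - n))
    rwa [sub_add_cancel] at h2
  torus A _ _ _ h i := by
    obtain ⟨b, hb⟩ := hT.torus A i
    exact no_of_surj b hb (h (i + 1))
  empty B _ _ hB i := by
    intro A B' _ _ _ _ x _
    have h1 := hT.empty B hB i
    rw [Subsingleton.elim x 0]
    exact A.zero_mem

lemma alg_le_inv (hT : IsPureHomology T) (X : Sch k) (i : ℤ) : Alg T X i ≤ Inv T X i := by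
  unfold Alg
  rw [Submodule.span_le]
  rintro _ ⟨x, rfl⟩ g
  exact hT.invariant X i g x

/-- The two parts of the statement for one scheme. -/
lemma strong_iff (hT : IsPureHomology T) (X : Sch k) :
    StrongTate T X ↔ (∀ i, Inv T X i ≤ Alg T X i) ∧ Splits T X := by
  constructor
  · intro h
    have h1 : ∀ i, Inv T X i ≤ Alg T X i := by
      intro i
      refine h i _ _ ?_ le_rfl (alg_le_inv hT X i) ?_
      · intro g x hx
        rw [alg_le_inv hT X i hx g]
        exact hx
      · intro g x hx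
        rw [hx g, sub_self]
        exact Submodule.zero_mem _
    refine ⟨h1, fun i => ?_⟩
    have h2 := h i
    rwa [le_antisymm (alg_le_inv hT X i) (h1 i)] at h2
  · rintro ⟨h1, h2⟩ i
    have h3 := h2 i
    rwa [← le_antisymm (alg_le_inv hT X i) (h1 i)] at h3

end Pool.Agent.Y101.Th
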