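import Pool.Agent.Y101.Th.CoreDefs
import Pool.Agent.Y101.Th.Tate
import Pool.Agent.Y101.Th.Swap

/-!
# The Tate conjecture for divisors and systems of bilinear equations
-/

set_option autoImplicit false

open CategoryTheory AlgebraicGeometry

namespace Pool.Agent.Y101.Th

open Pool.Agent.Y116.UV RX

variable {k G Ω : Type} [Field k] [Group G] [Field Ω] {T : PureHomology k G Ω}

/-- The axioms. -/
theorem ru_core (hT : IsPureCore T) : RU True (StrongTate T) where
  iso h e hX i := by
    obtain ⟨b, hb⟩ := hT.iso h e i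
    exact no_of_surj b hb.2 (hX i)
  total f g h ht hZ hU i := by
    obtain ⟨a, b, -, h1, h2, -⟩ := hT.localization f g h ht i
    exact no_ext a b h2 h1 (hZ i) (hU i)
  opened f g h ht _ hX i := by
    obtain ⟨a, b, -, -, -, h1⟩ := hT.localization f g h ht i
    exact no_of_surj b h1 (hX i)
  space n j := by
    have h1 : NoTrivial T (aff k k) (j - n) (Alg T (aff k k) (j - n)) := by
      intro A B _ hW _ _
      rw [hT.point, top_le_iff] at hW
      rw [hW]
      exact le_top
    obtain ⟨b, hb⟩ := hT.bundle k n (j - n)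
    have h2 := no_of_surj b hb.2 h1
    rwa [sub_add_cancel] at h2
  poly A _ _ _ n h j := by
    obtain ⟨b, hb⟩ := hT.bundle A n (j - n)
    have h2 := no_of_surj b hb.2 (h (j - n))
    rwa [sub_add_cancel] at h2
  torus A _ _ _ h i := by
    obtain ⟨b, hb⟩ := hT.torus A i
    exact no_of_surj b hb (h (i + 1))
  empty B _ _ hB i := by
    intro A B' _ _ _ _ x _
    have h1 := hT.empty B hB i
    rw [Subsingleton.elim x 0]
    exact A.zero_mem

/-- from smooth projective schemes to all schemes, dimension by dimension -/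
theorem core_smproj (hT : IsPureCore T) {n : ℕ}
    (h : ∀ X : Sch k, SmProj X → topologicalKrullDim X.left ≤ n → StrongTate T X)
    (X : Sch k) (hX : FT True X) (hd : topologicalKrullDim X.left ≤ n) : StrongTate T X := by
  obtain ⟨Y, hY, hYd, hb⟩ := hT.resolution X hX
  intro i
  obtain ⟨b, hb⟩ := hb i
  exact no_of_surj b hb (h Y hY (hYd.trans hd) i)

/-- dimension by dimension -/
theorem core_dim [PerfectField k] (hT : IsPureCore T) (n : ℕ) :
    (∀ X : Sch k, SmProj X → topologicalKrullDim X.left ≤ n → StrongTate T X) ↔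
      ∀ (a b c : ℕ) (t : Fin a → Fin b → Fin c → k), (b ≤ n + 2 ∨ c ≤ n + 2) →
        StrongTate T (bilS t) := by
  have h1 : (∀ X : Sch k, SmProj X → topologicalKrullDim X.left ≤ n → StrongTate T X) ↔
      ∀ (a b c : ℕ) (t : Fin a → Fin b → Fin c → k), c ≤ n + 2 → StrongTate T (bilS t) := by
    rw [← r_dim (ru_core hT) n]
    exact ⟨fun h X hX hd => core_smproj hT h X hX hd, fun h X hX hd => h X hX.ft hd⟩
  rw [h1]
  exact ⟨fun h a b c t hm => bil_either (ru_core hT).dn h t hm,
    fun h a b c t hc => h a b c t (Or.inr hc)⟩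

/-- coefficients zero and one -/
theorem core_dim_frac [PerfectField k] (hk : Pool.Agent.Z125.UN.IsFrac k)
    (hT : IsPureCore T) (n : ℕ) :
    (∀ X : Sch k, SmProj X → topologicalKrullDim X.left ≤ n → StrongTate T X) ↔
      ∀ (a b : ℕ) (t : Fin a → Fin b → Fin (n + 2) → k), (∀ i j l, t i j l = 0 ∨ t i j l = 1) →
        StrongTate T (bilS t) := by
  rw [← r_dim_frac hk (ru_core hT) n]
  exact ⟨fun h X hX hd => core_smproj hT h X hX hd, fun h X hX hd => h X hX.ft hd⟩

lemma aeval_mem {V : Type} [AddCommGroup V] [Module Ω V] (F : V →ₗ[Ω] V) (A : Submodule Ω V)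
    (h : ∀ x ∈ A, F x ∈ A) (p : Polynomial Ω) {x : V} (hx : x ∈ A) :
    Polynomial.aeval F p x ∈ A := by
  induction p using Polynomial.induction_on' with
  | add p q hp hq =>
    rw [map_add]
    exact A.add_mem hp hq
  | monomial n a =>
    have h1 : ∀ n : ℕ, ∀ x ∈ A, (F ^ n) x ∈ A := by
      intro n
      induction n with
      | zero => intro x hx; exact hx
      | succ n ih =>
        intro x hx
        rw [pow_succ, Module.End.mul_apply]
        exact ih _ (h x hx)
    rw [Polynomial.aeval_monomial]
    exact A.smul_mem _ (h1 n x hx)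

/-- The statement on the generalised eigenspace and the statement on subquotients. -/
theorem gen_iff (hT : IsPureCore T) {φ : G} (hφ : IsGenerator T φ) (X : Sch k) (i : ℤ) :
    GenAlg T φ X i ↔ NoTrivial T X i (Alg T X i) := by
  have hfix : ∀ x ∈ Alg T X i, T.act X i φ x = x := by
    intro x hx
    induction hx using Submodule.span_induction with
    | mem x hx =>
      obtain ⟨y, rfl⟩ := hx
      exact hT.invariant X i φ y
    | zero => exact map_zero _
    | add x y _ _ hx hy => rw [map_add, hx, hy]
    | smul c x _ hx => rw [map_smul, hx]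
  constructor
  · intro h A B hA hW hAB hB x hx
    have := hT.finite X i
    obtain ⟨F, hF⟩ : ∃ F, F = T.act X i φ := ⟨_, rfl⟩
    have hp : minpoly Ω F ≠ 0 := minpoly.ne_zero (Algebra.IsIntegral.isIntegral F)
    obtain ⟨q, hq, hnd⟩ := Polynomial.exists_eq_pow_rootMultiplicity_mul_and_not_dvd
      (minpoly Ω F) hp (1 : Ω)
    obtain ⟨m, hm⟩ : ∃ m, m = (minpoly Ω F).rootMultiplicity 1 := ⟨_, rfl⟩
    rw [← hm] at hq
    have hirr : Irreducible (Polynomial.X - Polynomial.C (1 : Ω)) := Polynomial.irreducible_X_sub_C 1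
    have hco : IsCoprime ((Polynomial.X - Polynomial.C (1 : Ω)) ^ (m + 1)) q :=
      IsCoprime.pow_left ((hirr.coprime_iff_not_dvd).mpr hnd)
    obtain ⟨u, v, huv⟩ := hco
    have hA' : ∀ x ∈ A, F x ∈ A := by
      rw [hF]
      exact hA φ
    have hlin : Polynomial.aeval F (Polynomial.X - Polynomial.C (1 : Ω)) = F - 1 := by
      simp
    have e1 : x = Polynomial.aeval F (u * (Polynomial.X - Polynomial.C (1 : Ω)) ^ (m + 1)) x +
        Polynomial.aeval F (v * q) x := by
      rw [← LinearMap.add_apply, ← map_add, huv, map_one]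
      rfl
    rw [e1]
    refine A.add_mem ?_ (hW ?_)
    · have e2 : u * (Polynomial.X - Polynomial.C (1 : Ω)) ^ (m + 1) =
          (u * (Polynomial.X - Polynomial.C (1 : Ω)) ^ m) *
            (Polynomial.X - Polynomial.C (1 : Ω)) := by ring
      rw [e2, map_mul, Module.End.mul_apply]
      refine aeval_mem F A hA' _ ?_
      rw [hlin, LinearMap.sub_apply, hF]
      exact hB φ x hx
    · refine h _ m ?_
      rw [← hF, ← hlin, ← map_pow, ← Module.End.mul_apply, ← map_mul]
      have e2 : (Polynomial.X - Polynomial.C (1 : Ω)) ^ m * (v * q) = v * minpoly Ω F := by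
        conv_rhs => rw [hq]
        ring
      rw [e2, map_mul, minpoly.aeval, mul_zero]
      rfl
  · intro h e m
    induction m generalizing e with
    | zero =>
      intro he
      have h1 : e = 0 := he
      rw [h1]
      exact Submodule.zero_mem _
    | succ m ih =>
      intro he
      have hst : ∀ x ∈ Alg T X i, T.act X i φ x ∈ Alg T X i := fun x hx => by
        rw [hfix x hx]
        exact hx
      let B : Submodule Ω (T.H X i) := Alg T X i ⊔ LinearMap.ker ((T.act X i φ - 1) ^ (m + 1))
      have hB : ∀ x ∈ B, T.act X i φ x - x ∈ Alg T X i := by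
        intro x hx
        obtain ⟨y, hy, z, hz, rfl⟩ := Submodule.mem_sup.mp hx
        rw [map_add, hfix y hy]
        have e1 : y + T.act X i φ z - (y + z) = (T.act X i φ - 1) z := by
          rw [LinearMap.sub_apply, Module.End.one_apply]
          abel
        rw [e1]
        apply ih
        have h2 : ((T.act X i φ - 1) ^ (m + 1)) z = 0 := hz
        rw [pow_succ, Module.End.mul_apply] at h2
        exact h2
      have h3 : B ≤ Alg T X i :=
        h _ _ (hφ.stable X i _ hst) le_rfl le_sup_left (hφ.quotient X i _ _ hst hB)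
      exact h3 (le_sup_right (a := Alg T X i) he)

end Pool.Agent.Y101.Th
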