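import Pool.Agent.Y101.Th.TateDefs

/-!
# The Tate conjecture for divisors: definitions
-/

set_option autoImplicit false

open CategoryTheory AlgebraicGeometry

namespace Pool.Agent.Y101.Th

open Pool.Agent.Y116.UV

variable {k G Ω : Type} [Field k] [Group G] [Field Ω]

/-- Known properties of the data for the separated schemes of finite type over a perfect field `k`:
finite dimension, invariance of the classes, isomorphism invariance; right exactness of the localisation
sequences (`localization`; weights: Deligne); affine spaces over an affine scheme (`bundle`);
specialisation to the unit section of `X × 𝔾_m` (`torus`); the cases of a point and of the empty scheme;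
for each `X` there is an alteration which is open in a smooth projective scheme `Y` of the same
dimension, and the homology of `Y` is mapped onto that of `X` (`resolution`; de Jong, Deligne). -/
structure IsPureCore (T : PureHomology k G Ω) : Prop where
  finite : ∀ X i, FiniteDimensional Ω (T.H X i)
  invariant : ∀ X i g x, T.act X i g (T.cl X i x) = T.cl X i x
  iso : ∀ {X Y : Sch k}, FT True X → Nonempty (X ≅ Y) → ∀ i, HIso T X i Y i
  localization : ∀ {Z X U : Sch k} (f : Z ⟶ X) (g : U ⟶ X), FT True X → IsTriple f g → ∀ i,
    HRight T Z X U i
  bundle : ∀ (A : Type) [CommRing A] [Algebra k A] [Algebra.FiniteType k A] (n : ℕ) (i : ℤ),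
    HIso T (aff k A) i (aff k (MvPolynomial (Fin n) A)) (i + n)
  torus : ∀ (A : Type) [CommRing A] [Algebra k A] [Algebra.FiniteType k A] (i : ℤ),
    HOnto T (aff k (LaurentPolynomial A)) (i + 1) (aff k A) i
  point : ∀ i, Alg T (aff k k) i = ⊤
  empty : ∀ (B : Type) [CommRing B] [Algebra k B], Subsingleton B → ∀ i,
    Subsingleton (T.H (aff k B) i)
  resolution : ∀ X : Sch k, FT True X → Resolved T X

/-- The generalised eigenspace of `φ` in `T.H X i` for the eigenvalue one consists of combinations of
cycle classes. (For `φ` the Frobenius over a finite field this says: the invariant elements are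
combinations of cycle classes, and the dimension of the space of these combinations is the multiplicity
of the eigenvalue one.) -/
def GenAlg (T : PureHomology k G Ω) (φ : G) (X : Sch k) (i : ℤ) : Prop :=
  ∀ (e : T.H X i) (m : ℕ), ((T.act X i φ - 1) ^ m) e = 0 → e ∈ Alg T X i

/-- The subspace `A` is stable under `g`. -/
def StableBy (T : PureHomology k G Ω) (g : G) (X : Sch k) (i : ℤ) (A : Submodule Ω (T.H X i)) :
    Prop :=
  ∀ x ∈ A, T.act X i g x ∈ A

/-- `g` acts trivially on the image of `B` modulo `A`. -/
def TrivialBy (T : PureHomology k G Ω) (g : G) (X : Sch k) (i : ℤ) (A B : Submodule Ω (T.H X i)) :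
    Prop :=
  ∀ x ∈ B, T.act X i g x - x ∈ A

/-- `φ` topologically generates `G`, whose action is continuous: subspaces stable under `φ` are stable
under `G`, and if `φ` acts trivially on a quotient, then `G` does. -/
structure IsGenerator (T : PureHomology k G Ω) (φ : G) : Prop where
  stable : ∀ X i A, StableBy T φ X i A → ∀ g, StableBy T g X i A
  quotient : ∀ X i A B, StableBy T φ X i A → TrivialBy T φ X i A B → ∀ g, TrivialBy T g X i A B

/-- The Tate conjecture for divisors over the finite field `k` (`φ` is the Frobenius): for all smooth
projective `X` of pure dimension `d`, in `T.H X (d - 1) = H^2(X, ℚ_ℓ(1))`. -/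
def TateDivisors (T : PureHomology k G Ω) (φ : G) : Prop :=
  ∀ (d : ℕ) (X : Sch k), SmProj X → SmoothOfRelativeDimension d X.hom → GenAlg T φ X (d - 1)

/-- Known facts on the Tate conjecture over finite fields: for smooth projective schemes of dimension
at most two it is true for cycles which are not one-dimensional (`low`); for divisors it is true in
general if it is true for one-dimensional cycles on smooth projective schemes of dimension at most two,
and conversely (`surfaces`: de Jong, Morrow; the semisimplicity of the eigenvalue one follows by the
non-degeneracy of the intersection form, Tate). -/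
structure DivisorsKnown (T : PureHomology k G Ω) (φ : G) : Prop where
  low : ∀ X : Sch k, SmProj X → topologicalKrullDim X.left ≤ 2 → ∀ i ≠ 1, GenAlg T φ X i
  surfaces : (∀ X : Sch k, SmProj X → topologicalKrullDim X.left ≤ 2 → GenAlg T φ X 1) ↔
    TateDivisors T φ

/-- The Tate conjecture for divisors over the number field `k`: for all smooth projective `X` of pure
dimension `d`, the invariant elements of `T.H X (d - 1) = H^2(X, ℚ_ℓ(1))` are combinations of the
classes of divisors. -/
def InvDivisors (T : PureHomology k G Ω) : Prop :=
  ∀ (d : ℕ) (X : Sch k), SmProj X → SmoothOfRelativeDimension d X.hom →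
    Inv T X (d - 1) ≤ Alg T X (d - 1)

/-- Known facts over number fields: for smooth projective schemes of dimension at most two the strong
form of the Tate conjecture is true for cycles which are not one-dimensional (`low`); the Tate
conjecture for divisors is true in general if and only if, for smooth projective schemes of dimension at
most two, the quotient of `H^2(X, ℚ_ℓ(1))` by the space of the classes of divisors has no trivial
subquotient (`surfaces`: Lefschetz's theorems for the reduction to surfaces; for the equivalence of the
two forms of the conjecture see Moonen, over `ℚ`, and restriction of scalars). -/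
structure InvDivisorsKnown (T : PureHomology k G Ω) : Prop where
  low : ∀ X : Sch k, SmProj X → topologicalKrullDim X.left ≤ 2 → ∀ i ≠ 1,
    NoTrivial T X i (Alg T X i)
  surfaces : (∀ X : Sch k, SmProj X → topologicalKrullDim X.left ≤ 2 →
    NoTrivial T X 1 (Alg T X 1)) ↔ InvDivisors T

end Pool.Agent.Y101.Th
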