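import Pool.Agent.Y101.Th.TBKnown
import Pool.Agent.Y101.Th.Gen
import Pool.Agent.Y116.UV.TB

/-!
# The conjecture of Tate and Beilinson and trilinear forms, dimension by dimension
-/

set_option autoImplicit false

open CategoryTheory AlgebraicGeometry MvPolynomial

namespace Pool.Agent.Y101.Th

open Pool.Agent.Y116.UV Pool.Agent.Z125.UN

variable {k Ω : Type} [Field k] [Field Ω] [CharZero Ω] {T : Homology k Ω}

/-- The conjecture of Tate and Beilinson satisfies the axioms. -/
theorem bnd_tb (hT : IsHomology T) : Bnd True (TB T) where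
  toUni := uni_tb hT
  bundle A _ _ _ m f U j hj hr h := (tb_iso hT (hT.bundle A m f U j hj hr)).mp h

lemma onto_of_tb {X : Sch k} (h : TB T X) : Onto T X := fun i j e he => ((h i j).1 e).mp he

lemma one_of_tb {X : Sch k} (h : TB T X) : OneToOne T X := fun i j r x hx => (h i j).2.1 r x hx

/-- smooth projective schemes and trilinear forms -/
theorem tb_dim [PerfectField k] (hT : IsHomology T) (hK : TBKnown T) (d : ℕ) :
    (∀ X : Sch k, SmProj X → topologicalKrullDim X.left ≤ d → TB T X) ↔
      ∀ (a b c : ℕ) (t : Fin a → Fin b → Fin c → k), (a ≤ d + 2 ∨ b ≤ d + 2 ∨ c ≤ d + 2) →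
        TB T (hypS t) :=
  ⟨fun h => (gen_dim (bnd_tb hT) d).mp (hK.alterations d h),
    fun h X hX hd => (gen_dim (bnd_tb hT) d).mpr h X hX.ft hd⟩

/-- all smooth projective schemes and all trilinear forms -/
theorem tb_smproj [PerfectField k] (hT : IsHomology T) (hK : TBKnown T) :
    (∀ X : Sch k, SmProj X → TB T X) ↔
      ∀ (a b c : ℕ) (t : Fin a → Fin b → Fin c → k), TB T (hypS t) := by
  constructor
  · intro h a b c t
    exact (tb_dim hT hK a).mp (fun X hX _ => h X hX) a b c t (Or.inl (by omega))
  · intro h X hX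
    exact (gen_all (bnd_tb hT).toUni).mpr h X hX.ft

end Pool.Agent.Y101.Th
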