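import Pool.Agent.Y101.Th.Bil
import Pool.Agent.Y101.Th.TBMain

/-!
# Cycle class maps over finite fields: right exact sequences
-/

set_option autoImplicit false

open CategoryTheory AlgebraicGeometry MvPolynomial

namespace Pool.Agent.Y101.Th

open Pool.Agent.Y116.UV
open Pool.Agent.W495.FM (Node Arrow five good_retract)

section node

variable {Ω : Type} [Field Ω] [CharZero Ω]

/-- the generalised eigenspace consists of classes -/
def FullN (A : Node Ω) : Prop := ∀ e, A.InG e → ∃ t, A.lam t = e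

/-- right exactness -/
theorem node_right {A B C : Node Ω} (a : Arrow A B) (b : Arrow B C)
    (hf : Function.Exact a.f b.f) (hs : Function.Surjective b.f)
    (hg : ∀ x, B.InG x → b.g x = 0 → ∃ y, A.InG y ∧ a.g y = x)
    (hl : ∀ x, C.InG x → ∃ y, B.InG y ∧ b.g y = x) (hA : FullN A) (hB : B.Good) : C.Good := by
  have hs' : Function.Surjective b.ten := LinearMap.lTensor_surjective Ω hs
  have he := a.exact_ten b hf
  constructor
  · rw [injective_iff_map_eq_zero]
    intro t ht
    obtain ⟨u, rfl⟩ := hs' t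
    rw [b.lam_ten] at ht
    obtain ⟨y, hy, hy'⟩ := hg _ (B.inG_lam u) ht
    obtain ⟨v, rfl⟩ := hA y hy
    rw [← a.lam_ten] at hy'
    have h1 := hB.1 hy'
    rw [← h1]
    exact (he _).2 ⟨v, rfl⟩
  · intro x hx
    obtain ⟨y, hy, rfl⟩ := hl x hx
    obtain ⟨v, rfl⟩ := hB.2 y hy
    exact ⟨b.ten v, b.lam_ten v⟩

/-- elements of the span -/
lemma mem_span_lam (A : Node Ω) (e : A.E) : e ∈ Submodule.span Ω (Set.range A.ρ) ↔
    ∃ t, A.lam t = e := by
  constructor
  · intro he
    induction he using Submodule.span_induction with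
    | mem x hx =>
      obtain ⟨y, rfl⟩ := hx
      exact ⟨1 ⊗ₜ y, by rw [A.lam_tmul, one_smul]⟩
    | zero => exact ⟨0, map_zero _⟩
    | add x y _ _ hx hy =>
      obtain ⟨t, ht⟩ := hx
      obtain ⟨s, hs⟩ := hy
      exact ⟨t + s, by rw [map_add, ht, hs]⟩
    | smul c x _ hx =>
      obtain ⟨t, ht⟩ := hx
      exact ⟨c • t, by rw [map_smul, ht]⟩
  · rintro ⟨t, rfl⟩
    induction t using TensorProduct.induction_on with
    | zero => rw [map_zero]; exact Submodule.zero_mem _
    | tmul c x =>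
      rw [A.lam_tmul]
      exact Submodule.smul_mem _ _ (Submodule.subset_span ⟨x, rfl⟩)
    | add x y hx hy => rw [map_add]; exact Submodule.add_mem _ hx hy

end node

variable {k Ω : Type} [Field k] [Field Ω] [CharZero Ω] {T : Homology k Ω}

/-- The statement for all degrees `2 j`. -/
def JJ (hT : IsHomology T) (X : Sch k) : Prop := ∀ i j : ℤ, i = 2 * j → (nd hT X i j).Good

lemma jj_iff (hT : IsHomology T) (X : Sch k) : JJ hT X ↔ CycIso T X ∧ Semisimple T X := by
  constructor
  · intro h
    refine ⟨fun i j hij => ?_, fun i j hij => ?_⟩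
    · have h1 := ((nd hT X i j).good_iff).mp (h i j hij)
      exact ⟨fun e he => (h1.1 e).mp he, h1.2.1⟩
    · have h1 := ((nd hT X i j).good_iff).mp (h i j hij)
      exact h1.2.2
  · rintro ⟨h1, h2⟩ i j hij
    refine ((nd hT X i j).good_iff).mpr ⟨fun e => ⟨fun he => (h1 i j hij).1 e he, fun he => ?_⟩,
      (h1 i j hij).2, h2 i j hij⟩
    obtain ⟨t, rfl⟩ := (mem_span_lam _ e).mp he
    exact (nd hT X i j).φ_lam t

lemma right_good (hT : IsHomology T) {Z X U : Sch k} {i j i' j' i'' j'' : ℤ}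
    (a : HHom T Z i j X i' j') (b : HHom T X i' j' U i'' j'') (h : IsRightExact a b)
    (hZ : FullN (nd hT Z i j)) (hX : (nd hT X i' j').Good) : (nd hT U i'' j'').Good :=
  node_right (ar hT a) (ar hT b) h.1 h.2.1 h.2.2.1 h.2.2.2 hZ hX

/-- there are no generalised eigenvectors if there are no eigenvectors -/
lemma gen_zero {X : Sch k} {i j : ℤ} (h : ∀ e : T.E X i j, T.frob X i j e = e → e = 0)
    (e : T.E X i j) (he : IsGen T X i j e) : e = 0 := by
  obtain ⟨m, hm⟩ := he
  induction m generalizing e with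
  | zero => exact hm
  | succ m ih =>
    rw [pow_succ, Module.End.mul_apply] at hm
    have h1 := ih _ hm
    refine h e ?_
    rw [LinearMap.sub_apply] at h1
    exact sub_eq_zero.mp h1

/-- the localisation sequence is right exact -/
lemma right_triple (hT : IsHomology T) (hK : CycKnown T) {Z X U : Sch k} (f : Z ⟶ X) (g : U ⟶ X)
    (hX : FT True X) (hZ : FT True Z) (ht : IsTriple f g) (i j : ℤ) (hij : i = 2 * j) :
    ∃ (a : HHom T Z i j X i j) (b : HHom T X i j U i j), IsRightExact a b := by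
  obtain ⟨i, rfl⟩ : ∃ l, i = l + 1 := ⟨i - 1, by ring⟩
  obtain ⟨a, b, d, h⟩ := hT.localization f g hX ht j
  refine ⟨a (i + 1), b (i + 1), (h (i + 1)).1.1, ?_, ?_, ?_⟩
  · intro x
    exact ((h i).2.1.1 x).mp (hK.motivic Z i j hZ (by omega) _)
  · intro e he hb
    exact (ar hT (a (i + 1))).fitting (ar hT (b (i + 1))) (h (i + 1)).1.2 e he hb
  · intro e he
    have h1 : (d i).g e = 0 := by
      refine gen_zero (hK.weights Z i j hZ (by omega)) _ ?_
      exact (ar hT (d i)).inG he
    obtain ⟨y0, hy0⟩ := ((h i).2.1.2 e).mp h1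
    exact (ar hT (b (i + 1))).lift_gen e he y0 hy0

end Pool.Agent.Y101.Th
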