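import Pool.Agent.Y101.Th.LinMain

/-!
# Dehomogenization of a system of bilinear equations
-/

set_option autoImplicit false

open CategoryTheory AlgebraicGeometry MvPolynomial

namespace Pool.Agent.Y101.Th

open Pool.Agent.Y116.UV

/-- The ring `R[y, z]/(bilinear forms with the coefficients T)`. -/
abbrev BRing {R : Type} [CommRing R] {β γ κ : Type} [Fintype β] [Fintype γ]
    (T : κ → β → γ → R) : Type :=
  MvPolynomial (β ⊕ γ) R ⧸ Ideal.span (Set.range fun k => bil β γ (T k))

variable {R : Type} [CommRing R] {β γ κ : Type} [Fintype β] [Fintype γ]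
  (T : κ → β → Option γ → R)

/-- the coefficients of the dehomogenized system -/
noncomputable def deh (k : κ) (j : β) : MvPolynomial γ R :=
  C (T k j none) + ∑ i, C (T k j (some i)) * X i

/-- the dehomogenized system -/
abbrev DRing : Type := LRing (deh T) (fun _ => 0)

lemma hom_C {σ B : Type} [CommRing B] [Algebra R B] (φ : MvPolynomial σ R →ₐ[R] B) (r : R) :
    φ (C r) = algebraMap R B r := by
  rw [← algebraMap_eq, AlgHom.commutes]

/-- the value of a bilinear form -/
lemma bil_value {B : Type} [CommRing B] [Algebra R B] (φ : MvPolynomial (β ⊕ Option γ) R →ₐ[R] B)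
    (k : κ) : φ (bil β (Option γ) (T k)) = ∑ j, φ (X (Sum.inl j)) *
      (algebraMap R B (T k j none) * φ (X (Sum.inr none)) +
        ∑ i, algebraMap R B (T k j (some i)) * φ (X (Sum.inr (some i)))) := by
  rw [bil_apply, map_sum]
  apply Finset.sum_congr rfl
  intro j _
  rw [map_sum, Fintype.sum_option, mul_add, Finset.mul_sum]
  congr 1
  · rw [map_mul, map_mul, hom_C]
    ring
  · apply Finset.sum_congr rfl
    intro i _
    rw [map_mul, map_mul, hom_C]
    ring

lemma deh_value {B : Type} [CommRing B] [Algebra R B] (φ : MvPolynomial γ R →ₐ[R] B)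
    (k : κ) (j : β) : φ (deh T k j) = algebraMap R B (T k j none) +
      ∑ i, algebraMap R B (T k j (some i)) * φ (X i) := by
  rw [deh, map_add, map_sum, hom_C]
  congr 1
  apply Finset.sum_congr rfl
  intro i _
  rw [map_mul, hom_C]

section

variable {D : Type} [CommRing D] [Algebra R D] (i : MvPolynomial γ R →ₐ[R] D) (y : β → D)

/-- the inclusion of `D` in the Laurent polynomial ring -/
noncomputable def ic (R : Type) [CommRing R] (D : Type) [CommRing D] [Algebra R D] :
    D →ₐ[R] LaurentPolynomial D :=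
  { LaurentPolynomial.C with commutes' := fun _ => rfl }

lemma ic_apply (x : D) : ic R D x = LaurentPolynomial.C x := rfl

/-- the values of the coordinates -/
noncomputable def vf : β ⊕ Option γ → LaurentPolynomial D :=
  Sum.elim (fun j => ic R D (y j))
    (fun o => o.elim (LaurentPolynomial.T 1) fun g => LaurentPolynomial.T 1 * ic R D (i (X g)))

/-- the forward homomorphism -/
noncomputable def F0 : MvPolynomial (β ⊕ Option γ) R →ₐ[R] LaurentPolynomial D :=
  aeval (vf i y)

lemma F0_y (j : β) : F0 i y (X (Sum.inl j)) = ic R D (y j) := by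
  rw [F0, aeval_X, vf, Sum.elim_inl]

lemma F0_0 : F0 i y (X (Sum.inr none)) = LaurentPolynomial.T 1 := by
  rw [F0, aeval_X, vf, Sum.elim_inr, Option.elim_none]

lemma F0_z (g : γ) : F0 i y (X (Sum.inr (some g))) =
    LaurentPolynomial.T 1 * ic R D (i (X g)) := by
  rw [F0, aeval_X, vf, Sum.elim_inr, Option.elim_some]

lemma F0_bil (hrel : ∀ k, ∑ j, i (deh T k j) * y j = 0) (k : κ) :
    F0 i y (bil β (Option γ) (T k)) = 0 := by
  rw [bil_value, F0_0]
  have h1 : ∀ j, F0 i y (X (Sum.inl j)) *
      (algebraMap R (LaurentPolynomial D) (T k j none) * LaurentPolynomial.T 1 +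
      ∑ g, algebraMap R (LaurentPolynomial D) (T k j (some g)) *
        F0 i y (X (Sum.inr (some g)))) =
      LaurentPolynomial.T 1 * ic R D (i (deh T k j) * y j) := by
    intro j
    have h2 : ∑ g, algebraMap R (LaurentPolynomial D) (T k j (some g)) *
        F0 i y (X (Sum.inr (some g))) = LaurentPolynomial.T 1 *
        ∑ g, algebraMap R (LaurentPolynomial D) (T k j (some g)) * ic R D (i (X g)) := by
      rw [Finset.mul_sum]
      apply Finset.sum_congr rfl
      intro g _
      rw [F0_z]
      ring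
    have h3 := deh_value T ((ic R D).comp i) k j
    simp only [AlgHom.comp_apply] at h3
    rw [F0_y, map_mul, h3, h2]
    ring
  rw [Finset.sum_congr rfl fun j _ => h1 j, ← Finset.mul_sum, ← map_sum, hrel, map_zero,
    mul_zero]

theorem dehom_aux (hrel : ∀ k, ∑ j, i (deh T k j) * y j = 0)
    (hlift : ∀ (B : Type) [CommRing B] [Algebra R B] (φ : MvPolynomial γ R →ₐ[R] B)
      (y' : β → B), (∀ k, ∑ j, φ (deh T k j) * y' j = 0) →
      ∃ g : D →ₐ[R] B, (∀ x, g (i x) = φ x) ∧ ∀ j, g (y j) = y' j)
    (hext : ∀ (B : Type) [CommRing B] [Algebra R B] (f g : D →ₐ[R] B),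
      (∀ x, f (i x) = g (i x)) → (∀ j, f (y j) = g (y j)) → f = g)
    {W : Type} [CommRing W] [Algebra R W] (q0 : MvPolynomial (β ⊕ Option γ) R →ₐ[R] W)
    (hs : Function.Surjective q0) (hk : ∀ k, q0 (bil β (Option γ) (T k)) = 0)
    (hW : ∀ (B : Type) [CommRing B] [Algebra R B]
      (φ : MvPolynomial (β ⊕ Option γ) R →ₐ[R] B), (∀ k, φ (bil β (Option γ) (T k)) = 0) →
      ∃ g : W →ₐ[R] B, ∀ x, g (q0 x) = φ x) :
    Nonempty (Localization.Away (q0 (X (Sum.inr none))) ≃ₐ[R] LaurentPolynomial D) := by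
  obtain ⟨F1, hF1⟩ := hW (LaurentPolynomial D) (F0 i y) (F0_bil T i y hrel)
  obtain ⟨F, hF⟩ := exists_loc (q0 (X (Sum.inr none))) F1 (by
    rw [hF1, F0_0]
    exact LaurentPolynomial.isUnit_T 1)
  obtain ⟨q, hq⟩ : ∃ q : MvPolynomial (β ⊕ Option γ) R →ₐ[R]
      Localization.Away (q0 (X (Sum.inr none))), ∀ x, q x = algebraMap W _ (q0 x) :=
    ⟨(IsScalarTower.toAlgHom R W _).comp q0, fun x => rfl⟩
  have hqk : ∀ k, q (bil β (Option γ) (T k)) = 0 := by
    intro k
    rw [hq, hk, map_zero]
  have hu : IsUnit (q (X (Sum.inr none))) := by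
    rw [hq]
    exact isUnit_away _
  obtain ⟨u, hu'⟩ := hu
  have huu : (u : Localization.Away (q0 (X (Sum.inr none)))) * ↑u⁻¹ = 1 := Units.mul_inv u
  obtain ⟨G1, hG1⟩ : ∃ G1 : MvPolynomial γ R →ₐ[R] Localization.Away (q0 (X (Sum.inr none))),
      ∀ g, G1 (X g) = q (X (Sum.inr (some g))) * ↑u⁻¹ :=
    ⟨aeval fun g => q (X (Sum.inr (some g))) * ↑u⁻¹, fun g => aeval_X _ _⟩
  obtain ⟨G0, hG0, hG0y⟩ := hlift _ G1 (fun j => q (X (Sum.inl j))) (fun k => by
    have h := hqk k
    rw [bil_value, ← hu'] at h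
    have h1 : ∀ j, G1 (deh T k j) * q (X (Sum.inl j)) = q (X (Sum.inl j)) *
        (algebraMap R _ (T k j none) * ↑u +
        ∑ i, algebraMap R _ (T k j (some i)) * q (X (Sum.inr (some i)))) * ↑u⁻¹ := by
      intro j
      have h2 : G1 (deh T k j) = algebraMap R _ (T k j none) +
          (∑ i, algebraMap R _ (T k j (some i)) * q (X (Sum.inr (some i)))) * ↑u⁻¹ := by
        rw [deh_value, Finset.sum_mul]
        congr 1
        apply Finset.sum_congr rfl
        intro g _
        rw [hG1]
        ring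
      rw [h2]
      linear_combination (-(q (X (Sum.inl j)) * algebraMap R _ (T k j none))) * huu
    rw [Finset.sum_congr rfl fun j _ => h1 j, ← Finset.sum_mul, h, zero_mul])
  obtain ⟨G, hGC, hGt⟩ : ∃ G : LaurentPolynomial D →+* Localization.Away (q0 (X (Sum.inr none))),
      (∀ x, G (ic R D x) = G0 x) ∧ G (LaurentPolynomial.T 1) = u := by
    refine ⟨LaurentPolynomial.eval₂ (G0 : D →+* _) u, fun x => ?_, ?_⟩
    · rw [ic_apply, LaurentPolynomial.eval₂_C]
      rfl
    · rw [LaurentPolynomial.eval₂_T, zpow_one]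
  have hFq : ∀ x, F (q x) = F0 i y x := fun x => by rw [hq, hF, hF1]
  have hFu : F (u : Localization.Away (q0 (X (Sum.inr none)))) = LaurentPolynomial.T 1 := by
    rw [hu', hFq, F0_0]
  have hFu' : F (↑u⁻¹ : Localization.Away (q0 (X (Sum.inr none)))) *
      LaurentPolynomial.T 1 = 1 := by
    rw [← hFu, ← map_mul, Units.inv_mul, map_one]
  have h1 : F.comp G0 = ic R D := by
    apply hext
    · intro x
      rw [AlgHom.comp_apply, hG0]
      have h2 : F.comp G1 = (ic R D).comp i := by
        apply MvPolynomial.algHom_ext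
        intro g
        rw [AlgHom.comp_apply, hG1, map_mul, hFq, F0_z, AlgHom.comp_apply]
        linear_combination (ic R D (i (X g))) * hFu'
      exact congrArg (fun k => k x) h2
    · intro j
      rw [AlgHom.comp_apply, hG0y, hFq, F0_y]
  have e1 : F.toRingHom.comp G = RingHom.id (LaurentPolynomial D) := by
    apply laurent_hom_ext
    · intro x
      change F (G (ic R D x)) = ic R D x
      rw [hGC]
      exact congrArg (fun k => k x) h1
    · change F (G (LaurentPolynomial.T 1)) = LaurentPolynomial.T 1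
      rw [hGt, hFu]
  have e2 : G.comp F.toRingHom = RingHom.id _ := by
    apply IsLocalization.ringHom_ext (Submonoid.powers (q0 (X (Sum.inr none))))
    have h3 : ∀ x, G (F (q x)) = q x := by
      have h4 : (G.comp F.toRingHom).comp q.toRingHom = q.toRingHom := by
        apply MvPolynomial.ringHom_ext
        · intro r
          change G (F (q (C r))) = q (C r)
          rw [hFq, hom_C, hom_C, ← (ic R D).commutes r, hGC, AlgHom.commutes]
        · rintro (j | _ | g)
          · change G (F (q (X (Sum.inl j)))) = q (X (Sum.inl j))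
            rw [hFq, F0_y, hGC, hG0y]
          · change G (F (q (X (Sum.inr none)))) = q (X (Sum.inr none))
            rw [hFq, F0_0, hGt, hu']
          · change G (F (q (X (Sum.inr (some g))))) = q (X (Sum.inr (some g)))
            rw [hFq, F0_z, map_mul, hGt, hGC, hG0, hG1]
            linear_combination (q (X (Sum.inr (some g)))) * huu
      exact fun x => congrArg (fun k => k x) h4
    ext x
    obtain ⟨x, rfl⟩ := hs x
    change G (F (algebraMap W _ (q0 x))) = algebraMap W _ (q0 x)
    rw [← hq, h3]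
  exact ⟨AlgEquiv.ofRingEquiv (f := RingEquiv.ofRingHom F.toRingHom G e1 e2)
    (fun r => F.commutes r)⟩

end

lemma span_le_ker {A B κ : Type} [CommRing A] [CommRing B] (f : κ → A) (φ : A →+* B)
    (h : ∀ k, φ (f k) = 0) (x : A) (hx : x ∈ Ideal.span (Set.range f)) : φ x = 0 := by
  have h1 : Ideal.span (Set.range f) ≤ RingHom.ker φ := by
    rw [Ideal.span_le]
    rintro _ ⟨k, rfl⟩
    exact h k
  exact h1 hx

lemma bring_lift {β γ κ : Type} [Fintype β] [Fintype γ] (T : κ → β → γ → R) (B : Type)
    [CommRing B] [Algebra R B] (φ : MvPolynomial (β ⊕ γ) R →ₐ[R] B)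
    (h : ∀ k, φ (bil β γ (T k)) = 0) :
    ∃ g : BRing T →ₐ[R] B, ∀ x, g (Ideal.Quotient.mk _ x) = φ x :=
  ⟨Ideal.Quotient.liftₐ _ φ (span_le_ker _ φ.toRingHom h), fun _ => rfl⟩

/-- The open part `z_0 ≠ 0` of the scheme of solutions of a system of bilinear equations is the
product of `𝔾_m` with the scheme of solutions of the dehomogenized system. -/
theorem dehom : Nonempty (Localization.Away
    (Ideal.Quotient.mk (Ideal.span (Set.range fun k => bil β (Option γ) (T k)))
      (X (Sum.inr none)) : BRing T) ≃ₐ[R] LaurentPolynomial (DRing T)) := by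
  refine dehom_aux T (inc R (deh T) (fun _ => 0)) (yy (deh T) (fun _ => 0)) ?_ ?_ ?_
    (Ideal.Quotient.mkₐ R _) (Ideal.Quotient.mkₐ_surjective R _) ?_ ?_
  · intro k
    have h := rel_LRing R (deh T) (fun _ => 0) k
    have h0 : inc R (deh T) (fun _ => 0) (0 : MvPolynomial γ R) = 0 := map_zero _
    exact (add_eq_left.mpr h0).symm.trans h
  · intro B _ _ φ y' h
    exact ⟨lift φ y' (fun k => by
      rw [map_zero, add_zero]
      exact h k), fun x => lift_inc _ _ _ _ _ x, fun j => lift_yy _ _ _ _ _ j⟩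
  · intro B _ _ f g h1 h2
    exact LRing_ext (R := R) (D := B) _ _ h1 h2
  · intro k
    exact Ideal.Quotient.eq_zero_iff_mem.mpr (Ideal.subset_span ⟨k, rfl⟩)
  · intro B _ _ φ h
    exact bring_lift T B φ h

end Pool.Agent.Y101.Th
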