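import Pool.Agent.Y101.Th.FsDefs
import Pool.Agent.Y101.Th.Bil

/-!
# Semisimplicity of the Frobenius on pure cohomology
-/

set_option autoImplicit false

open CategoryTheory AlgebraicGeometry MvPolynomial

namespace Pool.Agent.Y101.Th

open Pool.Agent.Y116.UV

lemma sep_scale {Ω : Type} [Field Ω] {p : Polynomial Ω} (hp : p.Separable) {c : Ω} (hc : c ≠ 0) :
    (p.comp (Polynomial.C c * Polynomial.X)).Separable := by
  have h1 : IsCoprime (p.comp (Polynomial.C c * Polynomial.X))
      (p.derivative.comp (Polynomial.C c * Polynomial.X)) :=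
    IsCoprime.map hp (Polynomial.compRingHom (Polynomial.C c * Polynomial.X))
  unfold Polynomial.Separable
  rw [Polynomial.derivative_comp]
  have h2 : Polynomial.derivative (Polynomial.C c * Polynomial.X) = Polynomial.C c := by simp
  rw [h2]
  exact (isCoprime_mul_unit_left_right (Polynomial.isUnit_C.mpr hc.isUnit) _ _).mpr h1

lemma aeval_scale {Ω V : Type} [Field Ω] [AddCommGroup V] [Module Ω V] (f : V →ₗ[Ω] V)
    (p : Polynomial Ω) (c : Ω) :
    Polynomial.aeval f (p.comp (Polynomial.C c * Polynomial.X)) = Polynomial.aeval (c • f) p := by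
  rw [Polynomial.aeval_comp]
  congr 1
  simp [Algebra.smul_def]

lemma aeval_quot {Ω V W : Type} [Field Ω] [AddCommGroup V] [Module Ω V] [AddCommGroup W]
    [Module Ω W] (f : V →ₗ[Ω] V) (f' : W →ₗ[Ω] W) (g : V →ₗ[Ω] W)
    (h : ∀ x, f' (g x) = g (f x)) (p : Polynomial Ω) (x : V) :
    Polynomial.aeval f' p (g x) = g (Polynomial.aeval f p x) := by
  induction p using Polynomial.induction_on' with
  | add p q hp hq => simp only [map_add, LinearMap.add_apply, hp, hq]
  | monomial n a =>
    have h1 : ∀ n : ℕ, ∀ x, (f' ^ n) (g x) = g ((f ^ n) x) := by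
      intro n
      induction n with
      | zero => intro x; rfl
      | succ n ih =>
        intro x
        rw [pow_succ, pow_succ, Module.End.mul_apply, Module.End.mul_apply, h, ih]
    rw [Polynomial.aeval_monomial, Polynomial.aeval_monomial]
    simp only [Module.End.mul_apply, Module.algebraMap_end_apply]
    rw [h1, map_smul]

variable {k Ω : Type} [Field k] [Field Ω] {T : LowHomology k Ω}

lemma fs_onto {X Y : Sch k} {m n : ℤ} (h : LOnto T Y m X n)
    (hY : ∃ p : Polynomial Ω, p.Separable ∧ Polynomial.aeval (T.frob Y m) p = 0) :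
    ∃ p : Polynomial Ω, p.Separable ∧ Polynomial.aeval (T.frob X n) p = 0 := by
  obtain ⟨g, c, hc, hg, hf⟩ := h
  obtain ⟨p, hp, h0⟩ := hY
  refine ⟨p.comp (Polynomial.C c⁻¹ * Polynomial.X), sep_scale hp (inv_ne_zero hc), ?_⟩
  rw [aeval_scale]
  ext x
  obtain ⟨x, rfl⟩ := hg x
  rw [aeval_quot (T.frob Y m) (c⁻¹ • T.frob X n) g ?_ p x, h0]
  · simp
  · intro y
    rw [LinearMap.smul_apply, hf, smul_smul, inv_mul_cancel₀ hc, one_smul]

lemma fs_of {X Y : Sch k} {r : ℤ} (h : ∀ n, LOnto T Y (n + r) X n) (hY : FrobSemisimple T Y) :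
    FrobSemisimple T X := fun n => fs_onto (h n) (hY (n + r))

theorem dn_fs (hT : IsLowHomology T) : Dn True (FrobSemisimple T) where
  iso h e hX n := fs_onto (hT.iso h e n) (hX n)
  opened f g hX ht _ hX' n := fs_onto (hT.opened f g hX ht n) (hX' n)
  torus A _ _ _ h := fs_of (r := 2) (hT.torus A) h

/-- all bilinear systems are sufficient -/
theorem fs_all (hT : IsLowHomology T) {S : Set k} (h0 : (0 : k) ∈ S) (h1 : (1 : k) ∈ S)
    (hHas : ∀ (n : ℕ) (p : MvPolynomial (Fin n) k), Has S p)
    (hB : ∀ (a b c : ℕ) (t : Fin a → Fin b → Fin c → k), (∀ i j l, t i j l ∈ S) →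
      FrobSemisimple T (bilS t))
    (X : Sch k) (hX : FT True X) : FrobSemisimple T X := by
  obtain ⟨A, _, _, _, r, hr⟩ := hT.cover X hX
  refine fs_of hr ?_
  obtain ⟨n, φ, hs⟩ := Algebra.FiniteType.iff_quotient_mvPolynomial''.mp
    (inferInstance : Algebra.FiniteType k A)
  exact dn_alg (dn_fs hT) (Ideal.quotientKerAlgEquivOfSurjective (f := φ) hs)
    (closed_of_bil (dn_fs hT) h0 h1 (hHas n) (fun a b t => hB a b (n + 1) t) (RingHom.ker φ))

/-- smooth projective schemes are sufficient -/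
theorem fs_smproj (hT : IsLowHomology T) (h : ∀ X : Sch k, SmProj X → FrobSemisimple T X)
    (X : Sch k) (hX : FT True X) : FrobSemisimple T X := by
  obtain ⟨Y, hY, hYX⟩ := hT.resolution X hX
  exact fun n => fs_onto (hYX n) (h Y hY n)

/-- hypersurfaces defined by trilinear forms are sufficient -/
lemma fs_tri (hC : LowCayley T) {a b c : ℕ} (t : Fin a → Fin b → Fin c → k)
    (h : FrobSemisimple T (triS t)) : FrobSemisimple T (bilS t) :=
  fs_of (r := 2 * (a : ℤ)) (hC _ _ _) h

end Pool.Agent.Y101.Th
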