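import Pool.Agent.Y101.Th.BilDefs

/-!
# Semisimplicity of the eigenvalue one: hypersurfaces defined by trilinear forms
-/

set_option autoImplicit false

open CategoryTheory AlgebraicGeometry

namespace Pool.Agent.Y101.Th

open Pool.Agent.Y116.UV

open MvPolynomial in
/-- The hypersurface `∑ l, f l * w_l = 0` in `Spec A × 𝔸^m`. -/
noncomputable def Cay {k A : Type} [CommRing k] [CommRing A] [Algebra k A] {m : ℕ}
    (f : Fin m → A) : Sch k :=
  aff k (MvPolynomial (Fin m) A ⧸ Ideal.span {∑ l, C (f l) * X l})

open MvPolynomial in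
/-- The hypersurface `∑ t i j l x_i y_j z_l = 0` in `𝔸^(a + b + c)`. -/
noncomputable def triS {k : Type} [CommRing k] {a b c : ℕ} (t : Fin a → Fin b → Fin c → k) :
    Sch k :=
  Cay (k := k) (A := MvPolynomial (Fin b ⊕ Fin c) k) fun i =>
    ∑ j, ∑ l, C (t i j l) * X (Sum.inl j) * X (Sum.inr l)

/-- The Cayley trick: the homology of the closed subscheme `f = 0` of `Spec A` is a direct summand of
the homology of the hypersurface `∑ l, f l * w_l = 0` in `Spec A × 𝔸^m`, in the degrees shifted by
`2 m` with the twists shifted by `m`. (Localization for the hypersurface and for `f = 0`: the complement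
of the hypersurface is `J × 𝔾_m`, where `J` is the affine bundle `∑ l, f l * w_l = 1` over the
complement of `f = 0`, and the pull-back from `Spec A` to `J × 𝔾_m` factors through `J`.) -/
def Cayley {k Ω : Type} [Field k] [Field Ω] (T : Homology k Ω) : Prop :=
  ∀ (A : Type) [CommRing A] [Algebra k A] [Algebra.FiniteType k A] (m : ℕ) (f : Fin m → A),
    HasRetraction T (aff k (A ⧸ Ideal.span (Set.range f))) (Cay f) m

end Pool.Agent.Y101.Th
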