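import Pool.Agent.Y101.Th.PairDefs
import Pool.Agent.Y101.Th.SsDefs

/-!
# Semisimplicity of the Frobenius on pure cohomology: definitions
-/

set_option autoImplicit false

open CategoryTheory AlgebraicGeometry

namespace Pool.Agent.Y101.Th

open Pool.Agent.Y116.UV

/-- Data for the schemes `X` over the finite field `k` (`Ω` is the field `ℚ_ℓ`): the part `L X n` of the
lowest weight `-n` of the `ℓ`-adic Borel-Moore homology `H_n(X, ℚ_ℓ)` over the algebraic closure (the
dual of the part of the highest weight `n` of `H^n_c(X, ℚ_ℓ)`), with the Frobenius. For `X` smooth and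
projective, `L X n` is the dual of `H^n(X, ℚ_ℓ)`. -/
structure LowHomology (k Ω : Type) [Field k] [Field Ω] where
  L : Sch k → ℤ → Type
  [lgrp : ∀ X n, AddCommGroup (L X n)]
  [lmod : ∀ X n, Module Ω (L X n)]
  frob : ∀ X n, L X n →ₗ[Ω] L X n

attribute [instance] LowHomology.lgrp LowHomology.lmod

variable {k Ω : Type} [Field k] [Field Ω]

/-- The Frobenius acts semisimply on `L X n` for all `n`: it is annihilated by a polynomial without
repeated roots. (For `X` smooth and projective: it acts semisimply on all `H^n(X, ℚ_ℓ)`.) -/
def FrobSemisimple (T : LowHomology k Ω) (X : Sch k) : Prop :=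
  ∀ n : ℤ, ∃ p : Polynomial Ω, p.Separable ∧ Polynomial.aeval (T.frob X n) p = 0

/-- There is a surjective homomorphism `L Y m → L X n` which is compatible with the Frobenius up to a
nonzero scalar (a power of the order of `k`: a Tate twist). -/
def LOnto (T : LowHomology k Ω) (Y : Sch k) (m : ℤ) (X : Sch k) (n : ℤ) : Prop :=
  ∃ (g : T.L Y m →ₗ[Ω] T.L X n) (c : Ω), c ≠ 0 ∧ Function.Surjective g ∧
    ∀ x, T.frob X n (g x) = c • g (T.frob Y m x)

/-- Known properties of these data for the separated schemes of finite type over a finite field (all
of them follow from Deligne's theorem on weights): isomorphic schemes have isomorphic groups, the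
homomorphism to the group of an open subscheme is surjective (`opened`), the groups of `X` are
isomorphic to those of `X × 𝔾_m` in the degrees shifted by `2` (`torus`); for each `X` there are a proper
surjective morphism from a quasi-projective scheme (Chow's lemma) and an affine bundle with affine
total space over the latter (Jouanolou's trick), and for these the groups of `X` are quotients
(`cover`); for each `X` there is an alteration which is open in a smooth projective scheme (de Jong), so
that the groups of `X` are quotients of those of a smooth projective scheme (`resolution`). -/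
structure IsLowHomology (T : LowHomology k Ω) : Prop where
  iso : ∀ {X Y : Sch k}, FT True X → Nonempty (X ≅ Y) → ∀ n, LOnto T X n Y n
  opened : ∀ {Z X U : Sch k} (a : Z ⟶ X) (b : U ⟶ X), FT True X → IsTriple a b → ∀ n,
    LOnto T X n U n
  torus : ∀ (A : Type) [CommRing A] [Algebra k A] [Algebra.FiniteType k A] (n : ℤ),
    LOnto T (aff k (LaurentPolynomial A)) (n + 2) (aff k A) n
  cover : ∀ X : Sch k, FT True X → ∃ (A : Type) (_ : CommRing A) (_ : Algebra k A)
    (_ : Algebra.FiniteType k A) (r : ℤ), ∀ n, LOnto T (aff k A) (n + 2 * r) X n
  resolution : ∀ X : Sch k, FT True X → ∃ Y : Sch k, SmProj Y ∧ ∀ n, LOnto T Y n X n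

/-- The Cayley trick: the homology of the closed subscheme `f = 0` of `Spec A` is a direct summand of
the homology of the hypersurface `∑ l, f l * w_l = 0` in `Spec A × 𝔸^m`, in the degrees shifted by
`2 m`, up to a Tate twist. -/
def LowCayley (T : LowHomology k Ω) : Prop :=
  ∀ (A : Type) [CommRing A] [Algebra k A] [Algebra.FiniteType k A] (m : ℕ) (f : Fin m → A) (n : ℤ),
    LOnto T (Cay f) (n + 2 * m) (aff k (A ⧸ Ideal.span (Set.range f))) n

end Pool.Agent.Y101.Th
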