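import Pool.Agent.Y101.Th.Ax

/-!
# Principal open parts of closed subschemes of an affine scheme
-/

set_option autoImplicit false

open CategoryTheory AlgebraicGeometry

namespace Pool.Agent.Y101.Th

open Pool.Agent.Y116.UV

section

variable {A B C : Type} [CommRing A] [CommRing B] [CommRing C]

/-- The homomorphism `φ` identifies `Spec C` with a principal open part of a closed subscheme of
`Spec A`. -/
def IsLC (φ : A →+* C) : Prop :=
  ∃ s : A, IsUnit (φ s) ∧ ∀ c : C, ∃ (k : ℕ) (a : A), c * φ s ^ k = φ a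

lemma IsLC.of_surjective {φ : A →+* C} (h : Function.Surjective φ) : IsLC φ := by
  refine ⟨1, by simp, fun c => ?_⟩
  obtain ⟨a, rfl⟩ := h c
  exact ⟨0, a, by simp⟩

lemma isLC_away (s : A) : IsLC (algebraMap A (Localization.Away s)) := by
  refine ⟨s, IsLocalization.map_units (M := Submonoid.powers s) (Localization.Away s)
    ⟨s, Submonoid.mem_powers _⟩, fun c => ?_⟩
  obtain ⟨⟨a, ⟨_, k, rfl⟩⟩, h⟩ := IsLocalization.surj (Submonoid.powers s) c
  refine ⟨k, a, ?_⟩
  simpa using h

lemma IsLC.comp {φ : A →+* B} {ψ : B →+* C} (hψ : IsLC ψ) (hφ : IsLC φ) :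
    IsLC (ψ.comp φ) := by
  obtain ⟨s, hs, h1⟩ := hφ
  obtain ⟨t, ht, h2⟩ := hψ
  obtain ⟨k0, a0, h0⟩ := h1 t
  have e0 : ψ (φ a0) = ψ t * ψ (φ s) ^ k0 := by rw [← h0, map_mul, map_pow]
  refine ⟨s * a0, ?_, fun c => ?_⟩
  · rw [RingHom.comp_apply, map_mul, map_mul, e0]
    exact (hs.map ψ).mul (ht.mul ((hs.map ψ).pow k0))
  · obtain ⟨l, b, hb⟩ := h2 c
    obtain ⟨k, a, ha⟩ := h1 b
    refine ⟨l + k, a * a0 ^ k * s ^ (l + l * k0), ?_⟩
    have e1 : ψ (φ a) = c * ψ t ^ l * ψ (φ s) ^ k := by rw [← ha, map_mul, map_pow, ← hb]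
    simp only [RingHom.comp_apply, map_mul, map_pow]
    rw [e0, e1]
    ring

end

variable {R : Type} [CommRing R] {sep : Prop} {P : Sch R → Prop}

/-- The property `P` is true for all principal open parts of closed subschemes of `Spec A`. -/
def Good (P : Sch R → Prop) (A : Type) [CommRing A] [Algebra R A] : Prop :=
  ∀ (C : Type) [CommRing C] [Algebra R C] (φ : A →ₐ[R] C), IsLC (φ : A →+* C) → P (aff R C)

lemma Good.self {A : Type} [CommRing A] [Algebra R A] (h : Good P A) : P (aff R A) :=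
  h A (AlgHom.id R A) (IsLC.of_surjective fun a => ⟨a, rfl⟩)

lemma Good.comp {A C : Type} [CommRing A] [Algebra R A] [CommRing C] [Algebra R C]
    (h : Good P A) (φ : A →ₐ[R] C) (hφ : IsLC (φ : A →+* C)) : Good P C :=
  fun D _ _ ψ hψ => h D (ψ.comp φ) (IsLC.comp hψ hφ)

lemma Good.quot {A : Type} [CommRing A] [Algebra R A] (h : Good P A) (I : Ideal A) :
    Good P (A ⧸ I) :=
  h.comp (Ideal.Quotient.mkₐ R I) (IsLC.of_surjective (Ideal.Quotient.mkₐ_surjective R I))

lemma Good.away {A : Type} [CommRing A] [Algebra R A] (h : Good P A) (s : A) :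
    Good P (Localization.Away s) :=
  h.comp (IsScalarTower.toAlgHom R A (Localization.Away s)) (isLC_away s)

/-- If `P` is true for all closed subschemes of `Spec B` then it is true for all principal open
parts of closed subschemes. -/
theorem good_of_closed (hP : Uni sep P) {B : Type} [CommRing B] [Algebra R B]
    [Algebra.FiniteType R B] (h : ∀ I : Ideal B, P (aff R (B ⧸ I))) : Good P B := by
  have hsurj : ∀ (D : Type) [CommRing D] [Algebra R D] (f : B →ₐ[R] D),
      Function.Surjective f → P (aff R D) := by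
    intro D _ _ f hf
    exact iso_alg hP (Ideal.quotientKerAlgEquivOfSurjective (f := f) hf) (h (RingHom.ker f))
  rintro C _ _ φ ⟨s, hs, hc⟩
  let D : Type := B ⧸ RingHom.ker φ
  let s' : D := Ideal.Quotient.mk _ s
  have h1 : P (aff R D) := h _
  have h2 : P (aff R (D ⧸ Ideal.span {s'})) := by
    refine hsurj _ ((Ideal.Quotient.mkₐ R (Ideal.span {s'})).comp
      (Ideal.Quotient.mkₐ R (RingHom.ker φ))) ?_
    exact (Ideal.Quotient.mkₐ_surjective R _).comp (Ideal.Quotient.mkₐ_surjective R _)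
  have h3 := away_of_quot hP s' h1 h2
  let ι : D →ₐ[R] C := Ideal.Quotient.liftₐ (RingHom.ker φ) φ (fun a ha => ha)
  have hι : ∀ b, ι (Ideal.Quotient.mk _ b) = φ b := fun b => rfl
  have hinj : Function.Injective ι := by
    rw [injective_iff_map_eq_zero]
    intro x hx
    obtain ⟨b, rfl⟩ := Ideal.Quotient.mk_surjective x
    exact Ideal.Quotient.eq_zero_iff_mem.mpr hx
  let _ : Algebra D C := ι.toRingHom.toAlgebra
  have hal : ∀ d : D, algebraMap D C d = ι d := fun d => rfl
  have : IsScalarTower R D C := by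
    apply IsScalarTower.of_algebraMap_eq
    intro r
    rw [hal]
    exact (ι.commutes r).symm
  have : IsLocalization.Away s' C := by
    apply (isLocalization_iff _ _).mpr
    refine ⟨?_, ?_, ?_⟩
    · rintro ⟨_, k, rfl⟩
      rw [hal]
      change IsUnit (ι (s' ^ k))
      rw [map_pow]
      exact IsUnit.pow k hs
    · intro c
      obtain ⟨k, a, ha⟩ := hc c
      refine ⟨⟨Ideal.Quotient.mk _ a, ⟨s' ^ k, k, rfl⟩⟩, ?_⟩
      rw [hal, hal]
      change c * ι (s' ^ k) = ι (Ideal.Quotient.mk _ a)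
      rw [map_pow]
      exact ha
    · intro x y hxy
      exact ⟨1, by rw [hinj hxy]⟩
  have : Algebra.FiniteType R (Localization.Away s') :=
    Algebra.FiniteType.trans (S := D) inferInstance inferInstance
  exact iso_alg hP ((IsLocalization.algEquiv (Submonoid.powers s')
    (Localization.Away s') C).restrictScalars R) h3

end Pool.Agent.Y101.Th
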