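import Pool.Agent.Y101.Th.LC

/-!
# Systems of linear equations over a ring
-/

set_option autoImplicit false

open CategoryTheory AlgebraicGeometry MvPolynomial

namespace Pool.Agent.Y101.Th

open Pool.Agent.Y116.UV

/-- The ring `A[y] / (∑_j a_kj y_j + b_k)_k`. -/
abbrev LRing {A β κ : Type} [CommRing A] [Fintype β] (a : κ → β → A) (b : κ → A) : Type :=
  MvPolynomial β A ⧸ Ideal.span (Set.range fun k => ∑ j, C (a k j) * X j + C (b k))

section

variable (R : Type) [CommRing R]
variable {A β κ : Type} [CommRing A] [Algebra R A] [Fintype β] (a : κ → β → A) (b : κ → A)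

/-- the inclusion of `A` -/
noncomputable def inc : A →ₐ[R] LRing a b :=
  (Ideal.Quotient.mkₐ R _).comp (IsScalarTower.toAlgHom R A (MvPolynomial β A))

/-- the coordinates -/
noncomputable def yy (j : β) : LRing a b := Ideal.Quotient.mk _ (X j)

lemma inc_apply (x : A) : inc R a b x = Ideal.Quotient.mk _ (C x) := rfl

lemma rel_LRing (k : κ) : ∑ j, inc R a b (a k j) * yy a b j + inc R a b (b k) = 0 := by
  have h : (Ideal.Quotient.mk (Ideal.span (Set.range fun k => ∑ j, C (a k j) * X j + C (b k)))
      (∑ j, C (a k j) * X j + C (b k))) = 0 :=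
    Ideal.Quotient.eq_zero_iff_mem.mpr (Ideal.subset_span ⟨k, rfl⟩)
  rw [map_add, map_sum] at h
  simp only [map_mul] at h
  exact h

variable {R}
variable {D : Type} [CommRing D] [Algebra R D]

variable {a b} in
/-- the universal property -/
noncomputable def lift (i : A →ₐ[R] D) (y : β → D)
    (h : ∀ k, ∑ j, i (a k j) * y j + i (b k) = 0) : LRing a b →ₐ[R] D :=
  Ideal.Quotient.liftₐ _ (aevalTower i y) (by
    intro x hx
    have h1 : Ideal.span (Set.range fun k => ∑ j, C (a k j) * X j + C (b k)) ≤
        RingHom.ker (aevalTower i y) := by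
      rw [Ideal.span_le]
      rintro _ ⟨k, rfl⟩
      change aevalTower i y (∑ j, C (a k j) * X j + C (b k)) = 0
      rw [map_add, map_sum, aevalTower_C, ← h k]
      congr 1
      apply Finset.sum_congr rfl
      intro j _
      rw [map_mul, aevalTower_C, aevalTower_X]
    exact h1 hx)

lemma lift_inc (i : A →ₐ[R] D) (y : β → D)
    (h : ∀ k, ∑ j, i (a k j) * y j + i (b k) = 0) (x : A) :
    lift i y h (inc R a b x) = i x := by
  change aevalTower i y (C x) = i x
  rw [aevalTower_C]

lemma lift_yy (i : A →ₐ[R] D) (y : β → D)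
    (h : ∀ k, ∑ j, i (a k j) * y j + i (b k) = 0) (j : β) :
    lift i y h (yy a b j) = y j := by
  change aevalTower i y (X j) = y j
  rw [aevalTower_X]

lemma LRing_ext {f g : LRing a b →ₐ[R] D} (h1 : ∀ x, f (inc R a b x) = g (inc R a b x))
    (h2 : ∀ j, f (yy a b j) = g (yy a b j)) : f = g := by
  have h : (f : LRing a b →+* D) = g := by
    apply Ideal.Quotient.ringHom_ext
    apply MvPolynomial.ringHom_ext
    · intro x
      exact h1 x
    · intro j
      exact h2 j
  exact AlgHom.coe_ringHom_injective h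

/-- The closed part `α = 0`. -/
theorem quotL (α : A) : Nonempty ((LRing a b ⧸ Ideal.span {inc R a b α}) ≃ₐ[R]
    LRing (fun k j => Ideal.Quotient.mk (Ideal.span {α}) (a k j))
      (fun k => Ideal.Quotient.mk (Ideal.span {α}) (b k))) := by
  let a' := fun k j => Ideal.Quotient.mk (Ideal.span {α}) (a k j)
  let b' := fun k => Ideal.Quotient.mk (Ideal.span {α}) (b k)
  obtain ⟨f0, hf0, hf0y⟩ : ∃ f0 : LRing a b →ₐ[R] LRing a' b',
      (∀ x, f0 (inc R a b x) = inc R a' b' (Ideal.Quotient.mk (Ideal.span {α}) x)) ∧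
      (∀ j, f0 (yy a b j) = yy a' b' j) :=
    ⟨lift ((inc R a' b').comp (Ideal.Quotient.mkₐ R (Ideal.span {α}))) (yy a' b')
      (fun k => rel_LRing R a' b' k), fun x => lift_inc a b _ _ _ x, fun j => lift_yy a b _ _ _ j⟩
  let f : (LRing a b ⧸ Ideal.span {inc R a b α}) →ₐ[R] LRing a' b' :=
    Ideal.Quotient.liftₐ _ f0 (by
      intro x hx
      have h1 : Ideal.span {inc R a b α} ≤ RingHom.ker f0 := by
        rw [Ideal.span_le, Set.singleton_subset_iff]
        change f0 (inc R a b α) = 0
        rw [hf0, Ideal.Quotient.eq_zero_iff_mem.mpr (Ideal.mem_span_singleton_self α), map_zero]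
      exact h1 hx)
  let g0 : A →ₐ[R] (LRing a b ⧸ Ideal.span {inc R a b α}) :=
    (Ideal.Quotient.mkₐ R _).comp (inc R a b)
  let g1 : (A ⧸ Ideal.span {α}) →ₐ[R] (LRing a b ⧸ Ideal.span {inc R a b α}) :=
    Ideal.Quotient.liftₐ _ g0 (by
      intro x hx
      have h1 : Ideal.span {α} ≤ RingHom.ker g0 := by
        rw [Ideal.span_le, Set.singleton_subset_iff]
        change Ideal.Quotient.mk _ (inc R a b α) = 0
        exact Ideal.Quotient.eq_zero_iff_mem.mpr (Ideal.mem_span_singleton_self _)
      exact h1 hx)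
  obtain ⟨g, hg0, hgy⟩ : ∃ g : LRing a' b' →ₐ[R] (LRing a b ⧸ Ideal.span {inc R a b α}),
      (∀ x, g (inc R a' b' x) = g1 x) ∧
      (∀ j, g (yy a' b' j) = Ideal.Quotient.mk _ (yy a b j)) :=
    ⟨lift g1 (fun j => Ideal.Quotient.mk _ (yy a b j)) (by
      intro k
      have h := congrArg (Ideal.Quotient.mk (Ideal.span {inc R a b α})) (rel_LRing R a b k)
      rw [map_add, map_sum, map_zero] at h
      simp only [map_mul] at h
      exact h), fun x => lift_inc a' b' _ _ _ x, fun j => lift_yy a' b' _ _ _ j⟩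
  refine ⟨AlgEquiv.ofAlgHom f g ?_ ?_⟩
  · refine LRing_ext a' b' ?_ ?_
    · intro x
      obtain ⟨x, rfl⟩ := Ideal.Quotient.mk_surjective x
      rw [AlgHom.comp_apply, hg0]
      exact hf0 x
    · intro j
      rw [AlgHom.comp_apply, hgy]
      exact hf0y j
  · apply Ideal.Quotient.algHom_ext
    have h1 : g.comp f0 = Ideal.Quotient.mkₐ R (Ideal.span {inc R a b α}) := by
      refine LRing_ext (R := R) (D := LRing a b ⧸ Ideal.span {inc R a b α}) a b ?_ ?_
      · intro x
        rw [AlgHom.comp_apply, hf0, hg0]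
        rfl
      · intro j
        rw [AlgHom.comp_apply, hf0y, hgy]
        rfl
    exact h1

lemma loc_ext {B D : Type} [CommRing B] [Algebra R B] [CommRing D] [Algebra R D] (w : B)
    {f g : Localization.Away w →ₐ[R] D}
    (h : ∀ x : B, f (algebraMap B _ x) = g (algebraMap B _ x)) : f = g := by
  have h1 : (f : Localization.Away w →+* D) = g := by
    apply IsLocalization.ringHom_ext (Submonoid.powers w)
    ext x
    exact h x
  exact AlgHom.coe_ringHom_injective h1

lemma exists_loc {B D : Type} [CommRing B] [Algebra R B] [CommRing D] [Algebra R D] (w : B)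
    (f : B →ₐ[R] D) (hw : IsUnit (f w)) : ∃ g : Localization.Away w →ₐ[R] D,
    ∀ x : B, g (algebraMap B _ x) = f x :=
  ⟨IsLocalization.liftAlgHom (M := Submonoid.powers w) (f := f) (by
    rintro ⟨_, k, rfl⟩
    change IsUnit (f (w ^ k))
    rw [map_pow]
    exact hw.pow k), fun x => by
    rw [IsLocalization.liftAlgHom_apply, IsLocalization.lift_eq]
    rfl⟩

lemma isUnit_away {B : Type} [CommRing B] (w : B) :
    IsUnit (algebraMap B (Localization.Away w) w) :=
  IsLocalization.map_units (M := Submonoid.powers w) (Localization.Away w)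
    ⟨w, Submonoid.mem_powers _⟩

/-- The open part `α ≠ 0`. -/
theorem awayL (α : A) : Nonempty (Localization.Away (inc R a b α) ≃ₐ[R]
    LRing (fun k j => algebraMap A (Localization.Away α) (a k j))
      (fun k => algebraMap A (Localization.Away α) (b k))) := by
  let a' := fun k j => algebraMap A (Localization.Away α) (a k j)
  let b' := fun k => algebraMap A (Localization.Away α) (b k)
  let ι : A →ₐ[R] Localization.Away α := IsScalarTower.toAlgHom R A (Localization.Away α)
  let κ' : LRing a b →ₐ[R] Localization.Away (inc R a b α) :=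
    IsScalarTower.toAlgHom R _ _
  obtain ⟨f0, hf0, hf0y⟩ : ∃ f0 : LRing a b →ₐ[R] LRing a' b',
      (∀ x, f0 (inc R a b x) = inc R a' b' (ι x)) ∧
      (∀ j, f0 (yy a b j) = yy a' b' j) :=
    ⟨lift ((inc R a' b').comp ι) (yy a' b')
      (fun k => rel_LRing R a' b' k), fun x => lift_inc a b _ _ _ x, fun j => lift_yy a b _ _ _ j⟩
  obtain ⟨f, hf⟩ := exists_loc (inc R a b α) f0 (by
    rw [hf0]
    exact (isUnit_away α).map (inc R a' b'))
  obtain ⟨g1, hg1⟩ := exists_loc α (κ'.comp (inc R a b)) (isUnit_away _)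
  obtain ⟨g, hg0, hgy⟩ : ∃ g : LRing a' b' →ₐ[R] Localization.Away (inc R a b α),
      (∀ x, g (inc R a' b' x) = g1 x) ∧
      (∀ j, g (yy a' b' j) = κ' (yy a b j)) :=
    ⟨lift g1 (fun j => κ' (yy a b j)) (by
      intro k
      have h := congrArg κ' (rel_LRing R a b k)
      rw [map_add, map_sum, map_zero] at h
      simp only [map_mul] at h
      change ∑ j, g1 (algebraMap A _ (a k j)) * _ + g1 (algebraMap A _ (b k)) = 0
      simp only [hg1]
      exact h), fun x => lift_inc a' b' _ _ _ x, fun j => lift_yy a' b' _ _ _ j⟩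
  refine ⟨AlgEquiv.ofAlgHom f g ?_ ?_⟩
  · refine LRing_ext a' b' ?_ ?_
    · intro x
      have h1 : (f.comp g1) = inc R a' b' := by
        apply loc_ext
        intro x
        rw [AlgHom.comp_apply, hg1, AlgHom.comp_apply]
        change f (algebraMap _ _ (inc R a b x)) = _
        rw [hf, hf0]
        rfl
      rw [AlgHom.comp_apply, hg0]
      exact congrArg (fun k => k x) h1
    · intro j
      rw [AlgHom.comp_apply, hgy]
      change f (algebraMap _ _ (yy a b j)) = _
      rw [hf, hf0y]
      rfl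
  · apply loc_ext
    intro z
    rw [AlgHom.comp_apply, hf]
    have h1 : g.comp f0 = κ' := by
      refine LRing_ext a b ?_ ?_
      · intro x
        rw [AlgHom.comp_apply, hf0, hg0]
        exact hg1 x
      · intro j
        rw [AlgHom.comp_apply, hf0y, hgy]
    exact congrArg (fun k => k z) h1

end

end Pool.Agent.Y101.Th
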