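import Pool.Agent.Y101.Th.Lin

/-!
# Elimination and the induction
-/

set_option autoImplicit false

open CategoryTheory AlgebraicGeometry MvPolynomial

namespace Pool.Agent.Y101.Th

open Pool.Agent.Y116.UV

section

variable {R : Type} [CommRing R]
variable {A β κ : Type} [CommRing A] [Algebra R A] [Fintype β] (a : κ → β → A) (b : κ → A)

/-- the case `a = 0` -/
theorem zeroL (ha : ∀ k j, a k j = 0) : Nonempty (LRing a b ≃ₐ[R]
    MvPolynomial β (A ⧸ Ideal.span (Set.range b))) := by
  let E : Type := MvPolynomial β (A ⧸ Ideal.span (Set.range b))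
  let i0 : (A ⧸ Ideal.span (Set.range b)) →ₐ[R] E := IsScalarTower.toAlgHom R _ _
  let q : A →ₐ[R] (A ⧸ Ideal.span (Set.range b)) := Ideal.Quotient.mkₐ R _
  have hq : ∀ k, q (b k) = 0 := fun k =>
    Ideal.Quotient.eq_zero_iff_mem.mpr (Ideal.subset_span ⟨k, rfl⟩)
  obtain ⟨f, hf, hfy⟩ : ∃ f : LRing a b →ₐ[R] E, (∀ x, f (inc R a b x) = i0 (q x)) ∧
      (∀ j, f (yy a b j) = X j) :=
    ⟨lift (i0.comp q) X (fun k => by
      simp only [AlgHom.comp_apply]
      rw [hq, map_zero, add_zero]
      apply Finset.sum_eq_zero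
      intro j _
      rw [ha, map_zero, map_zero, zero_mul]), fun x => lift_inc a b _ _ _ x,
      fun j => lift_yy a b _ _ _ j⟩
  have hb : ∀ k, inc R a b (b k) = 0 := by
    intro k
    have h := rel_LRing R a b k
    rw [Finset.sum_eq_zero, zero_add] at h
    · exact h
    · intro j _
      rw [ha, map_zero, zero_mul]
  let g1 : (A ⧸ Ideal.span (Set.range b)) →ₐ[R] LRing a b :=
    Ideal.Quotient.liftₐ _ (inc R a b) (by
      intro x hx
      have h1 : Ideal.span (Set.range b) ≤ RingHom.ker (inc R a b) := by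
        rw [Ideal.span_le]
        rintro _ ⟨k, rfl⟩
        exact hb k
      exact h1 hx)
  let g : E →ₐ[R] LRing a b := aevalTower g1 (yy a b)
  refine ⟨AlgEquiv.ofAlgHom f g ?_ ?_⟩
  · have h1 : ((f.comp g : E →ₐ[R] E) : E →+* E) = RingHom.id E := by
      apply MvPolynomial.ringHom_ext
      · intro x
        obtain ⟨x, rfl⟩ := Ideal.Quotient.mk_surjective x
        change f (aevalTower g1 (yy a b) (C _)) = C _
        rw [aevalTower_C]
        exact hf x
      · intro j
        change f (aevalTower g1 (yy a b) (X j)) = X j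
        rw [aevalTower_X, hfy]
    exact AlgHom.coe_ringHom_injective h1
  · refine LRing_ext (R := R) a b ?_ ?_
    · intro x
      rw [AlgHom.comp_apply, hf]
      change aevalTower g1 (yy a b) (C _) = _
      rw [aevalTower_C]
      rfl
    · intro j
      rw [AlgHom.comp_apply, hfy]
      change aevalTower g1 (yy a b) (X j) = _
      rw [aevalTower_X]
      rfl

/-- Elimination of a variable. -/
theorem elimL [DecidableEq β] (k0 : κ) (j0 : β) (v : A) (hv : a k0 j0 * v = 1) :
    Nonempty (LRing a b ≃ₐ[R]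
      LRing (fun (k : κ) (j : {j : β // j ≠ j0}) => a k j.1 - a k j0 * v * a k0 j.1)
        (fun k => b k - a k j0 * v * b k0)) := by
  let a' : κ → {j : β // j ≠ j0} → A := fun k j => a k j.1 - a k j0 * v * a k0 j.1
  let b' : κ → A := fun k => b k - a k j0 * v * b k0
  let i' := inc R a' b'
  let y' := yy a' b'
  let i := inc R a b
  let y := yy a b
  let e : LRing a' b' := -(i' v * (∑ j : {j : β // j ≠ j0}, i' (a k0 j.1) * y' j + i' (b k0)))
  let Y : β → LRing a' b' := fun j => if h : j = j0 then e else y' ⟨j, h⟩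
  have hY0 : Y j0 = e := dif_pos rfl
  have hY : ∀ j : {j : β // j ≠ j0}, Y j.1 = y' j := fun j => dif_neg j.2
  have r' : ∀ k, ∑ j : {j : β // j ≠ j0}, i' (a k j.1) * y' j + i' (b k) =
      i' (a k j0) * i' v * (∑ j : {j : β // j ≠ j0}, i' (a k0 j.1) * y' j + i' (b k0)) := by
    intro k
    have h := rel_LRing R a' b' k
    have h1 : ∀ j : {j : β // j ≠ j0}, inc R a' b' (a' k j) * yy a' b' j =
        i' (a k j.1) * y' j - i' (a k j0) * i' v * (i' (a k0 j.1) * y' j) := by
      intro j
      change i' (a k j.1 - a k j0 * v * a k0 j.1) * y' j = _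
      rw [map_sub, map_mul, map_mul]
      ring
    have h2 : inc R a' b' (b' k) = i' (b k) - i' (a k j0) * i' v * i' (b k0) := by
      change i' (b k - a k j0 * v * b k0) = _
      rw [map_sub, map_mul, map_mul]
    rw [Finset.sum_congr rfl fun j _ => h1 j, h2, Finset.sum_sub_distrib, ← Finset.mul_sum] at h
    linear_combination h
  have r : ∀ k, i (a k j0) * y j0 +
      ∑ j : {j : β // j ≠ j0}, i (a k j.1) * y j.1 + i (b k) = 0 := by
    intro k
    have h := rel_LRing R a b k
    rw [Fintype.sum_eq_add_sum_subtype_ne _ j0] at h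
    exact h
  have hv' : i (a k0 j0) * i v = 1 := by rw [← map_mul, hv, map_one]
  obtain ⟨f, hf, hfy⟩ : ∃ f : LRing a b →ₐ[R] LRing a' b', (∀ x, f (i x) = i' x) ∧
      (∀ j, f (y j) = Y j) :=
    ⟨lift i' Y (fun k => by
      rw [Fintype.sum_eq_add_sum_subtype_ne _ j0, hY0]
      simp only [hY]
      have h := r' k
      change i' (a k j0) * -(i' v * (∑ j : {j : β // j ≠ j0}, i' (a k0 j.1) * y' j +
        i' (b k0))) + ∑ j : {j : β // j ≠ j0}, i' (a k j.1) * y' j + i' (b k) = 0
      linear_combination h), fun x => lift_inc a b _ _ _ x,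
      fun j => lift_yy a b _ _ _ j⟩
  obtain ⟨g, hg, hgy⟩ : ∃ g : LRing a' b' →ₐ[R] LRing a b, (∀ x, g (i' x) = i x) ∧
      (∀ j, g (y' j) = y j.1) :=
    ⟨lift i (fun j => y j.1) (fun k => by
      have h1 : ∀ j : {j : β // j ≠ j0}, i (a' k j) * y j.1 =
          i (a k j.1) * y j.1 - i (a k j0) * i v * (i (a k0 j.1) * y j.1) := by
        intro j
        change i (a k j.1 - a k j0 * v * a k0 j.1) * y j.1 = _
        rw [map_sub, map_mul, map_mul]
        ring
      have h2 : i (b' k) = i (b k) - i (a k j0) * i v * i (b k0) := by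
        change i (b k - a k j0 * v * b k0) = _
        rw [map_sub, map_mul, map_mul]
      rw [Finset.sum_congr rfl fun j _ => h1 j, h2, Finset.sum_sub_distrib, ← Finset.mul_sum]
      linear_combination r k - i (a k j0) * i v * r k0 + i (a k j0) * y j0 * hv'),
      fun x => lift_inc a' b' _ _ _ x, fun j => lift_yy a' b' _ _ _ j⟩
  refine ⟨AlgEquiv.ofAlgHom f g ?_ ?_⟩
  · refine LRing_ext (R := R) a' b' ?_ ?_
    · intro x
      change f (g (i' x)) = _
      rw [hg, hf]
      rfl
    · intro j
      change f (g (y' j)) = _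
      rw [hgy, hfy, hY]
      rfl
  · refine LRing_ext (R := R) a b ?_ ?_
    · intro x
      change g (f (i x)) = _
      rw [hf, hg]
      rfl
    · intro j
      change g (f (y j)) = y j
      rw [hfy]
      by_cases h : j = j0
      · subst h
        rw [hY0]
        change g (-(i' v * (∑ j' : {j' : β // j' ≠ j}, i' (a k0 j'.1) * y' j' + i' (b k0)))) = y j
        rw [map_neg, map_mul, map_add, map_sum, hg, hg]
        have h1 : ∀ j' : {j' : β // j' ≠ j}, g (i' (a k0 j'.1) * y' j') =
            i (a k0 j'.1) * y j'.1 := by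
          intro j'
          rw [map_mul, hg, hgy]
        rw [Finset.sum_congr rfl fun j' _ => h1 j']
        linear_combination (-(i v)) * r k0 + y j * hv'
      · have h1 := hY ⟨j, h⟩
        rw [h1, hgy]

end

end Pool.Agent.Y101.Th
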