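import Pool.Agent.Y101.Th.LinB

/-!
# Systems of linear equations: the property passes from the base to the solution scheme
-/

set_option autoImplicit false

open CategoryTheory AlgebraicGeometry MvPolynomial

namespace Pool.Agent.Y101.Th

open Pool.Agent.Y116.UV

variable {R : Type} [CommRing R] {sep : Prop} {P : Sch R → Prop}

lemma ft_mv (A β : Type) [CommRing A] [Algebra R A] [Algebra.FiniteType R A] [Finite β] :
    Algebra.FiniteType R (MvPolynomial β A) :=
  Algebra.FiniteType.trans (S := A) inferInstance inferInstance

lemma ft_L {A β κ : Type} [CommRing A] [Algebra R A] [Algebra.FiniteType R A] [Fintype β]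
    (a : κ → β → A) (b : κ → A) : Algebra.FiniteType R (LRing a b) := by
  have := ft_mv (R := R) A β
  exact Algebra.FiniteType.of_surjective (Ideal.Quotient.mkₐ R _)
    (Ideal.Quotient.mkₐ_surjective R _)

lemma ft_away (A : Type) [CommRing A] [Algebra R A] [Algebra.FiniteType R A] (w : A) :
    Algebra.FiniteType R (Localization.Away w) :=
  Algebra.FiniteType.trans (S := A) inferInstance inferInstance

lemma lin_zero (hP : UniB sep P) {A β κ : Type} [CommRing A] [Algebra R A]
    [Algebra.FiniteType R A] (hA : Good P A) [Fintype β] (a : κ → β → A) (b : κ → A)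
    (h : ∀ k j, a k j = 0) : P (aff R (LRing a b)) := by
  obtain ⟨e⟩ := zeroL (R := R) a b h
  have := ft_mv (R := R) (A ⧸ Ideal.span (Set.range b)) β
  exact iso_alg hP.toUni e.symm (poly' hP _ β (hA.quot _).self)

theorem lin (hP : UniB sep P) : ∀ (N M : ℕ) (A : Type) [CommRing A] [Algebra R A]
    [Algebra.FiniteType R A] (_ : Good P A) (β κ : Type) [Fintype β] [Fintype κ]
    (a : κ → β → A) (b : κ → A), Fintype.card β ≤ N →
    Nat.card {p : κ × β // a p.1 p.2 ≠ 0} ≤ M → P (aff R (LRing a b)) := by
  classical
  intro N
  induction N with
  | zero =>
    intro M A _ _ _ hA β κ _ _ a b hβ _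
    have h : IsEmpty β := Fintype.card_eq_zero_iff.mp (by omega)
    exact lin_zero hP hA a b fun k j => h.elim j
  | succ N ihN =>
    intro M
    induction M with
    | zero =>
      intro A _ _ _ hA β κ _ _ a b _ h
      refine lin_zero hP hA a b fun k j => ?_
      by_contra h2
      have h3 : IsEmpty {p : κ × β // a p.1 p.2 ≠ 0} := by
        rw [← not_nonempty_iff]
        intro h4
        have := Nat.card_pos (α := {p : κ × β // a p.1 p.2 ≠ 0})
        omega
      exact h3.elim ⟨(k, j), h2⟩
    | succ M ihM =>
      intro A _ _ _ hA β κ _ _ a b hβ hM
      by_cases h : ∀ k j, a k j = 0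
      · exact lin_zero hP hA a b h
      push Not at h
      obtain ⟨k0, j0, h0⟩ := h
      let α : A := a k0 j0
      have hft := ft_L (R := R) a b
      refine of_triple_away hP.toUni (inc R a b α) ?_ ?_
      · obtain ⟨e⟩ := quotL (R := R) a b α
        have hft2 := ft_L (R := R) (fun k j => Ideal.Quotient.mk (Ideal.span {α}) (a k j))
          (fun k => Ideal.Quotient.mk (Ideal.span {α}) (b k))
        refine iso_alg hP.toUni e.symm (ihM (A ⧸ Ideal.span {α}) (hA.quot _) β κ _ _ hβ ?_)
        have h1 : Nat.card {p : κ × β // Ideal.Quotient.mk (Ideal.span {α}) (a p.1 p.2) ≠ 0} <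
            Nat.card {p : κ × β // a p.1 p.2 ≠ 0} := by
          rw [Nat.card_eq_fintype_card, Nat.card_eq_fintype_card, Fintype.card_subtype,
            Fintype.card_subtype]
          apply Finset.card_lt_card
          rw [Finset.ssubset_iff_of_subset]
          · refine ⟨(k0, j0), ?_, ?_⟩
            · simp only [Finset.mem_filter, Finset.mem_univ, true_and]
              exact h0
            · simp only [Finset.mem_filter, Finset.mem_univ, true_and, not_not]
              exact Ideal.Quotient.eq_zero_iff_mem.mpr (Ideal.mem_span_singleton_self _)
          · intro p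
            simp only [Finset.mem_filter, Finset.mem_univ, true_and]
            intro hp h3
            exact hp (by rw [h3, map_zero])
        omega
      · obtain ⟨e⟩ := awayL (R := R) a b α
        obtain ⟨v, hv⟩ := (isUnit_away α).exists_right_inv
        obtain ⟨e2⟩ := elimL (R := R) (fun k j => algebraMap A (Localization.Away α) (a k j))
          (fun k => algebraMap A (Localization.Away α) (b k)) k0 j0 v hv
        have hft2 := ft_away (R := R) A α
        have hft3 := ft_L (R := R) (A := Localization.Away α)
          (fun (k : κ) (j : {j : β // j ≠ j0}) => algebraMap A (Localization.Away α) (a k j.1) -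
            algebraMap A (Localization.Away α) (a k j0) * v *
            algebraMap A (Localization.Away α) (a k0 j.1))
          (fun k => algebraMap A (Localization.Away α) (b k) -
            algebraMap A (Localization.Away α) (a k j0) * v *
            algebraMap A (Localization.Away α) (b k0))
        refine iso_alg hP.toUni (e2.symm.trans e.symm) (ihN _ (Localization.Away α) (hA.away α) _ κ
          _ _ ?_ le_rfl)
        have h5 : Fintype.card {j : β // j ≠ j0} < Fintype.card β :=
          Fintype.card_subtype_lt (x := j0) (by simp)
        omega

/-- If `P` is true for all principal open parts of closed subschemes of `Spec A` then it is true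
for the schemes of solutions of systems of linear equations over `A`. -/
theorem linear_systems (hP : UniB sep P) {A β κ : Type} [CommRing A] [Algebra R A]
    [Algebra.FiniteType R A] (hA : Good P A) [Fintype β] [Fintype κ] (a : κ → β → A)
    (b : κ → A) : P (aff R (LRing a b)) :=
  lin hP _ _ A hA β κ a b le_rfl le_rfl

end Pool.Agent.Y101.Th
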