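import Pool.Agent.Y101.Th.PairDefs
import Pool.Agent.Z125.UN.Bnd

/-!
# Perfectness of the motivic pairing is closed under closed-open decompositions
-/

set_option autoImplicit false

open CategoryTheory AlgebraicGeometry MvPolynomial

namespace Pool.Agent.Y101.Th

open Pool.Agent.Y116.UV Pool.Agent.Z125.UN

/-- two vector spaces with a pairing -/
structure Nd where
  H : Type
  [hgrp : AddCommGroup H]
  [hmod : Module ℚ H]
  C : Type
  [cgrp : AddCommGroup C]
  [cmod : Module ℚ C]
  pair : H →ₗ[ℚ] C →ₗ[ℚ] ℚ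

attribute [instance] Nd.hgrp Nd.hmod Nd.cgrp Nd.cmod

/-- the pairing is perfect -/
def Nd.Good (A : Nd) : Prop := Function.Bijective A.pair ∧ Function.Bijective A.pair.flip

/-- adjoint homomorphisms -/
structure Ar (A B : Nd) where
  f : A.H →ₗ[ℚ] B.H
  g : B.C →ₗ[ℚ] A.C
  adj : ∀ x y, B.pair (f x) y = A.pair x (g y)

lemma exact_dual {U V W : Type} [AddCommGroup U] [Module ℚ U] [AddCommGroup V] [Module ℚ V]
    [AddCommGroup W] [Module ℚ W] (f : U →ₗ[ℚ] V) (g : V →ₗ[ℚ] W) (h : Function.Exact f g) :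
    Function.Exact g.dualMap f.dualMap := by
  rw [LinearMap.exact_iff] at h ⊢
  rw [LinearMap.ker_dualMap_eq_dualAnnihilator_range, LinearMap.range_dualMap_eq_dualAnnihilator_ker,
    h]

/-- the five lemma for perfect pairings -/
theorem nd_five {A B D E F : Nd} (a : Ar A B) (b : Ar B D) (d : Ar D E) (e : Ar E F)
    (h1 : Function.Exact a.f b.f) (h2 : Function.Exact b.f d.f) (h3 : Function.Exact d.f e.f)
    (k1 : Function.Exact b.g a.g) (k2 : Function.Exact d.g b.g) (k3 : Function.Exact e.g d.g)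
    (hA : A.Good) (hB : B.Good) (hE : E.Good) (hF : F.Good) : D.Good := by
  constructor
  · refine LinearMap.bijective_of_surjective_of_bijective_of_bijective_of_injective a.f b.f d.f e.f
      a.g.dualMap b.g.dualMap d.g.dualMap e.g.dualMap A.pair B.pair D.pair E.pair F.pair
      ?_ ?_ ?_ ?_ h1 h2 h3 (exact_dual _ _ k1) (exact_dual _ _ k2) (exact_dual _ _ k3)
      hA.1.2 hB.1 hE.1 hF.1.1
    · ext x y
      exact (a.adj x y).symm
    · ext x y
      exact (b.adj x y).symm
    · ext x y
      exact (d.adj x y).symm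
    · ext x y
      exact (e.adj x y).symm
  · refine LinearMap.bijective_of_surjective_of_bijective_of_bijective_of_injective e.g d.g b.g a.g
      e.f.dualMap d.f.dualMap b.f.dualMap a.f.dualMap F.pair.flip E.pair.flip D.pair.flip
      B.pair.flip A.pair.flip
      ?_ ?_ ?_ ?_ k3 k2 k1 (exact_dual _ _ h3) (exact_dual _ _ h2) (exact_dual _ _ h1)
      hF.2.2 hE.2 hB.2 hA.2.1
    · ext x y
      exact e.adj y x
    · ext x y
      exact d.adj y x
    · ext x y
      exact b.adj y x
    · ext x y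
      exact a.adj y x

/-- direct summands -/
theorem nd_ret {A B : Nd} (s : Ar A B) (t : Ar B A) (h1 : ∀ x, t.f (s.f x) = x)
    (h2 : ∀ y, s.g (t.g y) = y) (hB : B.Good) : A.Good := by
  constructor
  · constructor
    · intro x x' hx
      have h3 : B.pair (s.f x) = B.pair (s.f x') := by
        ext y
        rw [s.adj, s.adj, hx]
      rw [← h1 x, ← h1 x', hB.1.1 h3]
    · intro φ
      obtain ⟨z, hz⟩ := hB.1.2 (φ.comp s.g)
      refine ⟨t.f z, ?_⟩
      ext y
      rw [t.adj, hz, LinearMap.comp_apply, h2]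
  · constructor
    · intro y y' hy
      have h3 : B.pair.flip (t.g y) = B.pair.flip (t.g y') := by
        ext x
        rw [LinearMap.flip_apply, LinearMap.flip_apply, ← t.adj, ← t.adj]
        exact DFunLike.congr_fun hy (t.f x)
      rw [← h2 y, ← h2 y', hB.2.1 h3]
    · intro φ
      obtain ⟨z, hz⟩ := hB.2.2 (φ.comp t.f)
      refine ⟨s.g z, ?_⟩
      ext x
      have h3 := DFunLike.congr_fun hz (s.f x)
      rw [LinearMap.flip_apply, s.adj, LinearMap.comp_apply, h1] at h3
      exact h3

variable {k : Type} [Field k] {T : Motivic k}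

/-- The groups of `X` in degree `i`, twist `n`. -/
def nde (T : Motivic k) (X : Sch k) (i n : ℤ) : Nd where
  H := T.H X i n
  C := T.C X i n
  pair := T.pair X i n

/-- Arrows from homomorphisms. -/
def arr {X X' : Sch k} {i n i' n' : ℤ} (h : PHom T X i n X' i' n') :
    Ar (nde T X i n) (nde T X' i' n') where
  f := h.f
  g := h.g
  adj := h.adj

lemma perfect_clo {Z X U : Sch k} (h : HasPSequence T Z X U)
    (hX : Perfect T X) (hU : Perfect T U) : Perfect T Z := by
  intro i j
  obtain ⟨a, b, d, h⟩ := h j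
  exact nd_five (arr (b (i + 1))) (arr (d i)) (arr (a i)) (arr (b i))
    (h i).2.1.1 (h i).2.2.1 (h i).1.1 (h i).2.1.2 (h i).2.2.2 (h i).1.2
    (hX (i + 1) j) (hU (i + 1) j) (hX i j) (hU i j)

lemma perfect_tot {Z X U : Sch k} (h : HasPSequence T Z X U)
    (hZ : Perfect T Z) (hU : Perfect T U) : Perfect T X := by
  intro i j
  obtain ⟨i, rfl⟩ : ∃ k, i = k + 1 := ⟨i - 1, by ring⟩
  obtain ⟨a, b, d, h⟩ := h j
  exact nd_five (arr (d (i + 1))) (arr (a (i + 1))) (arr (b (i + 1))) (arr (d i))
    (h (i + 1)).2.2.1 (h (i + 1)).1.1 (h i).2.1.1 (h (i + 1)).2.2.2 (h (i + 1)).1.2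
    (h i).2.1.2 (hU (i + 1 + 1) j) (hZ (i + 1) j) (hU (i + 1) j) (hZ i j)

lemma perfect_opn {Z X U : Sch k} (h : HasPSequence T Z X U)
    (hZ : Perfect T Z) (hX : Perfect T X) : Perfect T U := by
  intro i j
  obtain ⟨i, rfl⟩ : ∃ k, i = k + 1 := ⟨i - 1, by ring⟩
  obtain ⟨a, b, d, h⟩ := h j
  exact nd_five (arr (a (i + 1))) (arr (b (i + 1))) (arr (d i)) (arr (a i))
    (h (i + 1)).1.1 (h i).2.1.1 (h i).2.2.1 (h (i + 1)).1.2 (h i).2.1.2 (h i).2.2.2
    (hZ (i + 1) j) (hX (i + 1) j) (hZ i j) (hX i j)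

lemma perfect_ret {X Y : Sch k} {r : ℤ} (h : HasPRetraction T X Y r)
    (hY : Perfect T Y) : Perfect T X := by
  intro i j
  obtain ⟨s, t, h1, h2⟩ := h i j
  exact nd_ret (arr s) (arr t) h1 h2 (hY _ _)

/-- the inverse homomorphism -/
noncomputable def pinv {X Y : Sch k} {i j i' j' : ℤ} (s : PHom T X i j Y i' j')
    (hf : Function.Bijective s.f) (hg : Function.Bijective s.g) : PHom T Y i' j' X i j where
  f := (LinearEquiv.ofBijective s.f hf).symm
  g := (LinearEquiv.ofBijective s.g hg).symm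
  adj x y := by
    have h1 : s.f ((LinearEquiv.ofBijective s.f hf).symm x) = x :=
      (LinearEquiv.ofBijective s.f hf).apply_symm_apply x
    have h2 : s.g ((LinearEquiv.ofBijective s.g hg).symm y) = y :=
      (LinearEquiv.ofBijective s.g hg).apply_symm_apply y
    have h3 := s.adj ((LinearEquiv.ofBijective s.f hf).symm x)
      ((LinearEquiv.ofBijective s.g hg).symm y)
    rw [h1, h2] at h3
    exact h3.symm

lemma perfect_iso {X Y : Sch k} {r : ℤ} (h : HasPIso T X Y r) :
    Perfect T X ↔ Perfect T Y := by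
  constructor
  · intro hX i j
    obtain ⟨i, rfl⟩ : ∃ l, i = l + 2 * r := ⟨i - 2 * r, by ring⟩
    obtain ⟨j, rfl⟩ : ∃ l, j = l + r := ⟨j - r, by ring⟩
    obtain ⟨s, hf, hg⟩ := h i j
    exact nd_ret (arr (pinv s hf hg)) (arr s)
      (fun x => (LinearEquiv.ofBijective s.f hf).apply_symm_apply x)
      (fun y => (LinearEquiv.ofBijective s.g hg).symm_apply_apply y) (hX _ _)
  · intro hY i j
    obtain ⟨s, hf, hg⟩ := h i j
    exact nd_ret (arr s) (arr (pinv s hf hg))
      (fun x => (LinearEquiv.ofBijective s.f hf).symm_apply_apply x)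
      (fun y => (LinearEquiv.ofBijective s.g hg).apply_symm_apply y) (hY _ _)

lemma dim_field (k : Type) [Field k] : topologicalKrullDim (aff k k).left ≤ 1 := by
  have h : topologicalKrullDim (aff k k).left = ringKrullDim k :=
    PrimeSpectrum.topologicalKrullDim_eq_ringKrullDim k
  rw [h, ringKrullDim_eq_zero_of_field]
  exact zero_le_one

lemma perfect_space (hT : IsMotivic T) (n : ℕ) : Perfect T (aff k (MvPolynomial (Fin n) k)) := by
  have h := hT.bundle k (n + 1) (f1 k n) (aff k k) (𝟙 _) inferInstance (range_id n)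
  have h2 := (perfect_iso h).mp (hT.curves _ (ft_aff True) (dim_field k))
  have h3 := hT.iso (ft_aff True) ⟨(affIso (jouOne k n)).symm⟩
  exact (perfect_iso h3).mp h2

/-- Perfectness is closed under closed-open decompositions, affine bundles and passing from
`X × 𝔾_m` to `X`. -/
theorem bnd_perfect (hT : IsMotivic T) : Bnd True (Perfect T) where
  iso h e hX := (perfect_iso (hT.iso h e)).mp hX
  total i j h ht hZ hU := perfect_tot (hT.localization i j h ht) hZ hU
  opened i j h ht hZ hX := perfect_opn (hT.localization i j h ht) hZ hX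
  closed i j h ht hX hU := perfect_clo (hT.localization i j h ht) hX hU
  space := perfect_space hT
  jouanolou A _ _ _ m f U j hj hr h := (perfect_iso (hT.bundle A m f U j hj hr)).mpr h
  torus A _ _ _ h := perfect_ret (hT.torus A) h
  bundle A _ _ _ m f U j hj hr h := (perfect_iso (hT.bundle A m f U j hj hr)).mp h

end Pool.Agent.Y101.Th
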