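import Pool.Agent.Y101.Th.Bil

/-!
# Systems of bilinear equations with at least one equation and at least one variable
-/

set_option autoImplicit false

open CategoryTheory AlgebraicGeometry MvPolynomial

namespace Pool.Agent.Y101.Th

open Pool.Agent.Y116.UV

variable {R : Type} [CommRing R] {sep : Prop} {P : Sch R → Prop} {S : Set R}

lemma of_bilS_pos (hP : Dn sep P) {c : ℕ}
    (hB : ∀ (a b : ℕ) (t : Fin (a + 1) → Fin (b + 1) → Fin c → R), (∀ i j l, t i j l ∈ S) →
      P (bilS t))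
    {β γ κ : Type} [Fintype β] [Fintype γ] [Fintype κ] [Nonempty β] [Nonempty κ]
    (hγ : Fintype.card γ = c)
    (f : κ → MvPolynomial (β ⊕ γ) R) (hf : ∀ k, f k ∈ bilIn S β γ) :
    P (aff R (MvPolynomial (β ⊕ γ) R ⧸ Ideal.span (Set.range f))) := by
  choose T hTS hT using hf
  obtain ⟨a, ha⟩ := Nat.exists_eq_succ_of_ne_zero (Fintype.card_ne_zero (α := κ))
  obtain ⟨b, hb⟩ := Nat.exists_eq_succ_of_ne_zero (Fintype.card_ne_zero (α := β))
  let eκ : Fin (a + 1) ≃ κ := (Fintype.equivFinOfCardEq ha).symm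
  let eβ : Fin (b + 1) ≃ β := (Fintype.equivFinOfCardEq hb).symm
  let eγ := (Fintype.equivFinOfCardEq hγ).symm
  have h1 := hB _ _ (fun i j l => T (eκ i) (eβ j) (eγ l)) fun i j l => hTS _ _ _
  unfold bilS at h1
  refine dn_alg hP (Ideal.quotientEquivAlg _ _ (renameEquiv R (Equiv.sumCongr eβ eγ)) ?_) h1
  rw [Ideal.map_span]
  congr 1
  ext x
  constructor
  · rintro ⟨k, rfl⟩
    refine ⟨_, ⟨eκ.symm k, rfl⟩, ?_⟩
    have h2 := rename_bil eβ eγ (T k)
    rw [← hT k, ← h2]
    simp only [Equiv.apply_symm_apply]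
    rfl
  · rintro ⟨_, ⟨i, rfl⟩, rfl⟩
    refine ⟨eκ i, ?_⟩
    have h2 := rename_bil eβ eγ (T (eκ i))
    rw [← hT (eκ i), ← h2]
    rfl

/-- As `closed_of_bil`, for systems with at least one equation and at least one variable `y`. -/
theorem closed_of_bil_pos [IsNoetherianRing R] (hP : Dn sep P) (h0 : (0 : R) ∈ S)
    (h1 : (1 : R) ∈ S) {n : ℕ} (hHas : ∀ p : MvPolynomial (Fin n) R, Has S p)
    (hB : ∀ (a b : ℕ) (t : Fin (a + 1) → Fin (b + 1) → Fin (n + 1) → R), (∀ i j l, t i j l ∈ S) →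
      P (bilS t))
    (I : Ideal (MvPolynomial (Fin n) R)) :
    P (aff R (MvPolynomial (Fin n) R ⧸ I)) := by
  classical
  obtain ⟨G, hne, rfl⟩ : ∃ G : Finset (MvPolynomial (Fin n) R), G.Nonempty ∧
      Ideal.span (G : Set (MvPolynomial (Fin n) R)) = I := by
    obtain ⟨G, hG⟩ := (isNoetherianRing_iff_ideal_fg _).mp
      (inferInstance : IsNoetherianRing (MvPolynomial (Fin n) R)) I
    refine ⟨insert 0 G, Finset.insert_nonempty _ _, ?_⟩
    rw [Finset.coe_insert, Ideal.span_insert_zero, hG]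
  have : Nonempty G := hne.to_subtype
  obtain ⟨s, hs⟩ := exists_sys h0 hHas G
  have hs' : ∀ g : G, ∃ e, s.F e = g.1 := fun g => hs g.1 g.2
  choose e he using hs'
  have hcard : Fintype.card (Option (Fin n)) = n + 1 := by simp
  have hmem : ∀ k, bil (Option s.β) (Option (Fin n)) (cT s G e k) ∈
      bilIn S (Option s.β) (Option (Fin n)) := fun k => ⟨_, fun j o => cT_mem s G e h0 h1 k j o, rfl⟩
  have hA : P (aff R (CR s G e)) := of_bilS_pos hP hB hcard _ hmem
  let f' : Option (s.κ ⊕ G) → MvPolynomial (Option s.β ⊕ Option (Fin n)) R := fun k =>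
    k.elim (cw0 s) fun k => bil (Option s.β) (Option (Fin n)) (cT s G e k)
  have h2 : P (aff R (MvPolynomial (Option s.β ⊕ Option (Fin n)) R ⧸
      Ideal.span (Set.range f'))) := by
    apply of_bilS_pos hP hB hcard f'
    rintro (_ | k)
    · exact single_mem h0 h1 _ _
    · exact hmem k
  have h3 : Ideal.span (Set.range f') = cI s G e ⊔ Ideal.span {cw0 s} := by
    rw [cI, ← Ideal.span_union]
    congr 1
    ext x
    constructor
    · rintro ⟨_ | k, rfl⟩
      · exact Or.inr rfl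
      · exact Or.inl ⟨k, rfl⟩
    · rintro (⟨k, rfl⟩ | rfl)
      · exact ⟨some k, rfl⟩
      · exact ⟨none, rfl⟩
  rw [h3] at h2
  have h4 : P (aff R (CR s G e ⧸ Ideal.span {cwe s G e})) := by
    have E := (DoubleQuot.quotQuotEquivQuotSupₐ R (cI s G e) (Ideal.span {cw0 s})).symm
    have h5 := dn_alg (B := CR s G e ⧸ Ideal.map (Ideal.Quotient.mkₐ R (cI s G e))
      (Ideal.span {cw0 s})) hP E h2
    have h6 : Ideal.map (Ideal.Quotient.mkₐ R (cI s G e)) (Ideal.span {cw0 s}) =
        Ideal.span {cwe s G e} := by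
      rw [Ideal.map_span, Set.image_singleton]
      rfl
    rw [← h6]
    exact h5
  have h5 : P (aff R (Localization.Away (cwe s G e))) :=
    hP.opened _ _ (ft_aff sep) (triple_away (cwe s G e)) h4 hA
  obtain ⟨E⟩ := cone_iso s G e he
  have h6 : Algebra.FiniteType R (Localization.Away (cwe s G e)) := ft_away _ _
  have h7 := ft_laurent (R := R) (MvPolynomial (Fin n) R ⧸
    Ideal.span (G : Set (MvPolynomial (Fin n) R)))
  exact hP.torus _ (hP.torus _ (dn_alg hP E h5))

end Pool.Agent.Y101.Th
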