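import Pool.Agent.Y101.Th.PcDefs
import Pool.Agent.Y101.Th.Fs
import Pool.Agent.Y101.Th.Pos

/-!
# Semisimplicity of the Frobenius on the cohomology of complete varieties
-/

set_option autoImplicit false

open CategoryTheory AlgebraicGeometry MvPolynomial

namespace Pool.Agent.Y101.Th

open Pool.Agent.Y116.UV

lemma triF_homogeneous {k : Type} [CommRing k] {a b c : ℕ} (t : Fin a → Fin b → Fin c → k) :
    (triF t).IsHomogeneous 3 := by
  unfold triF
  refine IsHomogeneous.sum _ _ _ fun i _ => IsHomogeneous.sum _ _ _ fun j _ =>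
    IsHomogeneous.sum _ _ _ fun l _ => ?_
  have h := (((isHomogeneous_C (Fin a ⊕ (Fin b ⊕ Fin c)) (t i j l)).mul
    (isHomogeneous_X k (Sum.inl i))).mul (isHomogeneous_X k (Sum.inr (Sum.inl j)))).mul
    (isHomogeneous_X k (Sum.inr (Sum.inr l)))
  exact h

lemma sum_triF {k : Type} [CommRing k] {a b c : ℕ} (t : Fin a → Fin b → Fin c → k) :
    sumAlgEquiv k (Fin a) (Fin b ⊕ Fin c) (triF t) =
      ∑ i, C (∑ j, ∑ l, C (t i j l) * X (Sum.inl j) * X (Sum.inr l)) * X i := by
  unfold triF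
  simp only [map_sum, map_mul, sumAlgEquiv_C_inl, sumAlgEquiv_X_inl, sumAlgEquiv_X_inr,
    Finset.sum_mul]
  refine Finset.sum_congr rfl fun i _ => Finset.sum_congr rfl fun j _ =>
    Finset.sum_congr rfl fun l _ => ?_
  ring

/-- the affine cone over the cubic hypersurface -/
lemma tri_iso {k : Type} [CommRing k] {a b c N : ℕ} (t : Fin a → Fin b → Fin c → k)
    (e : Fin a ⊕ (Fin b ⊕ Fin c) ≃ Fin N) :
    Nonempty ((MvPolynomial (Fin N) k ⧸ Ideal.span {rename e (triF t)}) ≃ₐ[k]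
      (MvPolynomial (Fin a) (MvPolynomial (Fin b ⊕ Fin c) k) ⧸
        Ideal.span {∑ i, C (∑ j, ∑ l, C (t i j l) * X (Sum.inl j) * X (Sum.inr l)) * X i})) := by
  have e1 : (MvPolynomial (Fin a ⊕ (Fin b ⊕ Fin c)) k ⧸ Ideal.span {triF t}) ≃ₐ[k]
      (MvPolynomial (Fin N) k ⧸ Ideal.span {rename e (triF t)}) :=
    Ideal.quotientEquivAlg _ _ (renameEquiv k e) (by
      rw [Ideal.map_span, Set.image_singleton]
      rfl)
  have e2 : (MvPolynomial (Fin a ⊕ (Fin b ⊕ Fin c)) k ⧸ Ideal.span {triF t}) ≃ₐ[k]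
      (MvPolynomial (Fin a) (MvPolynomial (Fin b ⊕ Fin c) k) ⧸
        Ideal.span {∑ i, C (∑ j, ∑ l, C (t i j l) * X (Sum.inl j) * X (Sum.inr l)) * X i}) :=
    Ideal.quotientEquivAlg _ _ (sumAlgEquiv k (Fin a) (Fin b ⊕ Fin c)) (by
      rw [Ideal.map_span, Set.image_singleton, ← sum_triF]
      rfl)
  exact ⟨e1.symm.trans e2⟩

lemma ft_of_proper {R : Type} [CommRing R] {sep : Prop} {X : Sch R} (h : IsProper X.hom) :
    FT sep X where
  locallyOfFiniteType := inferInstance
  quasiCompact := inferInstance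
  separated _ := inferInstance

variable {k Ω : Type} [Field k] [Field Ω] {T : FullHomology k Ω}

lemma low_of_full (hT : IsFullHomology T) {X : Sch k} (h : FullSemisimple T X) :
    FrobSemisimple T.toLowHomology X := by
  intro n
  obtain ⟨p, hp, h0⟩ := h n
  refine ⟨p, hp, ?_⟩
  ext x
  apply hT.injective X n
  have h1 := aeval_quot (T.frob X n) (T.phi X n) (T.incl X n) (hT.compatible X n) p x
  rw [← h1, h0]
  simp

/-- from the projective cubic to the affine cone -/
lemma cone_of_cubic (hT : IsFullHomology T) {a b c : ℕ}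
    (t : Fin (a + 1) → Fin (b + 1) → Fin c → k)
    (h : ∀ X : Sch k, IsTriCubic t X → FullSemisimple T X) :
    FrobSemisimple T.toLowHomology (triS t) := by
  have hcard : Fintype.card (Fin (a + 1) ⊕ (Fin (b + 1) ⊕ Fin c)) = (a + b + c) + 2 := by
    simp only [Fintype.card_sum, Fintype.card_fin]
    ring
  let e : Fin (a + 1) ⊕ (Fin (b + 1) ⊕ Fin c) ≃ Fin ((a + b + c) + 2) :=
    Fintype.equivFinOfCardEq hcard
  obtain ⟨X, hX, hL⟩ := hT.cones (a + b + c) 3 (rename e (triF t)) (by norm_num)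
    ((triF_homogeneous t).rename_isHomogeneous)
  have h1 : FrobSemisimple T.toLowHomology X := low_of_full hT (h X ⟨a + b + c + 1, e, hX⟩)
  have h2 : FrobSemisimple T.toLowHomology
      (aff k (MvPolynomial (Fin ((a + b + c) + 2)) k ⧸ Ideal.span {rename e (triF t)})) := by
    intro n
    have h3 := fs_onto (hL (n - 2)) (h1 (n - 2))
    rwa [sub_add_cancel] at h3
  obtain ⟨E⟩ := tri_iso t e
  exact dn_alg (dn_fs hT.low) E h2

/-- projective cubics are sufficient -/
theorem full_of_cubics (hT : IsFullHomology T) {S : Set k} (h0 : (0 : k) ∈ S) (h1 : (1 : k) ∈ S)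
    (hHas : ∀ (n : ℕ) (p : MvPolynomial (Fin n) k), Has S p)
    (hC : ∀ (a b c : ℕ) (t : Fin a → Fin b → Fin c → k), (∀ i j l, t i j l ∈ S) →
      ∀ X : Sch k, IsTriCubic t X → FullSemisimple T X)
    (X : Sch k) (hX : FT True X) : FullSemisimple T X := by
  refine hT.descent (fun Y hY => ?_) X hX
  obtain ⟨A, _, _, _, r, hr⟩ := hT.low.cover Y hY.ft
  refine fs_of hr ?_
  obtain ⟨n, φ, hs⟩ := Algebra.FiniteType.iff_quotient_mvPolynomial''.mp
    (inferInstance : Algebra.FiniteType k A)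
  refine dn_alg (dn_fs hT.low) (Ideal.quotientKerAlgEquivOfSurjective (f := φ) hs)
    (closed_of_bil_pos (dn_fs hT.low) h0 h1 (hHas n) (fun a b t ht => ?_) (RingHom.ker φ))
  exact fs_tri hT.cayley t (cone_of_cubic hT t (hC _ _ _ t ht))

end Pool.Agent.Y101.Th
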