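import Pool.Agent.Y101.Th.FsDefs

/-!
# Semisimplicity of the Frobenius on the cohomology of complete varieties: definitions
-/

set_option autoImplicit false

open CategoryTheory AlgebraicGeometry

namespace Pool.Agent.Y101.Th

open Pool.Agent.Y116.UV

attribute [local instance] MvPolynomial.gradedAlgebra

open MvPolynomial in
/-- The cubic form `∑ t i j l x_i y_j z_l` in the variables `x_i`, `y_j` and `z_l`. -/
noncomputable def triF {k : Type} [CommRing k] {a b c : ℕ} (t : Fin a → Fin b → Fin c → k) :
    MvPolynomial (Fin a ⊕ (Fin b ⊕ Fin c)) k :=
  ∑ i, ∑ j, ∑ l, C (t i j l) * X (Sum.inl i) * X (Sum.inr (Sum.inl j)) * X (Sum.inr (Sum.inr l))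

variable {k Ω : Type} [Field k] [Field Ω]

/-- `X` is complete and isomorphic to a closed subscheme of `ℙ^N` whose underlying set is the set of
the zeros of the homogeneous polynomial `F` in `N + 1` variables. -/
def IsZeroLocus {N : ℕ} (F : MvPolynomial (Fin (N + 1)) k) (X : Sch k) : Prop :=
  IsProper X.hom ∧ ∃ i : X.left ⟶ Proj (MvPolynomial.homogeneousSubmodule (Fin (N + 1)) k),
    IsClosedImmersion i ∧ i ≫ prS k N = X.hom ∧
    Set.range i = {p : ProjectiveSpectrum (MvPolynomial.homogeneousSubmodule (Fin (N + 1)) k) |
      F ∈ p.asHomogeneousIdeal}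

/-- `X` is the cubic hypersurface `∑ t i j l x_i y_j z_l = 0` in the projective space with the
homogeneous coordinates `x_i`, `y_j`, `z_l` (numbered by `e`). -/
def IsTriCubic {a b c : ℕ} (t : Fin a → Fin b → Fin c → k) (X : Sch k) : Prop :=
  ∃ (N : ℕ) (e : Fin a ⊕ (Fin b ⊕ Fin c) ≃ Fin (N + 1)),
    IsZeroLocus (MvPolynomial.rename e (triF t)) X

/-- Data for the schemes `X` over the finite field `k`, in addition to the parts `L X n` of the lowest
weight: the `ℓ`-adic Borel-Moore homology `H X n = H_n(X, ℚ_ℓ)` over the algebraic closure (the dual of
`H^n_c(X, ℚ_ℓ)`, which is `H^n(X, ℚ_ℓ)` for `X` complete), with the Frobenius `phi` and the inclusion of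
`L X n`. -/
structure FullHomology (k Ω : Type) [Field k] [Field Ω] extends LowHomology k Ω where
  H : Sch k → ℤ → Type
  [hgrp : ∀ X n, AddCommGroup (H X n)]
  [hmod : ∀ X n, Module Ω (H X n)]
  phi : ∀ X n, H X n →ₗ[Ω] H X n
  incl : ∀ X n, L X n →ₗ[Ω] H X n

attribute [instance] FullHomology.hgrp FullHomology.hmod

/-- The Frobenius acts semisimply on `H X n` for all `n`, that is, on all `H^n_c(X, ℚ_ℓ)`: it is
annihilated by a polynomial without repeated roots. -/
def FullSemisimple (T : FullHomology k Ω) (X : Sch k) : Prop :=
  ∀ n : ℤ, ∃ p : Polynomial Ω, p.Separable ∧ Polynomial.aeval (T.phi X n) p = 0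

/-- The homology of projective hypersurfaces and their cones: for each homogeneous polynomial `F` of
positive degree in at least two variables, the hypersurface `F = 0` in the projective space is a complete
scheme `X`, and the groups of the lowest weight of the affine cone `F = 0` are quotients of those of `X`,
in the degrees shifted by two (the cone without its vertex is open in a line bundle over `X`). -/
def HasCones (T : LowHomology k Ω) : Prop :=
  ∀ (N d : ℕ) (F : MvPolynomial (Fin (N + 2)) k), 0 < d → F.IsHomogeneous d →
    ∃ X : Sch k, IsZeroLocus F X ∧ ∀ n,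
      LOnto T X n (aff k (MvPolynomial (Fin (N + 2)) k ⧸ Ideal.span {F})) (n + 2)

/-- Known properties: those of the parts of the lowest weight, which are subrepresentations (`injective`,
`compatible`); cones (`cones`); the Cayley trick (`cayley`); if the Frobenius acts semisimply on the
cohomology of all smooth projective schemes, then it does so on the cohomology with compact supports of
all separated schemes of finite type (`descent`: the weight filtration splits as a filtration by
Frobenius modules, and its graded pieces are subquotients of the cohomology of smooth projective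
schemes; Deligne, de Jong). -/
structure IsFullHomology (T : FullHomology k Ω) : Prop where
  low : IsLowHomology T.toLowHomology
  injective : ∀ X n, Function.Injective (T.incl X n)
  compatible : ∀ X n x, T.phi X n (T.incl X n x) = T.incl X n (T.frob X n x)
  cones : HasCones T.toLowHomology
  cayley : LowCayley T.toLowHomology
  descent : (∀ Y : Sch k, SmProj Y → FrobSemisimple T.toLowHomology Y) →
    ∀ X : Sch k, FT True X → FullSemisimple T X

end Pool.Agent.Y101.Th
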