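import Pool.Agent.Y101.Th.Bil
import Pool.Agent.Z125.UN.Dim2

/-!
# Properties that pass to open subschemes and to extensions

As in the files on closed-open decompositions, for properties of which it is not known that they pass
from a scheme and an open subscheme to the closed complement.
-/

set_option autoImplicit false

open CategoryTheory AlgebraicGeometry MvPolynomial TopologicalSpace

namespace Pool.Agent.Y101.Th.RX

open Pool.Agent.Y116.UV Pool.Agent.Y101.Th

/-- The axioms: `total` and `opened` for a closed subscheme `Z` of `X` and its complement `U`; affine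
spaces over an affine scheme; from `X × 𝔾_m` to `X`. -/
structure RU {R : Type} [CommRing R] (sep : Prop) (P : Sch R → Prop) : Prop where
  iso : ∀ {X Y : Sch R}, FT sep X → Nonempty (X ≅ Y) → P X → P Y
  total : ∀ {Z X U : Sch R} (i : Z ⟶ X) (j : U ⟶ X), FT sep X → IsTriple i j → P Z → P U → P X
  opened : ∀ {Z X U : Sch R} (i : Z ⟶ X) (j : U ⟶ X), FT sep X → IsTriple i j → P Z → P X → P U
  space : ∀ n : ℕ, P (aff R (MvPolynomial (Fin n) R))
  poly : ∀ (A : Type) [CommRing A] [Algebra R A] [Algebra.FiniteType R A] (n : ℕ),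
    P (aff R A) → P (aff R (MvPolynomial (Fin n) A))
  torus : ∀ (A : Type) [CommRing A] [Algebra R A] [Algebra.FiniteType R A],
    P (aff R (LaurentPolynomial A)) → P (aff R A)
  empty : ∀ (B : Type) [CommRing B] [Algebra R B], Subsingleton B → P (aff R B)

variable {R : Type} [CommRing R] {sep : Prop} {P : Sch R → Prop}

lemma RU.dn (hP : RU sep P) : Dn sep P where
  iso := hP.iso
  opened := hP.opened
  torus := hP.torus

lemma r_iso (hP : RU sep P) {A B : Type} [CommRing A] [CommRing B] [Algebra R A] [Algebra R B]
    [Algebra.FiniteType R A] (e : A ≃ₐ[R] B) (h : P (aff R A)) : P (aff R B) :=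
  hP.iso (ft_aff sep) ⟨affIso e.symm⟩ h

lemma r_tot (hP : RU sep P) {A : Type} [CommRing A] [Algebra R A]
    [Algebra.FiniteType R A] (w : A) (hZ : P (aff R (A ⧸ Ideal.span {w})))
    (hU : P (aff R (Localization.Away w))) : P (aff R A) :=
  hP.total _ _ (ft_aff sep) (triple_away w) hZ hU

lemma r_away (hP : RU sep P) {A : Type} [CommRing A] [Algebra R A]
    [Algebra.FiniteType R A] (w : A) (hA : P (aff R A)) (hZ : P (aff R (A ⧸ Ideal.span {w}))) :
    P (aff R (Localization.Away w)) :=
  hP.opened _ _ (ft_aff sep) (triple_away w) hZ hA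

lemma r_poly (hP : RU sep P) (A : Type) [CommRing A] [Algebra R A] [Algebra.FiniteType R A]
    (σ : Type) [Fintype σ] (h : P (aff R A)) : P (aff R (MvPolynomial σ A)) := by
  have h1 := ft_mv (R := R) A (Fin (Fintype.card σ))
  exact r_iso hP ((renameEquiv A (Fintype.equivFin σ).symm).restrictScalars R)
    (hP.poly A (Fintype.card σ) h)

lemma r_space (hP : RU sep P) (σ : Type) [Finite σ] : P (aff R (MvPolynomial σ R)) := by
  have := Fintype.ofFinite σ
  exact r_iso hP (renameEquiv R (Fintype.equivFin σ).symm) (hP.space _)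

/-- Laurent polynomial rings. -/
theorem r_laurent (hP : RU sep P) (A : Type) [CommRing A] [Algebra R A]
    [Algebra.FiniteType R A] (h : P (aff R A)) : P (aff R (LaurentPolynomial A)) := by
  have h0 : P (aff R (Polynomial A)) :=
    r_iso hP ((MvPolynomial.uniqueAlgEquiv A PUnit).restrictScalars R) (r_poly hP A PUnit h)
  have h1 : P (aff R (Polynomial A ⧸ Ideal.span {(Polynomial.X : Polynomial A)})) := by
    refine r_iso hP ?_ h
    have e : (Polynomial A ⧸ Ideal.span {(Polynomial.X : Polynomial A)}) ≃ₐ[A] A := by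
      have e1 := Polynomial.quotientSpanXSubCAlgEquiv (0 : A)
      rw [map_zero, sub_zero] at e1
      exact e1
    exact (e.restrictScalars R).symm
  have h2 := r_away hP (Polynomial.X : Polynomial A) h0 h1
  have : Algebra.FiniteType R (Localization.Away (Polynomial.X : Polynomial A)) :=
    Algebra.FiniteType.trans (S := Polynomial A) inferInstance inferInstance
  refine r_iso hP ?_ h2
  have e := IsLocalization.algEquiv (Submonoid.powers (Polynomial.X : Polynomial A))
    (Localization.Away (Polynomial.X : Polynomial A)) (LaurentPolynomial A)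
  exact e.restrictScalars R

/-- If `P` is true for all closed subschemes of `Spec B` then it is true for all principal open
parts of closed subschemes. -/
theorem r_good (hP : RU sep P) {B : Type} [CommRing B] [Algebra R B]
    [Algebra.FiniteType R B] (h : ∀ I : Ideal B, P (aff R (B ⧸ I))) : Good P B := by
  have hsurj : ∀ (D : Type) [CommRing D] [Algebra R D] (f : B →ₐ[R] D),
      Function.Surjective f → P (aff R D) := by
    intro D _ _ f hf
    exact r_iso hP (Ideal.quotientKerAlgEquivOfSurjective (f := f) hf) (h (RingHom.ker f))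
  rintro C _ _ φ ⟨s, hs, hc⟩
  let D : Type := B ⧸ RingHom.ker φ
  let s' : D := Ideal.Quotient.mk _ s
  have h1 : P (aff R D) := h _
  have h2 : P (aff R (D ⧸ Ideal.span {s'})) := by
    refine hsurj _ ((Ideal.Quotient.mkₐ R (Ideal.span {s'})).comp
      (Ideal.Quotient.mkₐ R (RingHom.ker φ))) ?_
    exact (Ideal.Quotient.mkₐ_surjective R _).comp (Ideal.Quotient.mkₐ_surjective R _)
  have h3 := r_away hP s' h1 h2
  let ι : D →ₐ[R] C := Ideal.Quotient.liftₐ (RingHom.ker φ) φ (fun a ha => ha)
  have hι : ∀ b, ι (Ideal.Quotient.mk _ b) = φ b := fun b => rfl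
  have hinj : Function.Injective ι := by
    rw [injective_iff_map_eq_zero]
    intro x hx
    obtain ⟨b, rfl⟩ := Ideal.Quotient.mk_surjective x
    exact Ideal.Quotient.eq_zero_iff_mem.mpr hx
  let _ : Algebra D C := ι.toRingHom.toAlgebra
  have hal : ∀ d : D, algebraMap D C d = ι d := fun d => rfl
  have : IsScalarTower R D C := by
    apply IsScalarTower.of_algebraMap_eq
    intro r
    rw [hal]
    exact (ι.commutes r).symm
  have : IsLocalization.Away s' C := by
    apply (isLocalization_iff _ _).mpr
    refine ⟨?_, ?_, ?_⟩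
    · rintro ⟨_, k, rfl⟩
      rw [hal]
      change IsUnit (ι (s' ^ k))
      rw [map_pow]
      exact IsUnit.pow k hs
    · intro c
      obtain ⟨k, a, ha⟩ := hc c
      refine ⟨⟨Ideal.Quotient.mk _ a, ⟨s' ^ k, k, rfl⟩⟩, ?_⟩
      rw [hal, hal]
      change c * ι (s' ^ k) = ι (Ideal.Quotient.mk _ a)
      rw [map_pow]
      exact ha
    · intro x y hxy
      exact ⟨1, by rw [hinj hxy]⟩
  have : Algebra.FiniteType R (Localization.Away s') :=
    Algebra.FiniteType.trans (S := D) inferInstance inferInstance
  exact r_iso hP ((IsLocalization.algEquiv (Submonoid.powers s')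
    (Localization.Away s') C).restrictScalars R) h3

lemma r_lin_zero (hP : RU sep P) {A β κ : Type} [CommRing A] [Algebra R A]
    [Algebra.FiniteType R A] (hA : Good P A) [Fintype β] (a : κ → β → A) (b : κ → A)
    (h : ∀ k j, a k j = 0) : P (aff R (LRing a b)) := by
  obtain ⟨e⟩ := zeroL (R := R) a b h
  have := ft_mv (R := R) (A ⧸ Ideal.span (Set.range b)) β
  exact r_iso hP e.symm (r_poly hP _ β (hA.quot _).self)

theorem r_lin (hP : RU sep P) : ∀ (N M : ℕ) (A : Type) [CommRing A] [Algebra R A]
    [Algebra.FiniteType R A] (_ : Good P A) (β κ : Type) [Fintype β] [Fintype κ]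
    (a : κ → β → A) (b : κ → A), Fintype.card β ≤ N →
    Nat.card {p : κ × β // a p.1 p.2 ≠ 0} ≤ M → P (aff R (LRing a b)) := by
  classical
  intro N
  induction N with
  | zero =>
    intro M A _ _ _ hA β κ _ _ a b hβ _
    have h : IsEmpty β := Fintype.card_eq_zero_iff.mp (by omega)
    exact r_lin_zero hP hA a b fun k j => h.elim j
  | succ N ihN =>
    intro M
    induction M with
    | zero =>
      intro A _ _ _ hA β κ _ _ a b _ h
      refine r_lin_zero hP hA a b fun k j => ?_
      by_contra h2
      have h3 : IsEmpty {p : κ × β // a p.1 p.2 ≠ 0} := by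
        rw [← not_nonempty_iff]
        intro h4
        have := Nat.card_pos (α := {p : κ × β // a p.1 p.2 ≠ 0})
        omega
      exact h3.elim ⟨(k, j), h2⟩
    | succ M ihM =>
      intro A _ _ _ hA β κ _ _ a b hβ hM
      by_cases h : ∀ k j, a k j = 0
      · exact r_lin_zero hP hA a b h
      push Not at h
      obtain ⟨k0, j0, h0⟩ := h
      let α : A := a k0 j0
      have hft := ft_L (R := R) a b
      refine r_tot hP (inc R a b α) ?_ ?_
      · obtain ⟨e⟩ := quotL (R := R) a b α
        have hft2 := ft_L (R := R) (fun k j => Ideal.Quotient.mk (Ideal.span {α}) (a k j))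
          (fun k => Ideal.Quotient.mk (Ideal.span {α}) (b k))
        refine r_iso hP e.symm (ihM (A ⧸ Ideal.span {α}) (hA.quot _) β κ _ _ hβ ?_)
        have h1 : Nat.card {p : κ × β // Ideal.Quotient.mk (Ideal.span {α}) (a p.1 p.2) ≠ 0} <
            Nat.card {p : κ × β // a p.1 p.2 ≠ 0} := by
          rw [Nat.card_eq_fintype_card, Nat.card_eq_fintype_card, Fintype.card_subtype,
            Fintype.card_subtype]
          apply Finset.card_lt_card
          rw [Finset.ssubset_iff_of_subset]
          · refine ⟨(k0, j0), ?_, ?_⟩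
            · simp only [Finset.mem_filter, Finset.mem_univ, true_and]
              exact h0
            · simp only [Finset.mem_filter, Finset.mem_univ, true_and, not_not]
              exact Ideal.Quotient.eq_zero_iff_mem.mpr (Ideal.mem_span_singleton_self _)
          · intro p
            simp only [Finset.mem_filter, Finset.mem_univ, true_and]
            intro hp h3
            exact hp (by rw [h3, map_zero])
        omega
      · obtain ⟨e⟩ := awayL (R := R) a b α
        obtain ⟨v, hv⟩ := (isUnit_away α).exists_right_inv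
        obtain ⟨e2⟩ := elimL (R := R) (fun k j => algebraMap A (Localization.Away α) (a k j))
          (fun k => algebraMap A (Localization.Away α) (b k)) k0 j0 v hv
        have hft2 := ft_away (R := R) A α
        have hft3 := ft_L (R := R) (A := Localization.Away α)
          (fun (k : κ) (j : {j : β // j ≠ j0}) => algebraMap A (Localization.Away α) (a k j.1) -
            algebraMap A (Localization.Away α) (a k j0) * v *
            algebraMap A (Localization.Away α) (a k0 j.1))
          (fun k => algebraMap A (Localization.Away α) (b k) -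
            algebraMap A (Localization.Away α) (a k j0) * v *
            algebraMap A (Localization.Away α) (b k0))
        refine r_iso hP (e2.symm.trans e.symm) (ihN _ (Localization.Away α) (hA.away α) _ κ
          _ _ ?_ le_rfl)
        have h5 : Fintype.card {j : β // j ≠ j0} < Fintype.card β :=
          Fintype.card_subtype_lt (x := j0) (by simp)
        omega

/-- If `P` is true for all principal open parts of closed subschemes of `Spec A` then it is true
for the schemes of solutions of systems of linear equations over `A`. -/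
theorem r_linear_systems (hP : RU sep P) {A β κ : Type} [CommRing A] [Algebra R A]
    [Algebra.FiniteType R A] (hA : Good P A) [Fintype β] [Fintype κ] (a : κ → β → A)
    (b : κ → A) : P (aff R (LRing a b)) :=
  r_lin hP _ _ A hA β κ a b le_rfl le_rfl

theorem r_bilinear (hP : RU sep P) {n : ℕ} (h : Good P (MvPolynomial (Fin n) R)) :
    ∀ (c : ℕ) (_ : c ≤ n + 1) (β γ κ : Type) [Fintype β] [Fintype γ] [Fintype κ]
    (_ : Fintype.card γ = c) (T : κ → β → γ → R), P (aff R (BRing T)) := by
  intro c
  induction c with
  | zero =>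
    intro _ β γ κ _ _ _ hγ T
    have hE : IsEmpty γ := Fintype.card_eq_zero_iff.mp hγ
    have h1 : Ideal.span (Set.range fun k => bil β γ (T k)) = ⊥ := by
      rw [Ideal.span_eq_bot]
      rintro _ ⟨k, rfl⟩
      change bil β γ (T k) = 0
      rw [bil_apply]
      apply Finset.sum_eq_zero
      intro j _
      rw [Finset.univ_eq_empty, Finset.sum_empty]
    have h2 : P (aff R (MvPolynomial (β ⊕ γ) R ⧸ (⊥ : Ideal (MvPolynomial (β ⊕ γ) R)))) :=
      r_iso hP (AlgEquiv.quotientBot R (MvPolynomial (β ⊕ γ) R)).symm
        (r_space hP (β ⊕ γ))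
    rw [← h1] at h2
    exact h2
  | succ c ih =>
    intro hc β γ κ _ _ _ hγ T
    have e : Option (Fin c) ≃ γ := Fintype.equivOfCardEq (by simp [hγ])
    let T' : κ → β → Option (Fin c) → R := fun k j g => T k j (e g)
    refine r_iso hP (renB e T) ?_
    change P (aff R (BRing T'))
    refine r_tot hP (z0 T') ?_ ?_
    · obtain ⟨e1⟩ := quotB T'
      exact r_iso hP e1.symm (ih (by omega) β (Fin c) κ (Fintype.card_fin c) _)
    · obtain ⟨e1⟩ := dehom T'
      have h1 : Good P (MvPolynomial (Fin c) R) :=
        good_le h (Fin c) (by rw [Fintype.card_fin]; omega)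
      have h2 : P (aff R (DRing T')) := r_linear_systems hP h1 _ _
      have hft : Algebra.FiniteType R (DRing T') := ft_L _ _
      have hft2 := ft_laurent (R := R) (DRing T')
      exact r_iso hP e1.symm (r_laurent hP _ h2)

section noetherian

variable (hP : RU sep P)

include hP

lemma r_open {A : Type} [CommRing A] [Algebra R A] [Algebra.FiniteType R A] (w : A)
    (h1 : P (aff R (A ⧸ Ideal.span {w}))) (h2 : P (aff R A)) :
    P (aff R (Localization.Away w)) :=
  hP.opened _ _ (ft_aff sep) (triple_away w) h1 h2

variable {A : Type} [CommRing A] [Algebra R A] [Algebra.FiniteType R A]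

/-- quotients of quotients -/
lemma r_quot_ideal (I J : Ideal A) (h : P (aff R (A ⧸ (I ⊔ J)))) :
    P (aff R ((A ⧸ I) ⧸ Ideal.map (Ideal.Quotient.mkₐ R I) J)) :=
  r_iso hP (DoubleQuot.quotQuotEquivQuotSupₐ R I J).symm h

/-- quotients of quotients -/
lemma r_quot_mk (I : Ideal A) (a : A) (h : P (aff R (A ⧸ (I ⊔ Ideal.span {a})))) :
    P (aff R ((A ⧸ I) ⧸ Ideal.span {Ideal.Quotient.mk I a})) := by
  have h2 : Ideal.map (Ideal.Quotient.mkₐ R I) (Ideal.span {a}) =
      Ideal.span {Ideal.Quotient.mk I a} := by
    rw [Ideal.map_span, Set.image_singleton]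
    rfl
  rw [← h2]
  exact r_quot_ideal hP I _ h


/-- If `a b = 0` then `A_a` is the localisation of `A / b`. -/
lemma r_zero_div {a b : A} (hab : a * b = 0) (h1 : P (aff R (A ⧸ Ideal.span {b})))
    (h2 : P (aff R ((A ⧸ Ideal.span {b}) ⧸ Ideal.span {Ideal.Quotient.mk (Ideal.span {b}) a}))) :
    P (aff R (Localization.Away a)) := by
  have h3 := r_open hP (Ideal.Quotient.mk (Ideal.span {b}) a) h2 h1
  -- the two localisations are isomorphic
  let B := A ⧸ Ideal.span {b}
  let S := Localization.Away (Ideal.Quotient.mk (Ideal.span {b}) a)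
  let f : A →+* S := (algebraMap B S).comp (Ideal.Quotient.mk (Ideal.span {b}))
  let _ : Algebra A S := f.toAlgebra
  have hloc : IsLocalization.Away a S := by
    have hu : IsUnit (algebraMap A S a) := IsLocalization.Away.algebraMap_isUnit
      (S := S) (Ideal.Quotient.mk (Ideal.span {b}) a)
    refine ⟨?_, ?_, ?_⟩
    · rintro ⟨_, n, rfl⟩
      change IsUnit (algebraMap A S (a ^ n))
      rw [map_pow]
      exact hu.pow n
    · intro z
      obtain ⟨⟨y, ⟨_, n, rfl⟩⟩, hy⟩ := IsLocalization.surj
        (Submonoid.powers (Ideal.Quotient.mk (Ideal.span {b}) a)) z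
      obtain ⟨y, rfl⟩ := Ideal.Quotient.mk_surjective y
      refine ⟨(y, ⟨a ^ n, n, rfl⟩), ?_⟩
      change z * algebraMap A S (a ^ n) = _
      have h4 : algebraMap A S (a ^ n) =
          algebraMap B S ((Ideal.Quotient.mk (Ideal.span {b}) a) ^ n) := by
        rw [← map_pow]
        rfl
      rw [h4]
      exact hy
    · intro x y hxy
      have h5 : algebraMap B S (Ideal.Quotient.mk _ x) = algebraMap B S (Ideal.Quotient.mk _ y) :=
        hxy
      obtain ⟨⟨_, n, rfl⟩, hc⟩ := (IsLocalization.eq_iff_exists
        (Submonoid.powers (Ideal.Quotient.mk (Ideal.span {b}) a)) S).mp h5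
      have h6 : Ideal.Quotient.mk (Ideal.span {b}) (a ^ n * x - a ^ n * y) = 0 := by
        rw [map_sub, map_mul, map_mul, map_pow]
        exact sub_eq_zero.mpr hc
      rw [Ideal.Quotient.eq_zero_iff_mem, Ideal.mem_span_singleton] at h6
      obtain ⟨c, hc⟩ := h6
      refine ⟨⟨a ^ (n + 1), n + 1, rfl⟩, ?_⟩
      change a ^ (n + 1) * x = a ^ (n + 1) * y
      have h7 : a ^ (n + 1) * x - a ^ (n + 1) * y = (a * b) * c := by
        linear_combination a * hc
      rw [hab, zero_mul, sub_eq_zero] at h7
      exact h7
  let e : Localization.Away a ≃ₐ[A] S :=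
    IsLocalization.algEquiv (Submonoid.powers a) (Localization.Away a) S
  let e2 : S ≃ₐ[R] Localization.Away a := AlgEquiv.ofRingEquiv (f := e.symm.toRingEquiv) (by
    intro r
    have h8 : algebraMap R S r = algebraMap A S (algebraMap R A r) := rfl
    change e.symm (algebraMap R S r) = _
    rw [h8, e.symm.commutes, ← IsScalarTower.algebraMap_apply])
  have : Algebra.FiniteType R S :=
    Algebra.FiniteType.trans (S := A ⧸ Ideal.span {b}) inferInstance inferInstance
  exact r_iso hP e2 h3


/-- Noetherian induction: it is enough to find, for each domain of finite type, a non-empty open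
subscheme for which the property is true. -/
theorem r_noeth [IsNoetherianRing R]
    (h0 : ∀ (B : Type) [CommRing B] [Algebra R B], Subsingleton B → P (aff R B))
    (hD : ∀ p : Ideal A, p.IsPrime → ∃ w : A ⧸ p, w ≠ 0 ∧ P (aff R (Localization.Away w))) :
    P (aff R A) := by
  have hN : IsNoetherianRing A := Algebra.FiniteType.isNoetherianRing R A
  have key : ∀ I : Ideal A, P (aff R (A ⧸ I)) := by
    intro I
    induction I using IsNoetherian.induction with
    | hgt I ih =>
    by_cases hI : I = ⊤
    · subst hI
      exact h0 _ (Ideal.Quotient.subsingleton_iff.mpr rfl)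
    by_cases hp : Ideal.IsPrime I
    · obtain ⟨w, hw, hPw⟩ := hD I hp
      obtain ⟨w, rfl⟩ := Ideal.Quotient.mk_surjective w
      refine r_tot hP _ (r_quot_mk hP I w (ih _ ?_)) hPw
      refine lt_of_le_of_ne le_sup_left fun h => hw ?_
      rw [Ideal.Quotient.eq_zero_iff_mem, h]
      exact Ideal.mem_sup_right (Ideal.mem_span_singleton_self w)
    · have h1 : ∃ a b, a * b ∈ I ∧ a ∉ I ∧ b ∉ I := by
        by_contra hcon
        push Not at hcon
        exact hp ⟨hI, fun {a b} hab => by
          by_contra h
          push Not at h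
          exact h.2 (hcon a b hab h.1)⟩
      obtain ⟨a, b, hab, ha, hb⟩ := h1
      have hJ : ∀ c, c ∉ I → I < I ⊔ Ideal.span {c} := fun c hc =>
        lt_of_le_of_ne le_sup_left fun h => hc (by
          rw [h]
          exact Ideal.mem_sup_right (Ideal.mem_span_singleton_self c))
      have hPa := r_quot_mk hP I a (ih _ (hJ a ha))
      have hPb := r_quot_mk hP I b (ih _ (hJ b hb))
      refine r_tot hP _ hPa (r_zero_div hP (b := Ideal.Quotient.mk I b) ?_ hPb ?_)
      · rw [← map_mul, Ideal.Quotient.eq_zero_iff_mem]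
        exact hab
      · have h2 := ih (I ⊔ (Ideal.span {b} ⊔ Ideal.span {a}))
          (lt_of_lt_of_le (hJ b hb) (sup_le_sup_left le_sup_left I))
        have h3 := r_quot_ideal hP I _ h2
        have h4 : Ideal.map (Ideal.Quotient.mkₐ R I) (Ideal.span {b} ⊔ Ideal.span {a}) =
            Ideal.span {Ideal.Quotient.mk I b} ⊔ Ideal.span {Ideal.Quotient.mk I a} := by
          rw [Ideal.map_sup, Ideal.map_span, Ideal.map_span, Set.image_singleton,
            Set.image_singleton]
          rfl
        rw [h4] at h3
        exact r_quot_mk hP _ _ h3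
  have h := key ⊥
  exact r_iso hP (AlgEquiv.quotientBot R A) h

/-- quotients of the polynomial ring -/
lemma r_of_surj {N : ℕ} (hA : ∀ I : Ideal (MvPolynomial (Fin N) R),
    P (aff R (MvPolynomial (Fin N) R ⧸ I))) {A : Type} [CommRing A] [Algebra R A]
    (φ : MvPolynomial (Fin N) R →ₐ[R] A) (h : Function.Surjective φ) : P (aff R A) :=
  r_iso hP (Ideal.quotientKerAlgEquivOfSurjective (f := φ) h) (hA _)

/-- locally closed subschemes of affine spaces -/
lemma r_p_emb {N : ℕ} (hA : ∀ I : Ideal (MvPolynomial (Fin N) R),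
    P (aff R (MvPolynomial (Fin N) R ⧸ I))) {L : Type} [CommRing L] [Algebra R L]
    (φ : MvPolynomial (Fin N) R →ₐ[R] L) (g : MvPolynomial (Fin N) R) (hg : IsUnit (φ g))
    (hs : ∀ a, ∃ (m : ℕ) (p : MvPolynomial (Fin N) R), φ g ^ m * a = φ p) : P (aff R L) := by
  let Q := MvPolynomial (Fin N) R ⧸ RingHom.ker φ
  let ψ : Q →ₐ[R] L := Ideal.kerLiftAlg φ
  have hψ : Function.Injective ψ := Ideal.kerLiftAlg_injective φ
  let gq : Q := Ideal.Quotient.mk _ g
  have h1 : P (aff R (Localization.Away gq)) := by
    refine r_open hP gq ?_ (hA _)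
    exact r_of_surj hP hA ((Ideal.Quotient.mkₐ R (Ideal.span {gq})).comp (Ideal.Quotient.mkₐ R _))
      ((Ideal.Quotient.mkₐ_surjective R _).comp (Ideal.Quotient.mkₐ_surjective R _))
  let _ : Algebra Q L := ψ.toRingHom.toAlgebra
  have hloc : IsLocalization.Away gq L := by
    have hgq : algebraMap Q L gq = φ g := rfl
    refine ⟨?_, ?_, ?_⟩
    · rintro ⟨_, n, rfl⟩
      change IsUnit (algebraMap Q L (gq ^ n))
      rw [map_pow, hgq]
      exact hg.pow n
    · intro z
      obtain ⟨m, p, h⟩ := hs z
      refine ⟨(Ideal.Quotient.mk _ p, ⟨gq ^ m, m, rfl⟩), ?_⟩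
      change z * algebraMap Q L (gq ^ m) = φ p
      rw [map_pow, hgq, ← h, mul_comm]
    · intro x y hxy
      refine ⟨1, ?_⟩
      rw [hψ hxy]
  let e : Localization.Away gq ≃ₐ[Q] L :=
    IsLocalization.algEquiv (Submonoid.powers gq) (Localization.Away gq) L
  let e2 : Localization.Away gq ≃ₐ[R] L := AlgEquiv.ofRingEquiv (f := e.toRingEquiv) (by
    intro r
    change e (algebraMap R (Localization.Away gq) r) = _
    rw [IsScalarTower.algebraMap_apply R Q (Localization.Away gq), e.commutes]
    exact ψ.commutes r)
  have : Algebra.FiniteType R (Localization.Away gq) :=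
    Algebra.FiniteType.trans (S := Q) inferInstance inferInstance
  exact r_iso hP e2 h1

end noetherian

section field

open Pool.Agent.Z125.UN

variable {k : Type} [Field k] {Q : Sch k → Prop} (hQ : RU sep Q)

include hQ

/-- from affine schemes of dimension at most `n` to closed subschemes of the affine space of
dimension `n + 1` -/
lemma r_dim_to_closed {n : ℕ} (h : ∀ (A : Type) [CommRing A] [Algebra k A] [Algebra.FiniteType k A],
    ringKrullDim A ≤ n → Q (aff k A)) (I : Ideal (MvPolynomial (Fin (n + 1)) k)) :
    Q (aff k (MvPolynomial (Fin (n + 1)) k ⧸ I)) := by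
  by_cases hI : I = ⊥
  · subst hI
    exact r_iso hQ (AlgEquiv.quotientBot k _).symm (hQ.space (n + 1))
  · exact h _ (dim_quot I hI)

/-- from closed subschemes of the affine space of dimension `n + 1` to affine schemes of dimension
at most `n` -/
lemma r_closed_to_dim [PerfectField k] {n : ℕ} (h : ∀ I : Ideal (MvPolynomial (Fin (n + 1)) k),
    Q (aff k (MvPolynomial (Fin (n + 1)) k ⧸ I))) (A : Type) [CommRing A] [Algebra k A]
    [Algebra.FiniteType k A] (hA : ringKrullDim A ≤ n) : Q (aff k A) := by
  refine r_noeth hQ (fun B _ _ hB => hQ.empty B hB) fun p hp => ?_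
  have hd : ringKrullDim (A ⧸ p) ≤ n := (ringKrullDim_quotient_le p).trans hA
  obtain ⟨x, hx⟩ := exists_gens k (A ⧸ p) n hd
  obtain ⟨w, hw, φ, g, h1, h2⟩ := exists_emb x hx
  exact ⟨w, hw, r_p_emb hQ h φ g h1 h2⟩

/-- From affine schemes of dimension at most `n` to all schemes of dimension at most `n`. -/
lemma r_of_affine_dim {n : ℕ} (h : ∀ (A : Type) [CommRing A] [Algebra k A]
    [Algebra.FiniteType k A], ringKrullDim A ≤ n → Q (aff k A)) (X : Sch k) (hX : FT sep X)
    (hn : topologicalKrullDim X.left ≤ n) : Q X := by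
  refine of_affine' (P := fun X => topologicalKrullDim X.left ≤ n → Q X) (sep := sep) ?_ ?_ ?_ X
    hX hn
  · intro X Y hX e hPX hY
    refine hQ.iso hX e (hPX ?_)
    obtain ⟨e⟩ := e
    let f := (Over.forget _).mapIso e
    exact (Topology.IsInducing.topologicalKrullDim_le
      (Scheme.homeoOfIso f).isInducing).trans hY
  · intro Z X U i j hX ht hZ hU hn
    refine hQ.total i j hX ht (hZ ?_) (hU ?_)
    · have h1 := (have := ht.closed; i.left.isClosedEmbedding.isInducing)
      exact h1.topologicalKrullDim_le.trans hn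
    · have h1 := (have := ht.opened; j.left.isOpenEmbedding.isInducing)
      exact h1.topologicalKrullDim_le.trans hn
  · intro A _ _ _ hA
    rw [topDim_aff] at hA
    exact h A hA

end field

end Pool.Agent.Y101.Th.RX
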