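import Pool.Agent.Y101.Th.SsDefs
import Pool.Agent.Y101.Th.CycMain

/-!
# Semisimplicity of the eigenvalue one
-/

set_option autoImplicit false

open CategoryTheory AlgebraicGeometry MvPolynomial

namespace Pool.Agent.Y101.Th

open Pool.Agent.Y116.UV

variable {k Ω : Type} [Field k] [Field Ω] {T : Homology k Ω}

lemma gen_fix {X : Sch k} {i j : ℤ}
    (h : ∀ e : T.E X i j, T.frob X i j (T.frob X i j e - e) = T.frob X i j e - e →
      T.frob X i j e = e)
    (e : T.E X i j) (he : IsGen T X i j e) : T.frob X i j e = e := by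
  obtain ⟨m, hm⟩ := he
  induction m generalizing e with
  | zero =>
    have h1 : e = 0 := hm
    rw [h1, map_zero]
  | succ m ih =>
    rw [pow_succ, Module.End.mul_apply] at hm
    have h1 := ih _ hm
    exact h e h1

/-- the property passes to quotients -/
lemma ss_quot {X U : Sch k} {i j i' j' : ℤ} (b : HHom T X i j U i' j')
    (hl : ∀ e, IsGen T U i' j' e → ∃ e', IsGen T X i j e' ∧ b.g e' = e)
    (hX : ∀ e : T.E X i j, T.frob X i j (T.frob X i j e - e) = T.frob X i j e - e →
      T.frob X i j e = e) (e : T.E U i' j')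
    (he : T.frob U i' j' (T.frob U i' j' e - e) = T.frob U i' j' e - e) :
    T.frob U i' j' e = e := by
  have h1 : IsGen T U i' j' e := by
    refine ⟨2, ?_⟩
    rw [pow_two, Module.End.mul_apply]
    change T.frob U i' j' (T.frob U i' j' e - e) - (T.frob U i' j' e - e) = 0
    rw [he, sub_self]
  obtain ⟨e', h2, rfl⟩ := hl e h1
  rw [b.frob, gen_fix hX e' h2]

lemma ss_iso {X Y : Sch k} {r : ℤ} (h : HasIso T X Y r) (hX : Semisimple T X) :
    Semisimple T Y := by
  intro i j hij
  obtain ⟨i, rfl⟩ : ∃ l, i = l + 2 * r := ⟨i - 2 * r, by ring⟩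
  obtain ⟨j, rfl⟩ : ∃ l, j = l + r := ⟨j - r, by ring⟩
  obtain ⟨s, _, hg⟩ := h i j
  intro e he
  obtain ⟨e, rfl⟩ := hg.2 e
  rw [s.frob]
  congr 1
  refine hX i j (by linarith) e (hg.1 ?_)
  rw [← s.frob, map_sub, ← s.frob]
  exact he

lemma ss_ret {X Y : Sch k} {r : ℤ} (h : HasRetraction T X Y r) (hY : Semisimple T Y) :
    Semisimple T X := by
  intro i j hij e he
  obtain ⟨s, t, _, h2⟩ := h i j
  have h3 : T.frob Y _ _ (T.frob Y _ _ (s.g e) - s.g e) = T.frob Y _ _ (s.g e) - s.g e := by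
    rw [s.frob, ← map_sub, s.frob, he]
  have h4 := hY _ _ (by linarith) _ h3
  rw [← h2 e, t.frob, h4]

/-- the property passes to open subschemes, and from `X × 𝔾_m` to `X` -/
theorem dn_ss [CharZero Ω] (hT : IsHomology T) (hK : CycKnown T) :
    Dn True (Semisimple T) where
  iso h e hX := ss_iso (hT.iso h e) hX
  opened f g hX ht hZ hX' := by
    intro i j hij
    obtain ⟨a, b, h⟩ := right_triple hT hK f g hX (ft_clo f ht.closed hX) ht i j hij
    exact ss_quot b h.2.2.2 (hX' i j hij)
  torus A _ _ _ h := ss_ret (hT.torus A) h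

/-- all affine schemes are sufficient -/
lemma ss_of_affine (hK : CycKnown T)
    (h : ∀ (A : Type) [CommRing A] [Algebra k A] [Algebra.FiniteType k A],
      Semisimple T (aff k A))
    (X : Sch k) (hX : FT True X) : Semisimple T X := by
  obtain ⟨A, B, _, _, _, _, _, _, r, s, h1⟩ := hK.presentation X hX
  intro i j hij
  obtain ⟨a, b, hab⟩ := h1 i j hij
  exact ss_quot b hab.2.2.2 (h A _ _ (by linarith))

/-- all bilinear systems are sufficient -/
theorem ss_all [CharZero Ω] (hT : IsHomology T) (hK : CycKnown T) {S : Set k}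
    (h0 : (0 : k) ∈ S) (h1 : (1 : k) ∈ S)
    (hHas : ∀ (n : ℕ) (p : MvPolynomial (Fin n) k), Has S p)
    (hB : ∀ (a b c : ℕ) (t : Fin a → Fin b → Fin c → k), (∀ i j l, t i j l ∈ S) →
      Semisimple T (bilS t))
    (X : Sch k) (hX : FT True X) : Semisimple T X := by
  refine ss_of_affine hK (fun A _ _ _ => ?_) X hX
  obtain ⟨n, φ, hs⟩ := Algebra.FiniteType.iff_quotient_mvPolynomial''.mp
    (inferInstance : Algebra.FiniteType k A)
  exact dn_alg (dn_ss hT hK) (Ideal.quotientKerAlgEquivOfSurjective (f := φ) hs)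
    (closed_of_bil (dn_ss hT hK) h0 h1 (hHas n) (fun a b t => hB a b (n + 1) t) (RingHom.ker φ))

/-- hypersurfaces defined by trilinear forms are sufficient -/
lemma ss_tri (hC : Cayley T) {a b c : ℕ} (t : Fin a → Fin b → Fin c → k)
    (h : Semisimple T (triS t)) : Semisimple T (bilS t) :=
  ss_ret (hC _ _ _) h

end Pool.Agent.Y101.Th
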