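import Pool.Agent.Y101.Th.Dehom

/-!
# Linear presentations of polynomials

Systems of linear equations whose coefficients are polynomials of degree at most one, with
coefficients in `S`, and whose solutions are the multiples of a vector of polynomials.
-/

set_option autoImplicit false

open MvPolynomial

namespace Pool.Agent.Y101.Th

open Pool.Agent.Y116.UV

variable {R : Type} [CommRing R]

/-- the affine linear form with the coefficients `v` -/
noncomputable def aff1 {n : ℕ} (v : Option (Fin n) → R) : MvPolynomial (Fin n) R :=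
  C (v none) + ∑ i, C (v (some i)) * X i

lemma aff1_zero {n : ℕ} : aff1 (fun _ : Option (Fin n) => (0 : R)) = 0 := by
  simp [aff1]

/-- A system of linear equations in the unknowns `y_none`, `y_j` (`j ∈ β`), with affine linear
coefficients, which is equivalent to `y_j = F_j y_none` for all `j ∈ β`. -/
structure Sy (S : Set R) (n : ℕ) : Type 1 where
  β : Type
  κ : Type
  [fβ : Fintype β]
  [fκ : Fintype κ]
  T : κ → Option β → Option (Fin n) → R
  F : β → MvPolynomial (Fin n) R
  mem : ∀ k j o, T k j o ∈ S
  sol : ∀ (B : Type) [CommRing B] [Algebra R B] (φ : MvPolynomial (Fin n) R →ₐ[R] B)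
    (y : Option β → B), (∀ k, ∑ j, φ (aff1 (T k j)) * y j = 0) ↔
      ∀ j, y (some j) = φ (F j) * y none

attribute [instance] Sy.fβ Sy.fκ

variable {S : Set R} {n : ℕ}

/-- the empty system -/
def Sy.empty (S : Set R) (n : ℕ) : Sy S n where
  β := Empty
  κ := Empty
  T := fun k => k.elim
  F := fun j => j.elim
  mem := fun k => k.elim
  sol := fun _ _ _ _ _ => ⟨fun _ j => j.elim, fun _ k => k.elim⟩

/-- the union of two systems -/
def Sy.union (h0 : (0 : R) ∈ S) (s t : Sy S n) : Sy S n where
  β := s.β ⊕ t.β
  κ := s.κ ⊕ t.κ
  T := Sum.elim (fun k j => j.elim (s.T k none) (Sum.elim (fun j => s.T k (some j)) fun _ _ => 0))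
    (fun k j => j.elim (t.T k none) (Sum.elim (fun _ _ => 0) fun j => t.T k (some j)))
  F := Sum.elim s.F t.F
  mem := by
    rintro (k | k) (_ | j | j) o
    · exact s.mem k none o
    · exact s.mem k (some j) o
    · exact h0
    · exact t.mem k none o
    · exact h0
    · exact t.mem k (some j) o
  sol := by
    intro B _ _ φ y
    have hs := s.sol B φ fun j => y (j.map Sum.inl)
    have ht := t.sol B φ fun j => y (j.map Sum.inr)
    have z : φ (aff1 (fun _ : Option (Fin n) => (0 : R))) = 0 := by rw [aff1_zero, map_zero]
    have h1 : ∀ k, (∑ j, φ (aff1 (s.T k j)) * y (j.map Sum.inl)) =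
        ∑ j : Option (s.β ⊕ t.β), φ (aff1 ((Sum.elim (fun k j => j.elim (s.T k none)
          (Sum.elim (fun j => s.T k (some j)) fun _ _ => 0))
          (fun k j => j.elim (t.T k none) (Sum.elim (fun _ _ => 0) fun j => t.T k (some j))) :
          s.κ ⊕ t.κ → Option (s.β ⊕ t.β) → Option (Fin n) → R) (Sum.inl k) j)) * y j := by
      intro k
      rw [Fintype.sum_option, Fintype.sum_option, Fintype.sum_sum_type]
      simp only [Sum.elim_inl, Option.elim_none, Option.elim_some, Sum.elim_inr, z, zero_mul,
        Finset.sum_const_zero, add_zero, Option.map_none, Option.map_some]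
    have h2 : ∀ k, (∑ j, φ (aff1 (t.T k j)) * y (j.map Sum.inr)) =
        ∑ j : Option (s.β ⊕ t.β), φ (aff1 ((Sum.elim (fun k j => j.elim (s.T k none)
          (Sum.elim (fun j => s.T k (some j)) fun _ _ => 0))
          (fun k j => j.elim (t.T k none) (Sum.elim (fun _ _ => 0) fun j => t.T k (some j))) :
          s.κ ⊕ t.κ → Option (s.β ⊕ t.β) → Option (Fin n) → R) (Sum.inr k) j)) * y j := by
      intro k
      rw [Fintype.sum_option, Fintype.sum_option, Fintype.sum_sum_type]
      simp only [Sum.elim_inl, Option.elim_none, Option.elim_some, Sum.elim_inr, z, zero_mul,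
        Finset.sum_const_zero, zero_add, Option.map_none, Option.map_some]
    constructor
    · intro h
      rintro (j | j)
      · exact hs.mp (fun k => (h1 k).trans (h (Sum.inl k))) j
      · exact ht.mp (fun k => (h2 k).trans (h (Sum.inr k))) j
    · intro h
      rintro (k | k)
      · exact (h1 k).symm.trans (hs.mpr (fun j => h (Sum.inl j)) k)
      · exact (h2 k).symm.trans (ht.mpr (fun j => h (Sum.inr j)) k)

/-- the value with `F_none = 1` -/
noncomputable def Sy.Fo (s : Sy S n) (j : Option s.β) : MvPolynomial (Fin n) R :=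
  j.elim 1 s.F

/-- a new unknown `y = - ∑ ρ_j y_j` -/
noncomputable def Sy.ext (h0 : (0 : R) ∈ S) (h1 : (1 : R) ∈ S) (s : Sy S n)
    (ρ : Option s.β → Option (Fin n) → R) (hρ : ∀ j o, ρ j o ∈ S) : Sy S n where
  β := Option s.β
  κ := Option s.κ
  T := fun k j => k.elim
    (j.elim (ρ none) fun j => j.elim (fun o => o.elim 1 fun _ => 0) fun j => ρ (some j))
    (fun k => j.elim (s.T k none) fun j => j.elim (fun _ => 0) fun j => s.T k (some j))
  F := fun j => j.elim (-∑ j, aff1 (ρ j) * s.Fo j) s.F
  mem := by
    rintro (_ | k) (_ | _ | j) o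
    · exact hρ none o
    · rcases o with _ | i
      · exact h1
      · exact h0
    · exact hρ (some j) o
    · exact s.mem k none o
    · exact h0
    · exact s.mem k (some j) o
  sol := by
    intro B _ _ φ y
    have hs := s.sol B φ fun j => y (j.map some)
    have z : φ (aff1 (fun _ : Option (Fin n) => (0 : R))) = 0 := by rw [aff1_zero, map_zero]
    have z1 : φ (aff1 (fun o : Option (Fin n) => o.elim (1 : R) fun _ => 0)) = 1 := by
      simp [aff1]
    have e1 : ∀ k, (∑ j, φ (aff1 (s.T k j)) * y (j.map some)) =
        ∑ j : Option (Option s.β), φ (aff1 (j.elim (s.T k none)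
          fun j => j.elim (fun _ => 0) fun j => s.T k (some j))) * y j := by
      intro k
      rw [Fintype.sum_option, Fintype.sum_option, Fintype.sum_option]
      simp only [Option.elim_none, Option.elim_some, z, zero_mul,
        zero_add, Option.map_none, Option.map_some]
    have e2 : (∑ j : Option (Option s.β), φ (aff1 (j.elim (ρ none)
          fun j => j.elim (fun o => o.elim 1 fun _ => 0) fun j => ρ (some j))) * y j) =
        y (some none) + ∑ j, φ (aff1 (ρ j)) * y (j.map some) := by
      rw [Fintype.sum_option, Fintype.sum_option, Fintype.sum_option]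
      simp only [Option.elim_none, Option.elim_some, z1, one_mul, Option.map_none,
        Option.map_some]
      ring
    have e3 : (∀ j, y (some (some j)) = φ (s.F j) * y none) →
        ∑ j, φ (aff1 (ρ j)) * y (j.map some) = φ (∑ j, aff1 (ρ j) * s.Fo j) * y none := by
      intro h
      rw [map_sum, Finset.sum_mul]
      apply Finset.sum_congr rfl
      rintro (_ | j) _
      · rw [Option.map_none, map_mul]
        change _ = φ (aff1 (ρ none)) * φ 1 * y none
        rw [map_one, mul_one]
      · rw [Option.map_some, h, map_mul]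
        change _ = φ (aff1 (ρ (some j))) * φ (s.F j) * y none
        ring
    constructor
    · intro h
      have h3 : ∀ j, y (some (some j)) = φ (s.F j) * y none :=
        hs.mp fun k => (e1 k).trans (h (some k))
      rintro (_ | j)
      · have h4 := h none
        have h5 := e2.symm.trans h4
        rw [e3 h3] at h5
        change y (some none) = φ (-∑ j, aff1 (ρ j) * s.Fo j) * y none
        rw [map_neg]
        linear_combination h5
      · exact h3 j
    · intro h
      have h3 : ∀ j, y (some (some j)) = φ (s.F j) * y none := fun j => h (some j)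
      rintro (_ | k)
      · refine e2.trans ?_
        have h4 : y (some none) = φ (-∑ j, aff1 (ρ j) * s.Fo j) * y none := h none
        rw [e3 h3, h4, map_neg]
        ring
      · exact (e1 k).symm.trans (hs.mpr h3 k)

/-- the polynomial `p` occurs in a system -/
def Has (S : Set R) {n : ℕ} (p : MvPolynomial (Fin n) R) : Prop :=
  ∃ s : Sy S n, ∃ e, s.F e = p

section

variable (h0 : (0 : R) ∈ S) (h1 : (1 : R) ∈ S)

include h0 h1

/-- the general step -/
lemma Has.step (s : Sy S n) (e : Option s.β) (v : Option (Fin n) → R) (hv : ∀ o, v o ∈ S) :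
    Has S (-(aff1 v * s.Fo e)) := by
  classical
  refine ⟨s.ext h0 h1 (fun j o => if j = e then v o else 0) (fun j o => ?_), none, ?_⟩
  · split_ifs
    · exact hv o
    · exact h0
  · change -∑ j, aff1 (fun o => if j = e then v o else 0) * s.Fo j = _
    congr 1
    rw [Finset.sum_eq_single e]
    · simp
    · intro j _ hj
      simp only [if_neg hj]
      rw [aff1_zero, zero_mul]
    · intro h
      exact absurd (Finset.mem_univ e) h

lemma has_neg {p : MvPolynomial (Fin n) R} (hp : Has S p) : Has S (-p) := by
  obtain ⟨s, e, rfl⟩ := hp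
  have h := Has.step h0 h1 s (some e) (fun o => o.elim 1 fun _ => 0) (by
    rintro (_ | i)
    · exact h1
    · exact h0)
  have h2 : aff1 (fun o : Option (Fin n) => o.elim (1 : R) fun _ => 0) = 1 := by simp [aff1]
  rw [h2, one_mul] at h
  exact h

lemma has_X {p : MvPolynomial (Fin n) R} (hp : Has S p) (i : Fin n) : Has S (p * X i) := by
  classical
  obtain ⟨s, e, rfl⟩ := hp
  have h := Has.step h0 h1 s (some e) (fun o => if o = some i then 1 else 0) (by
    intro o
    split_ifs
    · exact h1
    · exact h0)
  have h2 : aff1 (fun o : Option (Fin n) => if o = some i then (1 : R) else 0) = X i := by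
    simp [aff1]
  rw [h2] at h
  have h3 := has_neg h0 h1 h
  rw [neg_neg, mul_comm] at h3
  exact h3

lemma has_one : Has S (1 : MvPolynomial (Fin n) R) := by
  have h := Has.step h0 h1 (Sy.empty S n) none (fun o => o.elim 1 fun _ => 0) (by
    rintro (_ | i)
    · exact h1
    · exact h0)
  have h2 : aff1 (fun o : Option (Fin n) => o.elim (1 : R) fun _ => 0) = 1 := by simp [aff1]
  rw [h2, one_mul] at h
  have h3 := has_neg h0 h1 h
  rw [neg_neg] at h3
  exact h3

lemma Has.step2 (u : Sy S n) (e e' : Option u.β) (hne : e ≠ e') :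
    Has S (-(u.Fo e + u.Fo e')) := by
  classical
  refine ⟨u.ext h0 h1 (fun j o => if (j = e ∨ j = e') ∧ o = none then 1 else 0)
    (fun j o => ?_), none, ?_⟩
  · split_ifs
    · exact h1
    · exact h0
  · change -∑ j, aff1 (fun o => if (j = e ∨ j = e') ∧ o = none then 1 else 0) * u.Fo j = _
    congr 1
    rw [← Finset.sum_subset (Finset.subset_univ ({e, e'} : Finset (Option u.β))),
      Finset.sum_pair hne]
    · have h2 : aff1 (fun o : Option (Fin n) => if o = none then (1 : R) else 0) = 1 := by
        simp [aff1]
      simp only [true_or, or_true, true_and]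
      rw [h2, one_mul, one_mul]
    · intro j _ hj
      have h3 : ¬ (j = e ∨ j = e') := by
        simpa using hj
      simp only [h3, false_and, if_false]
      rw [aff1_zero, zero_mul]

lemma has_add {p q : MvPolynomial (Fin n) R} (hp : Has S p) (hq : Has S q) :
    Has S (p + q) := by
  obtain ⟨s, e, rfl⟩ := hp
  obtain ⟨t, e', rfl⟩ := hq
  have hne : (some (Sum.inl e) : Option (s.β ⊕ t.β)) ≠ some (Sum.inr e') := by simp
  have h := Has.step2 h0 h1 (Sy.union h0 s t) (some (Sum.inl e)) (some (Sum.inr e')) hne
  have h3 := has_neg h0 h1 h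
  rw [neg_neg] at h3
  exact h3

/-- All polynomials occur in systems if the constants do. -/
theorem has_all (hC : ∀ r : R, Has S (C r : MvPolynomial (Fin n) R))
    (p : MvPolynomial (Fin n) R) : Has S p := by
  induction p using MvPolynomial.induction_on with
  | C r => exact hC r
  | add p q hp hq => exact has_add h0 h1 hp hq
  | mul_X p i hp => exact has_X h0 h1 hp i

/-- all integers occur -/
lemma has_int (hR : Function.Surjective (Int.cast : ℤ → R)) (r : R) :
    Has S (C r : MvPolynomial (Fin n) R) := by
  obtain ⟨m, rfl⟩ := hR r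
  have hz : Has S (0 : MvPolynomial (Fin n) R) := by
    have h := has_add h0 h1 (has_one (n := n) h0 h1) (has_neg h0 h1 (has_one h0 h1))
    rw [add_neg_cancel] at h
    exact h
  induction m using Int.induction_on with
  | zero =>
    rw [Int.cast_zero, map_zero]
    exact hz
  | succ m ih =>
    have h := has_add h0 h1 ih (has_one h0 h1)
    push_cast at h ⊢
    rw [map_add, map_one]
    exact h
  | pred m ih =>
    have h := has_add h0 h1 ih (has_neg h0 h1 (has_one h0 h1))
    have e : (C (((-(m : ℤ) - 1 : ℤ)) : R) : MvPolynomial (Fin n) R) =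
        C (((-(m : ℤ) : ℤ)) : R) + -1 := by
      rw [Int.cast_sub, Int.cast_one, map_sub, map_one, sub_eq_add_neg]
    rw [e]
    exact h

end

/-- for arbitrary coefficients all constants occur -/
lemma has_const (r : R) : Has (Set.univ : Set R) (C r : MvPolynomial (Fin n) R) := by
  have h := Has.step (S := Set.univ) trivial trivial (Sy.empty Set.univ n) none
    (fun o => o.elim (-r) fun _ => 0) (fun _ => trivial)
  have h2 : aff1 (fun o : Option (Fin n) => o.elim (-r) fun _ => 0) = -C r := by
    simp [aff1]
  have h3 : (Sy.empty (Set.univ : Set R) n).Fo none = 1 := rfl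
  rw [h2, h3, mul_one, neg_neg] at h
  exact h

/-- a system in which the elements of a finite set of polynomials occur -/
theorem exists_sys (h0 : (0 : R) ∈ S) (h : ∀ p : MvPolynomial (Fin n) R, Has S p)
    (G : Finset (MvPolynomial (Fin n) R)) : ∃ s : Sy S n, ∀ g ∈ G, ∃ e, s.F e = g := by
  classical
  induction G using Finset.induction_on with
  | empty => exact ⟨Sy.empty S n, fun g hg => absurd hg (Finset.notMem_empty g)⟩
  | insert p G _ ih =>
    obtain ⟨s, hs⟩ := ih
    obtain ⟨t, e, he⟩ := h p
    refine ⟨Sy.union h0 s t, fun g hg => ?_⟩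
    rcases Finset.mem_insert.mp hg with rfl | hg
    · exact ⟨Sum.inr e, he⟩
    · obtain ⟨e', he'⟩ := hs g hg
      exact ⟨Sum.inl e', he'⟩

end Pool.Agent.Y101.Th
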