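import Pool.Agent.Y101.Th.PairDefs
import Pool.Agent.Y116.UV.TBDefs

/-!
# Surjectivity and injectivity of the regulators over finite fields: definitions and known facts
-/

set_option autoImplicit false

open CategoryTheory AlgebraicGeometry

namespace Pool.Agent.Y101.Th

open Pool.Agent.Y116.UV

variable {k Ω : Type} [Field k] [Field Ω]

/-- The regulators of `X` are, after extension of scalars, surjective onto the invariants of the
Frobenius in all degrees and for all twists. -/
def Onto (T : Homology k Ω) (X : Sch k) : Prop :=
  ∀ (i j : ℤ) (e : T.E X i j), T.frob X i j e = e →
    e ∈ Submodule.span Ω (Set.range (T.reg X i j))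

/-- The regulators of `X` are, after extension of scalars, injective in all degrees and for all
twists. -/
def OneToOne (T : Homology k Ω) (X : Sch k) : Prop :=
  ∀ (i j : ℤ) (r : ℕ) (x : Fin r → T.M X i j), LinearIndependent ℚ x →
    LinearIndependent Ω fun l => T.reg X i j (x l)

/-- Known facts about the conjecture of Tate and Beilinson `TB` over a finite field: it is true for the
schemes of dimension at most one (`curves`); if it is true for all smooth projective schemes of
dimension at most `d`, then for all separated schemes of finite type of dimension at most `d`
(`alterations`: de Jong, Jannsen); if the regulators are surjective onto the invariants for all smooth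
separated schemes of finite type, then it is true for all smooth projective schemes
(`surjectivity`). -/
structure TBKnown (T : Homology k Ω) : Prop where
  curves : ∀ X : Sch k, FT True X → topologicalKrullDim X.left ≤ 1 → TB T X
  alterations : ∀ d : ℕ, (∀ X : Sch k, SmProj X → topologicalKrullDim X.left ≤ d → TB T X) →
    ∀ X : Sch k, FT True X → topologicalKrullDim X.left ≤ d → TB T X
  surjectivity : (∀ X : Sch k, FT True X → Smooth X.hom → Onto T X) →
    ∀ X : Sch k, SmProj X → TB T X

end Pool.Agent.Y101.Th
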