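import Pool.Agent.Y101.Th.PairDefs
import Pool.Agent.Y101.Th.BilDefs

/-!
# Cycle classes and Galois representations: definitions
-/

set_option autoImplicit false

open CategoryTheory AlgebraicGeometry

namespace Pool.Agent.Y101.Th

open Pool.Agent.Y116.UV

/-- Data for the schemes `X` over the field `k` with absolute Galois group `G` (`Ω` is the field
`ℚ_ℓ`): the group `CH X i` of `i`-dimensional cycles modulo rational equivalence, the part `H X i` of
weight zero of the `ℓ`-adic Borel-Moore homology `H_{2 i}(X, ℚ_ℓ(i))` over the algebraic closure (the
weights of this space are not negative), the action of `G`, and the cycle class map. For `X` smooth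
and projective of dimension `d`, `H X i = H_{2 i}(X, ℚ_ℓ(i)) = H^{2 (d - i)}(X, ℚ_ℓ(d - i))`. -/
structure PureHomology (k G Ω : Type) [Field k] [Group G] [Field Ω] where
  CH : Sch k → ℤ → Type
  [cgrp : ∀ X i, AddCommGroup (CH X i)]
  H : Sch k → ℤ → Type
  [hgrp : ∀ X i, AddCommGroup (H X i)]
  [hmod : ∀ X i, Module Ω (H X i)]
  act : ∀ X i, G → H X i →ₗ[Ω] H X i
  cl : ∀ X i, CH X i →+ H X i

attribute [instance] PureHomology.cgrp PureHomology.hgrp PureHomology.hmod

variable {k G Ω : Type} [Field k] [Group G] [Field Ω]

/-- The space spanned by the cycle classes. -/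
def Alg (T : PureHomology k G Ω) (X : Sch k) (i : ℤ) : Submodule Ω (T.H X i) :=
  Submodule.span Ω (Set.range (T.cl X i))

/-- The invariant elements. -/
def Inv (T : PureHomology k G Ω) (X : Sch k) (i : ℤ) : Submodule Ω (T.H X i) where
  carrier := {x | ∀ g, T.act X i g x = x}
  add_mem' hx hy g := by rw [map_add, hx g, hy g]
  zero_mem' g := map_zero _
  smul_mem' c x hx g := by rw [map_smul, hx g]

/-- The representation `T.H X i / W` has no subquotient `B / A` which is not zero and on which `G`
acts trivially. -/
def NoTrivial (T : PureHomology k G Ω) (X : Sch k) (i : ℤ) (W : Submodule Ω (T.H X i)) : Prop :=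
  ∀ A B : Submodule Ω (T.H X i), (∀ g, ∀ x ∈ A, T.act X i g x ∈ A) → W ≤ A → A ≤ B →
    (∀ g, ∀ x ∈ B, T.act X i g x - x ∈ A) → B ≤ A

/-- **The Tate conjecture in Jannsen's form**, for all cycles on `X`: the quotient of `T.H X i` by the
space of the algebraic classes has no trivial subquotient. (For `X` smooth and projective: all
invariant elements are combinations of cycle classes, and there are no further trivial
subquotients.) -/
def StrongTate (T : PureHomology k G Ω) (X : Sch k) : Prop :=
  ∀ i : ℤ, NoTrivial T X i (Alg T X i)

/-- The multiplicity of the trivial representation in the composition series of `T.H X i` is the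
dimension of the space of invariants; this is true if the representation is semisimple. -/
def Splits (T : PureHomology k G Ω) (X : Sch k) : Prop :=
  ∀ i : ℤ, NoTrivial T X i (Inv T X i)

/-- **Tate's statement** for `X`: the rank of the group of the cycle classes (the dimension of their
`ℚ`-span) is the dimension of the space of invariants. Here: for all `n`, this dimension is at least
`n` if and only if there are `n` classes which are linearly independent over `ℤ`. -/
def TateRank (T : PureHomology k G Ω) (X : Sch k) : Prop :=
  ∀ (i : ℤ) (n : ℕ), n ≤ Module.finrank Ω (Inv T X i) ↔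
    ∃ x : Fin n → T.CH X i, ∀ c : Fin n → ℤ, ∑ l, c l • T.cl X i (x l) = 0 → c = 0

/-- Homomorphisms of cycle groups and of homology groups. -/
structure CHom (T : PureHomology k G Ω) (X : Sch k) (i : ℤ) (Y : Sch k) (j : ℤ) where
  f : T.CH X i →+ T.CH Y j
  h : T.H X i →ₗ[Ω] T.H Y j
  cl : ∀ x, T.cl Y j (f x) = h (T.cl X i x)
  act : ∀ g x, T.act Y j g (h x) = h (T.act X i g x)

/-- An isomorphism of the homology groups, compatible with cycles. -/
def HIso (T : PureHomology k G Ω) (X : Sch k) (i : ℤ) (Y : Sch k) (j : ℤ) : Prop :=
  ∃ b : CHom T X i Y j, Function.Bijective b.h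

/-- A surjection of the homology groups, compatible with cycles. -/
def HOnto (T : PureHomology k G Ω) (X : Sch k) (i : ℤ) (Y : Sch k) (j : ℤ) : Prop :=
  ∃ b : CHom T X i Y j, Function.Surjective b.h

/-- The sequences `Z → X → U → 0` of cycle groups and of homology groups are exact. -/
def HRight (T : PureHomology k G Ω) (Z X U : Sch k) (i : ℤ) : Prop :=
  ∃ (a : CHom T Z i X i) (b : CHom T X i U i), Function.Exact a.f b.f ∧
    Function.Surjective b.f ∧ Function.Exact a.h b.h ∧ Function.Surjective b.h

/-- Classes of cycles on `X` which are linearly independent over `ℤ` are so over `Ω`. -/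
def Comparison (T : PureHomology k G Ω) (X : Sch k) : Prop :=
  ∀ (i : ℤ) (n : ℕ) (x : Fin n → T.CH X i),
    (∀ c : Fin n → ℤ, ∑ l, c l • T.cl X i (x l) = 0 → c = 0) →
    LinearIndependent Ω fun l => T.cl X i (x l)

/-- There is a smooth projective scheme of at most the same dimension whose homology is mapped onto
the homology of `X`. -/
def Resolved (T : PureHomology k G Ω) (X : Sch k) : Prop :=
  ∃ Y : Sch k, SmProj Y ∧ topologicalKrullDim Y.left ≤ topologicalKrullDim X.left ∧
    ∀ i, HOnto T Y i X i

/-- Known properties of these data, for the separated schemes of finite type over a field `k` of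
characteristic zero: finite dimension, action of the group, invariance of the classes, isomorphism
invariance; right
exactness of the localisation sequences (`localization`; weights: Deligne); affine spaces over an
affine scheme (`bundle`); specialisation to the unit section of `X × 𝔾_m` (`torus`); the cases of a
point and of the empty scheme; comparison with singular homology (`comparison`); each `X` is an open
subscheme of a proper scheme `X'` of the same dimension, and there is a proper surjective morphism to
`X'` from a smooth projective scheme `Y` of the same dimension (`resolution`; Nagata, Hironaka,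
Deligne). -/
structure IsPureHomology (T : PureHomology k G Ω) : Prop where
  finite : ∀ X i, FiniteDimensional Ω (T.H X i)
  act_one : ∀ X i x, T.act X i 1 x = x
  act_mul : ∀ X i g g' x, T.act X i (g * g') x = T.act X i g (T.act X i g' x)
  invariant : ∀ X i g x, T.act X i g (T.cl X i x) = T.cl X i x
  iso : ∀ {X Y : Sch k}, FT True X → Nonempty (X ≅ Y) → ∀ i, HIso T X i Y i
  localization : ∀ {Z X U : Sch k} (f : Z ⟶ X) (g : U ⟶ X), FT True X → IsTriple f g → ∀ i,
    HRight T Z X U i
  bundle : ∀ (A : Type) [CommRing A] [Algebra k A] [Algebra.FiniteType k A] (n : ℕ) (i : ℤ),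
    HIso T (aff k A) i (aff k (MvPolynomial (Fin n) A)) (i + n)
  torus : ∀ (A : Type) [CommRing A] [Algebra k A] [Algebra.FiniteType k A] (i : ℤ),
    HOnto T (aff k (LaurentPolynomial A)) (i + 1) (aff k A) i
  point : ∀ i, Alg T (aff k k) i = ⊤
  empty : ∀ (B : Type) [CommRing B] [Algebra k B], Subsingleton B → ∀ i,
    Subsingleton (T.H (aff k B) i)
  comparison : ∀ X : Sch k, SmProj X → Comparison T X
  resolution : ∀ X : Sch k, FT True X → Resolved T X

end Pool.Agent.Y101.Th
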