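import Pool.Agent.Y101.Th.Dehom

/-!
# From closed subschemes of affine spaces to the hypersurfaces `t(x, y, z) = 1`
-/

set_option autoImplicit false

open CategoryTheory AlgebraicGeometry MvPolynomial TopologicalSpace

namespace Pool.Agent.Y101.Th

open Pool.Agent.Y116.UV

variable {R : Type} [CommRing R] {sep : Prop} {P : Sch R → Prop}

/-- the closed subscheme `f = 0` and its complement -/
lemma triple_ne {A : Type} [CommRing A] [Algebra R A] {m : ℕ} (f : Fin m → A) :
    IsTriple (affMap (Ideal.Quotient.mkₐ R (Ideal.span (Set.range f))))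
      (opnMap (aff R A) (neOpen R f)) where
  closed := closed_affMap _ (Ideal.Quotient.mkₐ_surjective R _)
  opened := inferInstance
  compl := by
    rw [range_affMap _ (Ideal.Quotient.mkₐ_surjective R _), range_opnMap]
    ext x
    change (∀ a, Ideal.Quotient.mk (Ideal.span (Set.range f)) a = 0 → a ∈ x.asIdeal) ↔
      ¬ ∃ l, f l ∉ x.asIdeal
    push Not
    constructor
    · intro h l
      exact h (f l) (Ideal.Quotient.eq_zero_iff_mem.mpr (Ideal.subset_span ⟨l, rfl⟩))
    · intro h a ha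
      rw [Ideal.Quotient.eq_zero_iff_mem] at ha
      refine (Ideal.span_le.mpr ?_ : Ideal.span (Set.range f) ≤ x.asIdeal) ha
      rintro _ ⟨l, rfl⟩
      exact h l

/-- The affine bundle over the complement of `f = 0`. -/
lemma jou_of (hP : UniB sep P) {A : Type} [CommRing A] [Algebra R A] [Algebra.FiniteType R A]
    {m : ℕ} (f : Fin m → A) (hA : P (aff R A))
    (hZ : P (aff R (A ⧸ Ideal.span (Set.range f)))) : P (aff R (Jou f)) := by
  refine hP.bundle A m f (opn (aff R A) (neOpen R f)) (opnMap (aff R A) (neOpen R f))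
    inferInstance (range_opnMap _ _) ?_
  exact hP.opened _ _ (ft_aff sep) (triple_ne f) hZ hA

lemma space' (hP : Uni sep P) (σ : Type) [Finite σ] : P (aff R (MvPolynomial σ R)) := by
  have := Fintype.ofFinite σ
  exact iso_alg hP (renameEquiv R (Fintype.equivFin σ).symm) (hP.space _)

section

variable {β γ κ : Type} [Fintype β] [Fintype γ]

/-- the coordinate `z_0` -/
noncomputable def z0 (T : κ → β → Option γ → R) : BRing T :=
  Ideal.Quotient.mk (Ideal.span (Set.range fun k => bil β (Option γ) (T k))) (X (Sum.inr none))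

/-- The ring of the part `z_0 = 0`. -/
abbrev ZRing (T : κ → β → Option γ → R) : Type := BRing T ⧸ Ideal.span {z0 T}

/-- The part `z_0 = 0`. -/
theorem quotB (T : κ → β → Option γ → R) :
    Nonempty (ZRing T ≃ₐ[R] BRing fun k j g => T k j (some g)) := by
  let T' : κ → β → γ → R := fun k j g => T k j (some g)
  obtain ⟨q', hq'⟩ : ∃ q' : MvPolynomial (β ⊕ γ) R →ₐ[R] BRing T',
      ∀ x, q' x = Ideal.Quotient.mk _ x := ⟨Ideal.Quotient.mkₐ R _, fun _ => rfl⟩
  have hk' : ∀ k, q' (bil β γ (T' k)) = 0 := fun k => by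
    rw [hq']
    exact Ideal.Quotient.eq_zero_iff_mem.mpr (Ideal.subset_span ⟨k, rfl⟩)
  obtain ⟨φ, hy, h0, hz⟩ : ∃ φ : MvPolynomial (β ⊕ Option γ) R →ₐ[R] MvPolynomial (β ⊕ γ) R,
      (∀ j, φ (X (Sum.inl j)) = X (Sum.inl j)) ∧ φ (X (Sum.inr none)) = 0 ∧
      (∀ g, φ (X (Sum.inr (some g))) = X (Sum.inr g)) := by
    refine ⟨aeval (Sum.elim (fun j => X (Sum.inl j)) fun o => o.elim 0 fun g => X (Sum.inr g)),
      fun j => ?_, ?_, fun g => ?_⟩
    · rw [aeval_X, Sum.elim_inl]
    · rw [aeval_X, Sum.elim_inr, Option.elim_none]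
    · rw [aeval_X, Sum.elim_inr, Option.elim_some]
  have hφ : ∀ k, φ (bil β (Option γ) (T k)) = bil β γ (T' k) := by
    intro k
    rw [bil_value, bil_apply]
    apply Finset.sum_congr rfl
    intro j _
    rw [hy, h0, mul_zero, zero_add, Finset.mul_sum]
    apply Finset.sum_congr rfl
    intro g _
    rw [hz, algebraMap_eq]
    ring
  obtain ⟨f0, hf0⟩ := bring_lift T (BRing T') (q'.comp φ) (fun k => by
    rw [AlgHom.comp_apply, hφ, hk'])
  obtain ⟨f, hf⟩ : ∃ f : ZRing T →ₐ[R] BRing T', ∀ x, f (Ideal.Quotient.mk _ x) = f0 x :=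
    ⟨Ideal.Quotient.liftₐ _ f0 (by
      intro x hx
      have h1 : Ideal.span {z0 T} ≤ RingHom.ker f0 := by
        rw [Ideal.span_le, Set.singleton_subset_iff]
        change f0 (Ideal.Quotient.mk _ _) = 0
        rw [hf0, AlgHom.comp_apply, h0, map_zero]
      exact h1 hx), fun _ => rfl⟩
  obtain ⟨p, hp⟩ : ∃ p : MvPolynomial (β ⊕ Option γ) R →ₐ[R] ZRing T,
      ∀ x, p x = Ideal.Quotient.mk _ (Ideal.Quotient.mk _ x) :=
    ⟨(Ideal.Quotient.mkₐ R _).comp (Ideal.Quotient.mkₐ R _), fun _ => rfl⟩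
  have hpk : ∀ k, p (bil β (Option γ) (T k)) = 0 := fun k => by
    have h1 : (Ideal.Quotient.mk (Ideal.span (Set.range fun k => bil β (Option γ) (T k)))
        (bil β (Option γ) (T k)) : BRing T) = 0 :=
      Ideal.Quotient.eq_zero_iff_mem.mpr (Ideal.subset_span ⟨k, rfl⟩)
    rw [hp, h1, map_zero]
  have hp0 : p (X (Sum.inr none)) = 0 := by
    rw [hp]
    exact Ideal.Quotient.eq_zero_iff_mem.mpr (Ideal.mem_span_singleton_self _)
  have hpφ : ∀ x, p (rename (Sum.map id some) (φ x)) = p x := by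
    have h1 : (p.comp (rename (Sum.map id some))).comp φ = p := by
      apply MvPolynomial.algHom_ext
      rintro (j | _ | g)
      · rw [AlgHom.comp_apply, AlgHom.comp_apply, hy, rename_X]
        rfl
      · rw [AlgHom.comp_apply, AlgHom.comp_apply, h0, map_zero, map_zero, hp0]
      · rw [AlgHom.comp_apply, AlgHom.comp_apply, hz, rename_X]
        rfl
    exact fun x => congrArg (fun k => k x) h1
  obtain ⟨g, hg⟩ := bring_lift T' (ZRing T) (p.comp (rename (Sum.map id some))) (fun k => by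
    rw [AlgHom.comp_apply, ← hφ, hpφ, hpk])
  refine ⟨AlgEquiv.ofAlgHom f g ?_ ?_⟩
  · apply Ideal.Quotient.algHom_ext
    apply MvPolynomial.algHom_ext
    intro s
    change f (g (Ideal.Quotient.mk _ (X s))) = Ideal.Quotient.mk _ (X s)
    rw [hg, AlgHom.comp_apply, rename_X, hp, hf, hf0, AlgHom.comp_apply, ← hq']
    rcases s with j | g
    · rw [Sum.map_inl, hy]
      rfl
    · rw [Sum.map_inr, hz]
  · apply Ideal.Quotient.algHom_ext
    apply Ideal.Quotient.algHom_ext
    apply MvPolynomial.algHom_ext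
    intro s
    change g (f (Ideal.Quotient.mk _ (Ideal.Quotient.mk _ (X s)))) =
      Ideal.Quotient.mk _ (Ideal.Quotient.mk _ (X s))
    rw [hf, hf0, AlgHom.comp_apply, hq', hg, AlgHom.comp_apply, hpφ, hp]

/-- Renaming the variables. -/
noncomputable def renB {γ' : Type} [Fintype γ'] (e : γ ≃ γ') (T : κ → β → γ' → R) :
    BRing (fun k j g => T k j (e g)) ≃ₐ[R] BRing T :=
  Ideal.quotientEquivAlg _ _ (renameEquiv R (Equiv.sumCongr (Equiv.refl β) e)) (by
    rw [Ideal.map_span, ← Set.range_comp]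
    congr 2
    funext k
    simp only [Function.comp_apply, RingHom.coe_coe, bil_apply, map_sum, map_mul,
      renameEquiv_apply, rename_C, rename_X, Equiv.sumCongr_apply, Sum.map_inl, Sum.map_inr]
    apply Finset.sum_congr rfl
    intro j _
    rw [← e.sum_comp]
    rfl)

end

end Pool.Agent.Y101.Th
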