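import Pool.Agent.Y101.Th.Up

/-!
# From closed subschemes of affine spaces to the hypersurfaces `t(x, y, z) = 1`: conclusion
-/

set_option autoImplicit false

open CategoryTheory AlgebraicGeometry MvPolynomial TopologicalSpace

namespace Pool.Agent.Y101.Th

open Pool.Agent.Y116.UV

variable {R : Type} [CommRing R] {sep : Prop} {P : Sch R → Prop}

/-- smaller sets of variables -/
lemma good_le {n : ℕ} (h : Good P (MvPolynomial (Fin n) R)) (γ : Type) [Fintype γ]
    (hγ : Fintype.card γ ≤ n) : Good P (MvPolynomial γ R) := by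
  classical
  obtain ⟨e⟩ := Function.Embedding.nonempty_of_card_le (α := γ) (β := Fin n)
    (by rw [Fintype.card_fin]; exact hγ)
  obtain ⟨φ, hφ⟩ : ∃ φ : MvPolynomial (Fin n) R →ₐ[R] MvPolynomial γ R,
      ∀ g, φ (X (e g)) = X g := by
    refine ⟨aeval fun i => if h : ∃ g, e g = i then X h.choose else 0, fun g => ?_⟩
    rw [aeval_X, dif_pos ⟨g, rfl⟩]
    congr 1
    exact e.injective (⟨g, rfl⟩ : ∃ g', e g' = e g).choose_spec
  refine h.comp φ (IsLC.of_surjective fun p => ⟨rename e p, ?_⟩)
  have h1 : φ.comp (rename e) = AlgHom.id R _ := by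
    apply MvPolynomial.algHom_ext
    intro g
    rw [AlgHom.comp_apply, rename_X, hφ]
    rfl
  exact congrArg (fun k => k p) h1

theorem bilinear (hP : UniB sep P) {n : ℕ} (h : Good P (MvPolynomial (Fin n) R)) :
    ∀ (c : ℕ) (_ : c ≤ n + 1) (β γ κ : Type) [Fintype β] [Fintype γ] [Fintype κ]
    (_ : Fintype.card γ = c) (T : κ → β → γ → R), P (aff R (BRing T)) := by
  intro c
  induction c with
  | zero =>
    intro _ β γ κ _ _ _ hγ T
    have hE : IsEmpty γ := Fintype.card_eq_zero_iff.mp hγ
    have h1 : Ideal.span (Set.range fun k => bil β γ (T k)) = ⊥ := by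
      rw [Ideal.span_eq_bot]
      rintro _ ⟨k, rfl⟩
      change bil β γ (T k) = 0
      rw [bil_apply]
      apply Finset.sum_eq_zero
      intro j _
      rw [Finset.univ_eq_empty, Finset.sum_empty]
    have h2 : P (aff R (MvPolynomial (β ⊕ γ) R ⧸ (⊥ : Ideal (MvPolynomial (β ⊕ γ) R)))) :=
      iso_alg hP.toUni (AlgEquiv.quotientBot R (MvPolynomial (β ⊕ γ) R)).symm
        (space' hP.toUni (β ⊕ γ))
    rw [← h1] at h2
    exact h2
  | succ c ih =>
    intro hc β γ κ _ _ _ hγ T
    have e : Option (Fin c) ≃ γ := Fintype.equivOfCardEq (by simp [hγ])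
    let T' : κ → β → Option (Fin c) → R := fun k j g => T k j (e g)
    refine iso_alg hP.toUni (renB e T) ?_
    change P (aff R (BRing T'))
    refine of_triple_away hP.toUni (z0 T') ?_ ?_
    · obtain ⟨e1⟩ := quotB T'
      exact iso_alg hP.toUni e1.symm (ih (by omega) β (Fin c) κ (Fintype.card_fin c) _)
    · obtain ⟨e1⟩ := dehom T'
      have h1 : Good P (MvPolynomial (Fin c) R) :=
        good_le h (Fin c) (by rw [Fintype.card_fin]; omega)
      have h2 : P (aff R (DRing T')) := linear_systems hP h1 _ _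
      have hft : Algebra.FiniteType R (DRing T') := ft_L _ _
      have hft2 := ft_laurent (R := R) (DRing T')
      exact iso_alg hP.toUni e1.symm (laurent hP _ h2)

/-- If `P` is true for the closed subschemes of `𝔸^n` then it is true for all hypersurfaces
`t(x, y, z) = 1` for which `z` consists of at most `n + 1` variables. -/
theorem hyp_of_closed (hP : UniB sep P) {n : ℕ}
    (h : ∀ I : Ideal (MvPolynomial (Fin n) R), P (aff R (MvPolynomial (Fin n) R ⧸ I)))
    {a b c : ℕ} (hc : c ≤ n + 1) (T : Fin a → Fin b → Fin c → R) : P (hypS T) := by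
  have h1 := good_of_closed hP.toUni h
  have h2 : P (aff R (BRing fun i => T i)) :=
    bilinear hP h1 c hc (Fin b) (Fin c) (Fin a) (Fintype.card_fin c) _
  have h3 := jou_of hP (fun i => bil (Fin b) (Fin c) (T i)) (space' hP.toUni _) h2
  exact iso_alg hP.toUni (hypEquiv T).symm h3

end Pool.Agent.Y101.Th
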